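import Pool.Agent.Y691.ST.PermFin

/-!
# Artin's induction theorem
-/

set_option autoImplicit false

namespace Pool.Agent.Y691.ST

open Pool.Agent.Y144.DL

variable {Q : Type} [Group Q] [Finite Q]

omit [Finite Q] in
lemma hyp_of_cyclic {T : Subgroup Q} (h : IsCyclic T) (p : ℕ) : Hyp (⊥ : Subgroup Q) p T :=
  hyp_of_cycHyp ⟨T, le_rfl, h, fun _ ht _ hy => T.mul_mem (T.mul_mem ht hy) (T.inv_mem ht),
    fun t ht => ⟨0, by rw [pow_zero, pow_one]; exact ht⟩⟩

/-- the passage from a family of subgroups to the group -/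
theorem glueP {P : Subgroup Q → Prop} {θ : Q → ℂ} (hθ : ∀ g x, θ (x⁻¹ * g * x) = θ g)
    (Y : AddSubgroup (Q → ℂ))
    (hT : ∀ T : Subgroup Q, P T → avg T ⊤ (ext T (1 : T →* ℂˣ) * θ) ∈ Y) :
    ∀ f ∈ AddSubgroup.closure (FG P), (fun g => (f g : ℂ) * θ g) ∈ Y := by
  classical
  have := Fintype.ofFinite Q
  intro f hf
  induction hf using AddSubgroup.closure_induction with
  | mem f hf =>
    obtain ⟨X, _, _, hX, hXf⟩ := hf
    let F : X → Q → ℂ := fun x g => if g • x = x then θ g else 0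
    have hsum : (fun g => (f g : ℂ) * θ g) = ∑ x : X, F x := by
      funext g
      rw [Finset.sum_apply]
      show (f g : ℂ) * θ g = ∑ x : X, if g • x = x then θ g else 0
      rw [← Finset.sum_filter, Finset.sum_const, hXf, nsmul_eq_mul]
      congr 1
      rw [Nat.card_eq_fintype_card, Fintype.card_subtype]
      push_cast
      rfl
    rw [hsum]
    refine sum_orbits ⊤ F ?_ Y _ Finset.univ le_rfl (fun _ _ _ _ => Finset.mem_univ _) ?_
    · intro h _ x g
      have h3 : (g • h • x = h • x) ↔ (h⁻¹ * g * h) • x = x := by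
        rw [mul_smul, mul_smul, inv_smul_eq_iff]
      show (if g • h • x = h • x then θ g else 0) = if (h⁻¹ * g * h) • x = x then θ (h⁻¹ * g * h) else 0
      simp only [h3, hθ]
    · intro x _
      let T := MulAction.stabilizer Q x
      have hT' : (⊤ : Subgroup Q) ⊓ MulAction.stabilizer Q x = T := top_inf_eq _
      rw [hT']
      have hF : F x = ext T (1 : T →* ℂˣ) * θ := by
        funext g
        rw [Pi.mul_apply]
        show (if g • x = x then θ g else 0) = _
        by_cases hg : g • x = x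
        · rw [if_pos hg, ext_mem T _ (show g ∈ T from hg), MonoidHom.one_apply, Units.val_one, one_mul]
        · rw [if_neg hg, ext_not_mem T _ (show g ∉ T from hg), zero_mul]
      rw [hF]
      exact hT T (hX x)
  | zero =>
    have h3 : (fun g => (((0 : Q → ℤ) g : ℤ) : ℂ) * θ g) = 0 := by
      funext g
      simp
    rw [h3]
    exact zero_mem _
  | add a b _ _ ha hb =>
    have h3 : (fun g => (((a + b : Q → ℤ) g : ℤ) : ℂ) * θ g) =
        (fun g => (a g : ℂ) * θ g) + fun g => (b g : ℂ) * θ g := by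
      funext g
      simp only [Pi.add_apply, Int.cast_add]
      ring
    rw [h3]
    exact add_mem ha hb
  | neg a _ ha =>
    have h3 : (fun g => (((-a : Q → ℤ) g : ℤ) : ℂ) * θ g) = -fun g => (a g : ℂ) * θ g := by
      funext g
      simp only [Pi.neg_apply, Int.cast_neg]
      ring
    rw [h3]
    exact neg_mem ha

/-- enough cyclic subgroups -/
theorem exists_FG_cyclic (x : Q) (p : ℕ) (hp : Nat.card Q < p) :
    ∃ f ∈ FG (fun T : Subgroup Q => IsCyclic T), ¬ (p : ℤ) ∣ f x := by
  classical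
  have := Fintype.ofFinite Q
  let H := Subgroup.zpowers x
  refine ⟨fun g => Nat.card {y : Q ⧸ H // g • y = y},
    ⟨Q ⧸ H, Fintype.ofFinite _, inferInstance, ?_, fun g => rfl⟩, ?_⟩
  · intro y
    induction y using QuotientGroup.induction_on with
    | H q =>
      let θ : Q →* Q := (MulAut.conj q⁻¹).toMonoidHom
      have hθ : ∀ g : Q, θ g = q⁻¹ * g * q := by
        intro g
        show q⁻¹ * g * (q⁻¹)⁻¹ = _
        rw [inv_inv]
      have hinj : Function.Injective θ := (MulAut.conj q⁻¹).injective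
      have hstab : MulAction.stabilizer Q (q : Q ⧸ H) = H.comap θ := by
        ext g
        rw [MulAction.mem_stabilizer_iff, Subgroup.mem_comap, hθ]
        have h1 : g • (q : Q ⧸ H) = ((g * q : Q) : Q ⧸ H) := rfl
        rw [h1, eq_comm, QuotientGroup.eq, mul_assoc]
      rw [hstab]
      refine isCyclic_of_injective ((θ.comp (H.comap θ).subtype).codRestrict H fun x => x.2) ?_
      intro a b hab
      exact Subtype.ext (hinj (congrArg Subtype.val hab))
  · intro h1
    have h2 : (p : ℤ) ∣ (Nat.card {y : Q ⧸ H // x • y = y} : ℤ) := h1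
    have h3 : p ∣ Nat.card {y : Q ⧸ H // x • y = y} := by exact_mod_cast h2
    have hpos : 0 < Nat.card {y : Q ⧸ H // x • y = y} := by
      have : Nonempty {y : Q ⧸ H // x • y = y} := by
        refine ⟨⟨((1 : Q) : Q ⧸ H), ?_⟩⟩
        rw [smul_mk_eq, inv_one, one_mul, mul_one]
        exact Subgroup.mem_zpowers x
      exact Nat.card_pos
    have hle : Nat.card {y : Q ⧸ H // x • y = y} ≤ Nat.card Q :=
      (Nat.card_le_card_of_injective _ Subtype.val_injective).trans
        (Nat.card_le_card_of_surjective _ (QuotientGroup.mk_surjective (s := H)))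
    have := Nat.le_of_dvd hpos h3
    omega

variable {A : Type} [CommGroup A] (Y : (Q → ℂ) → A) {M : Subgroup Q} [M.Normal]

/-- **Artin's induction theorem**, for the characters which are trivial on `M`. -/
theorem fin_cyc (hY : ∀ θ θ', IsChar θ → IsChar θ' → Y (θ + θ') = Y θ * Y θ')
    (hG : ∀ (K : Subgroup Q) (χ : K →* ℂˣ), IsCyclic K → (∀ k : K, (k : Q) ∈ M → χ k = 1) →
      Y (ind K χ) = 1)
    {θ : Q ⧸ M → ℂ} (hθ : IsChar θ) : ∃ l : ℕ, l ≠ 0 ∧ Y (θ ∘ QuotientGroup.mk' M) ^ l = 1 := by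
  obtain ⟨p, hpc, hp⟩ := Nat.exists_infinite_primes (Nat.card Q + 1)
  obtain ⟨l, hl, hlR⟩ := banaschewski_p (AddSubgroup.closure (FG fun T : Subgroup Q => IsCyclic T))
    (closure_FG_mul fun H K hH hK => isCyclic_of_injective
      (Subgroup.inclusion (inf_le_left : H ⊓ K ≤ H)) (Subgroup.inclusion_injective _)) p hp
    (fun x => by
      obtain ⟨f, hf, h⟩ := exists_FG_cyclic x p (by omega)
      exact ⟨f, AddSubgroup.subset_closure hf, h⟩)
  refine ⟨l.natAbs, fun h => hl ?_, ?_⟩
  · rw [Int.natAbs_eq_zero] at h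
    rw [h]
    exact dvd_zero _
  have hθ' := isChar_comp (M := M) hθ
  refine pow_of_mem Y hY hθ' (glueP (fun g x => isChar_conj hθ' g x) (span1 Y) ?_ _ hlR)
  intro T hT
  refine avg_mem_of_lin (M := M) (span1 Y) ?_ _ (restrict_mem M hp (hyp_of_cyclic hT p) hθ)
  intro K χ hK hχ
  refine mem_span1 Y (hG K χ ?_ hχ)
  exact isCyclic_of_injective (Subgroup.inclusion hK) (Subgroup.inclusion_injective hK)

/-- The theorem of Brauer in the form of Solomon, for the characters which are trivial on `M`. -/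
theorem fin_hyp (hY : ∀ θ θ', IsChar θ → IsChar θ' → Y (θ + θ') = Y θ * Y θ') {p : ℕ}
    (hp : p.Prime)
    (hG : ∀ (K : Subgroup Q) (χ : K →* ℂˣ), CycHyp p K → (∀ k : K, (k : Q) ∈ M → χ k = 1) →
      Y (ind K χ) = 1)
    {θ : Q ⧸ M → ℂ} (hθ : IsChar θ) : ∃ l : ℕ, ¬ p ∣ l ∧ Y (θ ∘ QuotientGroup.mk' M) ^ l = 1 := by
  obtain ⟨l, hl, hlR⟩ := banaschewski_p (AddSubgroup.closure (FG (CycHyp (G := Q) p)))
    (closure_FG_mul fun H K hH hK => cycHyp_mono hH inf_le_left) p hp (fun x => by
      obtain ⟨f, hf, h⟩ := exists_FG_cyc x p hp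
      exact ⟨f, AddSubgroup.subset_closure hf, h⟩)
  refine ⟨l.natAbs, fun h => hl (Int.natCast_dvd.mpr h), ?_⟩
  have hθ' := isChar_comp (M := M) hθ
  refine pow_of_mem Y hY hθ' (glueP (fun g x => isChar_conj hθ' g x) (span1 Y) ?_ _ hlR)
  intro T hT
  refine avg_mem_of_lin (M := M) (span1 Y) ?_ _ (restrict_mem M hp (hyp_of_cycHyp hT) hθ)
  intro K χ hK hχ
  exact mem_span1 Y (hG K χ (cycHyp_mono hT hK) hχ)

end Pool.Agent.Y691.ST
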