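import Pool.Agent.Y691.ST.Prof

/-!
# Induced representations of profinite groups
-/

set_option autoImplicit false

namespace Pool.Agent.Y691.ST

open Pool.Agent.Y144.DL

variable {G : Type} [Group G] [TopologicalSpace G]

lemma extC_mem (U : Subgroup G) (θ : U → ℂ) {g : G} (h : g ∈ U) : extC U θ g = θ ⟨g, h⟩ := by
  unfold extC
  rw [dif_pos h]

lemma extC_not_mem (U : Subgroup G) (θ : U → ℂ) {g : G} (h : g ∉ U) : extC U θ g = 0 := by
  unfold extC
  rw [dif_neg h]

lemma extC_lin (U : Subgroup G) (χ : U →* ℂˣ) : extC U (lin χ) = ext U χ := by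
  funext g
  by_cases h : g ∈ U
  · rw [extC_mem U _ h, ext_mem U χ h]
    rfl
  · rw [extC_not_mem U _ h, ext_not_mem U χ h]

lemma indC_lin (U : Subgroup G) (χ : U →* ℂˣ) : indC U (lin χ) = indF U χ := by
  unfold indC indF
  rw [extC_lin]

/-- the extension by zero of a matrix representation of a subgroup -/
noncomputable def extM (U : Subgroup G) {n : ℕ} (ρ : U →* Matrix (Fin n) (Fin n) ℂ) :
    G → Matrix (Fin n) (Fin n) ℂ := fun g => by
  classical exact if h : g ∈ U then ρ ⟨g, h⟩ else 0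

lemma extM_mem (U : Subgroup G) {n : ℕ} (ρ : U →* Matrix (Fin n) (Fin n) ℂ) {g : G} (h : g ∈ U) :
    extM U ρ g = ρ ⟨g, h⟩ := by
  unfold extM
  rw [dif_pos h]

lemma extM_not_mem (U : Subgroup G) {n : ℕ} (ρ : U →* Matrix (Fin n) (Fin n) ℂ) {g : G}
    (h : g ∉ U) : extM U ρ g = 0 := by
  unfold extM
  rw [dif_neg h]

lemma extM_mul (U : Subgroup G) {n : ℕ} (ρ : U →* Matrix (Fin n) (Fin n) ℂ) [Fintype (G ⧸ U)]
    (g g' : G) (x z : G ⧸ U) :
    ∑ y : G ⧸ U, extM U ρ (x.out⁻¹ * g * y.out) * extM U ρ (y.out⁻¹ * g' * z.out) =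
      extM U ρ (x.out⁻¹ * (g * g') * z.out) := by
  classical
  rw [Finset.sum_eq_single (g' • z)]
  · by_cases hx : g • g' • z = x
    · have m1 : x.out⁻¹ * g * (g' • z).out ∈ U := (smul_out_mem U g x (g' • z)).2 hx
      have m2 : (g' • z).out⁻¹ * g' * z.out ∈ U := (smul_out_mem U g' (g' • z) z).2 rfl
      have m3 : x.out⁻¹ * (g * g') * z.out ∈ U := by
        rw [smul_out_mem, mul_smul]
        exact hx
      rw [extM_mem U ρ m1, extM_mem U ρ m2, extM_mem U ρ m3, ← map_mul]
      congr 1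
      apply Subtype.ext
      show (x.out⁻¹ * g * (g' • z).out) * ((g' • z).out⁻¹ * g' * z.out) = x.out⁻¹ * (g * g') * z.out
      group
    · have m1 : x.out⁻¹ * g * (g' • z).out ∉ U := fun h => hx ((smul_out_mem U g x (g' • z)).1 h)
      have m3 : x.out⁻¹ * (g * g') * z.out ∉ U := by
        rw [smul_out_mem, mul_smul]
        exact hx
      rw [extM_not_mem U ρ m1, extM_not_mem U ρ m3, zero_mul]
  · intro y _ hy
    have m2 : y.out⁻¹ * g' * z.out ∉ U := fun h => hy ((smul_out_mem U g' y z).1 h).symm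
    rw [extM_not_mem U ρ m2, mul_zero]
  · intro h
    exact absurd (Finset.mem_univ _) h

/-- the induced representation -/
noncomputable def indM (U : Subgroup G) {n : ℕ} (ρ : U →* Matrix (Fin n) (Fin n) ℂ)
    [Fintype (G ⧸ U)] [DecidableEq (G ⧸ U)] :
    G →* Matrix ((G ⧸ U) × Fin n) ((G ⧸ U) × Fin n) ℂ where
  toFun g := fun a b => extM U ρ (a.1.out⁻¹ * g * b.1.out) a.2 b.2
  map_one' := by
    ext ⟨x, i⟩ ⟨y, j⟩
    rw [Matrix.one_apply]
    by_cases h : x = y
    · subst h
      have h1 : x.out⁻¹ * 1 * x.out = 1 := by group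
      simp only
      rw [h1, extM_mem U ρ U.one_mem]
      have h2 : (⟨1, U.one_mem⟩ : U) = 1 := rfl
      rw [h2, map_one, Matrix.one_apply]
      simp [Prod.ext_iff]
    · simp only
      rw [extM_not_mem]
      · simp [Prod.ext_iff, h]
      · rw [smul_out_mem, one_smul]
        exact fun h1 => h h1.symm
  map_mul' := by
    intro g g'
    ext ⟨x, i⟩ ⟨z, k⟩
    rw [Matrix.mul_apply, Fintype.sum_prod_type]
    simp only
    rw [← extM_mul U ρ g g' x z, Matrix.sum_apply]
    refine Finset.sum_congr rfl fun y _ => ?_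
    rw [Matrix.mul_apply]

lemma trace_indM (U : Subgroup G) {n : ℕ} (ρ : U →* Matrix (Fin n) (Fin n) ℂ)
    [Fintype (G ⧸ U)] [DecidableEq (G ⧸ U)] (g : G) :
    (indM U ρ g).trace = indC U (fun u => (ρ u).trace) g := by
  unfold indC
  rw [finsum_eq_sum_of_fintype, Matrix.trace, Fintype.sum_prod_type]
  refine Finset.sum_congr rfl fun x _ => ?_
  show ∑ i, extM U ρ (x.out⁻¹ * g * x.out) i i = _
  by_cases h : x.out⁻¹ * g * x.out ∈ U
  · rw [extM_mem U ρ h, extC_mem U _ h]
    rfl
  · rw [extM_not_mem U ρ h, extC_not_mem U _ h]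
    simp

variable [IsTopologicalGroup G] [CompactSpace G] [TotallyDisconnectedSpace G]

/-- The induced character of an Artin character is an Artin character. -/
theorem isArtin_ind {U : Subgroup G} (hU : IsOpen (U : Set G)) {θ : U → ℂ} (hθ : IsArtin θ) :
    IsArtin (indC U θ) := by
  classical
  obtain ⟨n, ρ, hρ, rfl⟩ := hθ
  have hfin : Finite (G ⧸ U) := Subgroup.quotient_finite_of_isOpen U hU
  have := Fintype.ofFinite (G ⧸ U)
  -- an open normal subgroup in the kernel
  have hW : IsOpen (Subtype.val '' {u : U | ρ u = 1}) := hU.isOpenMap_subtype_val _ hρ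
  obtain ⟨N, hN⟩ := ProfiniteGrp.exist_openNormalSubgroup_sub_open_nhds_of_one hW
    ⟨1, map_one ρ, rfl⟩
  have hNU : ∀ g ∈ N.toSubgroup, ∃ h : g ∈ U, ρ ⟨g, h⟩ = 1 := by
    intro g hg
    obtain ⟨u, hu, rfl⟩ := hN hg
    exact ⟨u.2, hu⟩
  have hker : ∀ g ∈ N.toSubgroup, indM U ρ g = 1 := by
    intro g hg
    ext ⟨x, i⟩ ⟨y, j⟩
    have hNn : N.toSubgroup.Normal := N.isNormal'
    have h1 : x.out⁻¹ * g * x.out ∈ N.toSubgroup := by
      have := hNn.conj_mem g hg x.out⁻¹
      rwa [inv_inv] at this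
    obtain ⟨h2, h3⟩ := hNU _ h1
    show extM U ρ (x.out⁻¹ * g * y.out) i j = _
    rw [Matrix.one_apply]
    by_cases h : x = y
    · subst h
      rw [extM_mem U ρ h2, h3, Matrix.one_apply]
      simp [Prod.ext_iff]
    · rw [extM_not_mem]
      · simp [Prod.ext_iff, h]
      · intro h4
        apply h
        have h5 : x.out⁻¹ * y.out ∈ U := by
          have h6 := U.mul_mem (U.inv_mem h2) h4
          have h7 : (x.out⁻¹ * g * x.out)⁻¹ * (x.out⁻¹ * g * y.out) = x.out⁻¹ * y.out := by group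
          rwa [h7] at h6
        have h8 := QuotientGroup.eq.2 h5
        rwa [QuotientGroup.out_eq', QuotientGroup.out_eq'] at h8
  let e := Fintype.equivFin ((G ⧸ U) × Fin n)
  let R := (Matrix.reindexAlgEquiv ℂ ℂ e).toMulEquiv.toMonoidHom.comp (indM U ρ)
  refine ⟨_, R, ?_, ?_⟩
  · have h1 : {g : G | R g = 1} = ((R.ker : Subgroup G) : Set G) := by
      ext g
      rfl
    rw [h1]
    refine isOpen_of_le (N := N.toSubgroup) N.isOpen fun g hg => ?_
    show R g = 1
    show (Matrix.reindexAlgEquiv ℂ ℂ e) (indM U ρ g) = 1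
    rw [hker g hg, map_one]
  · funext g
    rw [← trace_indM]
    show (indM U ρ g).trace = ((Matrix.reindexAlgEquiv ℂ ℂ e) (indM U ρ g)).trace
    simp only [Matrix.trace, Matrix.diag_apply]
    exact Fintype.sum_equiv e _ _ (fun x => by simp)

lemma isArtin_lin {U : Subgroup G} {χ : U →* ℂˣ} (hχ : IsOpen {u : U | χ u = 1}) :
    IsArtin (lin χ) := by
  refine ⟨1, { toFun := fun g => fun _ _ => (χ g : ℂ), map_one' := ?_, map_mul' := ?_ }, ?_, ?_⟩
  · ext i j
    rw [Subsingleton.elim i j]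
    simp
  · intro x y
    ext i j
    simp [Matrix.mul_apply]
  · convert hχ using 1
    ext g
    constructor
    · intro h
      have h1 := congrFun (congrFun h 0) 0
      simp only [Matrix.one_apply_eq] at h1
      exact Units.ext h1
    · intro h
      have h1 : χ g = 1 := h
      show (_ : Matrix (Fin 1) (Fin 1) ℂ) = 1
      ext i j
      show (χ g : ℂ) = _
      rw [Subsingleton.elim i j, h1]
      simp
  · funext g
    simp [Matrix.trace, lin]

omit [CompactSpace G] [TotallyDisconnectedSpace G] in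
lemma isOpenLinear_iff {U : Subgroup G} {χ : U →* ℂˣ} :
    IsOpenLinear U χ ↔ IsOpen (U : Set G) ∧ IsOpen {u : U | χ u = 1} := by
  have h1 : {g : G | ∃ h : g ∈ U, χ ⟨g, h⟩ = 1} = Subtype.val '' {u : U | χ u = 1} := by
    ext g
    constructor
    · rintro ⟨h, h2⟩
      exact ⟨⟨g, h⟩, h2, rfl⟩
    · rintro ⟨u, hu, rfl⟩
      exact ⟨u.2, hu⟩
  unfold IsOpenLinear
  rw [h1]
  refine and_congr_right fun hU => ?_
  constructor
  · intro h
    have h2 := h.preimage (continuous_subtype_val (p := fun g => g ∈ U))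
    rwa [Set.preimage_image_eq _ Subtype.val_injective] at h2
  · intro h
    exact hU.isOpenMap_subtype_val _ h

end Pool.Agent.Y691.ST
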