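import Pool.Agent.Y691.ST.Level
import Pool.Agent.Y691.ST.FinCyc
import Pool.Agent.Y691.ST.Ind

/-!
# Reduction to cyclic extensions which are completely split or local
-/

set_option autoImplicit false

namespace Pool.Agent.Y691.ST

open Pool.Agent.Y144.DL

/-- the main theorem for the Artin characters of `ℚ` -/
theorem split_main {d : (GalQ → ℂ) → ℂˣ}
    (hadd : ∀ θ θ', IsArtin θ → IsArtin θ' → d (θ + θ') = d θ * d θ')
    {V : Finset (AbsoluteValue Qbar ℝ)} (hV : ∀ v ∈ V, ∃ a : ℚ, 1 < v (a : Qbar))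
    {N : Subgroup GalQ} [N.Normal] (hN : IsOpen (N : Set GalQ))
    (quad : ∀ (U : Subgroup GalQ) (χ : U →* ℂˣ), IsOpenLinear U χ → χ ^ 2 = 1 →
      d (indF U χ) = 1)
    (good : ∀ (U : Subgroup GalQ) (χ : U →* ℂˣ), Admissible V N U χ →
      ∃ m : ℕ, m ≠ 0 ∧ d (indF U χ) ^ m = 1)
    {n : ℕ} {ρ : GalQ →* Matrix (Fin n) (Fin n) ℂ} (hρ : N ≤ ρ.ker) :
    ∃ m : ℕ, m ≠ 0 ∧ d (fun g => (ρ g).trace) ^ m = 1 := by
  classical
  obtain ⟨N₂, hN₂n, hN₂, hle₂, hlev⟩ := level_finset V Dec (fun v _ => isClosed_dec v)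
    (fun v hv y σ h1 h2 h3 => by
      obtain ⟨a, ha⟩ := hV v hv
      exact dec_malnormal ha h1 h2 h3) hN
  have hfin : Finite (GalQ ⧸ N₂) := Subgroup.quotient_finite_of_isOpen N₂ hN₂
  set π := QuotientGroup.mk' N₂ with hπ
  have hsurj : Function.Surjective π := QuotientGroup.mk'_surjective N₂
  have hker : π.ker = N₂ := QuotientGroup.ker_mk' N₂
  let M : Subgroup (GalQ ⧸ N₂) := N.map π
  have hMn : M.Normal := ‹N.Normal›.map π hsurj
  have hmM : ∀ g, π g ∈ M ↔ g ∈ N := by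
    intro g
    rw [← Subgroup.mem_comap, Subgroup.comap_map_eq_self (by rw [hker]; exact hle₂)]
  -- the character on the double quotient
  have hρ1 : N₂ ≤ ρ.ker := hle₂.trans hρ
  let ρ₁ : GalQ ⧸ N₂ →* Matrix (Fin n) (Fin n) ℂ := QuotientGroup.lift N₂ ρ hρ1
  have hρ2 : M ≤ ρ₁.ker := by
    rintro _ ⟨g, hg, rfl⟩
    exact hρ hg
  let ρ₂ : (GalQ ⧸ N₂) ⧸ M →* Matrix (Fin n) (Fin n) ℂ := QuotientGroup.lift M ρ₁ hρ2
  let θ₂ : (GalQ ⧸ N₂) ⧸ M → ℂ := fun g => (ρ₂ g).trace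
  have hθ₂ : IsChar θ₂ := ⟨n, ρ₂, rfl⟩
  let q : ℂˣ →* ℂˣ ⧸ CommGroup.torsion ℂˣ := QuotientGroup.mk' _
  have hq : ∀ z : ℂˣ, q z = 1 ↔ ∃ m : ℕ, m ≠ 0 ∧ z ^ m = 1 := by
    intro z
    have h1 : q z = 1 ↔ z ∈ CommGroup.torsion ℂˣ := QuotientGroup.eq_one_iff z
    rw [h1]
    have h2 : z ∈ CommGroup.torsion ℂˣ ↔ IsOfFinOrder z := Iff.rfl
    rw [h2, isOfFinOrder_iff_pow_eq_one]
    exact exists_congr fun m => and_congr_left fun _ => Nat.pos_iff_ne_zero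
  let Y : (GalQ ⧸ N₂ → ℂ) → ℂˣ ⧸ CommGroup.torsion ℂˣ := fun f => q (d (f ∘ π))
  have hY : ∀ θ θ', IsChar θ → IsChar θ' → Y (θ + θ') = Y θ * Y θ' := by
    intro θ θ' h h'
    show q (d ((θ + θ') ∘ π)) = q (d (θ ∘ π)) * q (d (θ' ∘ π))
    rw [← map_mul, ← hadd _ _ (isArtin_comp hN₂ h) (isArtin_comp hN₂ h')]
    rfl
  have hgoodY : ∀ (K : Subgroup (GalQ ⧸ N₂)) (χ : K →* ℂˣ), IsCyclic K →
      (∀ k : K, (k : GalQ ⧸ N₂) ∈ M → χ k = 1) → Y (ind K χ) = 1 := by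
    intro K χ hK hχ
    show q (d (ind K χ ∘ π)) = 1
    rw [hq, hπ, ind_infl]
    have hop := isOpenLinear_infl hN₂ K χ
    by_cases hsq : (infl N₂ K χ) ^ 2 = 1
    · exact ⟨1, one_ne_zero, by rw [quad _ _ hop hsq, one_pow]⟩
    have hcyc : CyclicMod N₂ (K.comap π) := by
      obtain ⟨⟨x, hx⟩, hgen⟩ := hK.exists_generator
      obtain ⟨x, rfl⟩ := hsurj x
      refine ⟨x, hx, fun u hu => ?_⟩
      obtain ⟨k, hk⟩ := Subgroup.mem_zpowers_iff.mp (hgen ⟨π u, hu⟩)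
      refine ⟨-k, ?_⟩
      rw [← hker, MonoidHom.mem_ker, map_mul, map_zpow]
      have h1 : (π x) ^ k = π u := congrArg Subtype.val hk
      rw [← h1, ← zpow_add, add_neg_cancel, zpow_zero]
    have hcyc' : CyclicMod N (K.comap π) := by
      obtain ⟨x, hx, h⟩ := hcyc
      refine ⟨x, hx, fun u hu => ?_⟩
      obtain ⟨k, hk⟩ := h u hu
      exact ⟨k, hle₂ hk⟩
    refine good _ _ ⟨hop.1, ?_, hsq, hcyc', dichotomy hle₂ hlev hcyc⟩
    intro u hu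
    exact hχ _ ((hmM _).mpr hu)
  obtain ⟨l, hl, hl1⟩ := fin_cyc Y (M := M) hY hgoodY hθ₂
  have h1 : q (d (fun g => (ρ g).trace)) ^ l = 1 := hl1
  rw [← map_pow, hq] at h1
  obtain ⟨m, hm, hm1⟩ := h1
  exact ⟨l * m, Nat.mul_ne_zero hl hm, by rw [pow_mul, hm1]⟩

/-- hyperelementary subgroups of a deeper quotient -/
lemma hyperMod_of {N N₂ : Subgroup GalQ} [N₂.Normal] (hle : N₂ ≤ N) {p : ℕ}
    {K : Subgroup (GalQ ⧸ N₂)} (hK : CycHyp p K) :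
    HyperMod p N (K.comap (QuotientGroup.mk' N₂)) := by
  set π := QuotientGroup.mk' N₂ with hπ
  have hker : π.ker = N₂ := QuotientGroup.ker_mk' N₂
  obtain ⟨C, hCK, hC, hn, hpow⟩ := hK
  obtain ⟨⟨z, hz⟩, hgen⟩ := hC.exists_generator
  obtain ⟨x, rfl⟩ := QuotientGroup.mk'_surjective N₂ z
  refine ⟨x, hCK hz, fun t ht => ⟨?_, ?_⟩⟩
  · obtain ⟨a, ha⟩ := Subgroup.mem_zpowers_iff.mp (hgen ⟨_, hn (π t) ht _ hz⟩)
    have ha' : (π x) ^ a = π t * π x * (π t)⁻¹ := congrArg Subtype.val ha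
    refine ⟨-a, hle ?_⟩
    rw [← hker, MonoidHom.mem_ker, map_mul, map_mul, map_mul, map_inv, map_zpow, ← ha', ← zpow_add,
      add_neg_cancel, zpow_zero]
  · obtain ⟨j, hj⟩ := hpow (π t) ht
    obtain ⟨a, ha⟩ := Subgroup.mem_zpowers_iff.mp (hgen ⟨_, hj⟩)
    have ha' : (π x) ^ a = π t ^ p ^ j := congrArg Subtype.val ha
    refine ⟨j, -a, hle ?_⟩
    rw [← hker, MonoidHom.mem_ker, map_mul, map_pow, map_zpow, ← ha', ← zpow_add,
      add_neg_cancel, zpow_zero]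

/-- the main theorem for one prime -/
theorem psplit_main {d : (GalQ → ℂ) → ℂˣ}
    (hadd : ∀ θ θ', IsArtin θ → IsArtin θ' → d (θ + θ') = d θ * d θ')
    {V : Finset (AbsoluteValue Qbar ℝ)} (hV : ∀ v ∈ V, ∃ a : ℚ, 1 < v (a : Qbar))
    {N : Subgroup GalQ} [N.Normal] (hN : IsOpen (N : Set GalQ))
    (quad : ∀ (U : Subgroup GalQ) (χ : U →* ℂˣ), IsOpenLinear U χ → χ ^ 2 = 1 →
      d (indF U χ) = 1) {p : ℕ} (hp : p.Prime)
    (good : ∀ (U : Subgroup GalQ) (χ : U →* ℂˣ), PAdmissible p V N U χ → d (indF U χ) = 1)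
    {n : ℕ} {ρ : GalQ →* Matrix (Fin n) (Fin n) ℂ} (hρ : N ≤ ρ.ker) :
    ∃ l : ℕ, ¬ p ∣ l ∧ d (fun g => (ρ g).trace) ^ l = 1 := by
  classical
  obtain ⟨N₂, hN₂n, hN₂, hle₂, hlev⟩ := level_finset V Dec (fun v _ => isClosed_dec v)
    (fun v hv y σ h1 h2 h3 => by
      obtain ⟨a, ha⟩ := hV v hv
      exact dec_malnormal ha h1 h2 h3) hN
  have hfin : Finite (GalQ ⧸ N₂) := Subgroup.quotient_finite_of_isOpen N₂ hN₂
  set π := QuotientGroup.mk' N₂ with hπ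
  have hsurj : Function.Surjective π := QuotientGroup.mk'_surjective N₂
  have hker : π.ker = N₂ := QuotientGroup.ker_mk' N₂
  let M : Subgroup (GalQ ⧸ N₂) := N.map π
  have hMn : M.Normal := ‹N.Normal›.map π hsurj
  have hmM : ∀ g, π g ∈ M ↔ g ∈ N := by
    intro g
    rw [← Subgroup.mem_comap, Subgroup.comap_map_eq_self (by rw [hker]; exact hle₂)]
  -- the character on the double quotient
  have hρ1 : N₂ ≤ ρ.ker := hle₂.trans hρ
  let ρ₁ : GalQ ⧸ N₂ →* Matrix (Fin n) (Fin n) ℂ := QuotientGroup.lift N₂ ρ hρ1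
  have hρ2 : M ≤ ρ₁.ker := by
    rintro _ ⟨g, hg, rfl⟩
    exact hρ hg
  let ρ₂ : (GalQ ⧸ N₂) ⧸ M →* Matrix (Fin n) (Fin n) ℂ := QuotientGroup.lift M ρ₁ hρ2
  let θ₂ : (GalQ ⧸ N₂) ⧸ M → ℂ := fun g => (ρ₂ g).trace
  have hθ₂ : IsChar θ₂ := ⟨n, ρ₂, rfl⟩
  let Y : (GalQ ⧸ N₂ → ℂ) → ℂˣ := fun f => d (f ∘ π)
  have hY : ∀ θ θ', IsChar θ → IsChar θ' → Y (θ + θ') = Y θ * Y θ' := by
    intro θ θ' h h'
    exact hadd _ _ (isArtin_comp hN₂ h) (isArtin_comp hN₂ h')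
  refine fin_hyp Y (M := M) hY hp ?_ hθ₂
  intro K χ hK hχ
  show d (ind K χ ∘ π) = 1
  rw [hπ, ind_infl]
  have hop := isOpenLinear_infl hN₂ K χ
  by_cases hsq : (infl N₂ K χ) ^ 2 = 1
  · exact quad _ _ hop hsq
  have hsq' : LargeOrder (K.comap (QuotientGroup.mk' N₂)) (infl N₂ K χ) := by
    by_contra hcon
    apply hsq
    unfold LargeOrder at hcon
    push Not at hcon
    ext u
    rw [pow_two]
    exact congrArg Units.val (hcon u)
  refine good _ _ ⟨hop.1, ?_, hsq', ?_, dichotomy_p hlev hK⟩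
  · intro u hu
    exact hχ _ ((hmM _).mpr hu)
  · exact hyperMod_of hle₂ hK

/-- the main theorem -/
theorem psplit_one {d : (GalQ → ℂ) → ℂˣ}
    (hadd : ∀ θ θ', IsArtin θ → IsArtin θ' → d (θ + θ') = d θ * d θ')
    {V : Finset (AbsoluteValue Qbar ℝ)} (hV : ∀ v ∈ V, ∃ a : ℚ, 1 < v (a : Qbar))
    {N : Subgroup GalQ} [N.Normal] (hN : IsOpen (N : Set GalQ))
    (quad : ∀ (U : Subgroup GalQ) (χ : U →* ℂˣ), IsOpenLinear U χ → χ ^ 2 = 1 →
      d (indF U χ) = 1)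
    (good : ∀ (p : ℕ) (U : Subgroup GalQ) (χ : U →* ℂˣ), p.Prime → PAdmissible p V N U χ →
      d (indF U χ) = 1)
    {n : ℕ} {ρ : GalQ →* Matrix (Fin n) (Fin n) ℂ} (hρ : N ≤ ρ.ker) :
    d (fun g => (ρ g).trace) = 1 := by
  have h1 := fun (p : ℕ) (hp : p.Prime) =>
    psplit_main hadd hV hN quad hp (fun U χ h => good p U χ hp h) hρ
  rw [← orderOf_eq_one_iff]
  by_contra h4
  obtain ⟨p, hp, hpd⟩ := Nat.exists_prime_and_dvd h4
  obtain ⟨m, hm, hm1⟩ := h1 p hp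
  exact hm (hpd.trans (orderOf_dvd_of_pow_eq_one hm1))

/-- induced representations are trivial on normal subgroups -/
lemma indM_normal (U : Subgroup GalQ) {n : ℕ}
    (ρ : U →* Matrix (Fin n) (Fin n) ℂ) [Fintype (GalQ ⧸ U)] [DecidableEq (GalQ ⧸ U)]
    {N : Subgroup GalQ} [hNn : N.Normal] (hNU : ∀ g ∈ N, ∃ h : g ∈ U, ρ ⟨g, h⟩ = 1) {g : GalQ}
    (hg : g ∈ N) :
    indM U ρ g = 1 := by
  ext ⟨x, i⟩ ⟨y, j⟩
  have h1 : x.out⁻¹ * g * x.out ∈ N := by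
    have := hNn.conj_mem g hg x.out⁻¹
    rwa [inv_inv] at this
  obtain ⟨h2, h3⟩ := hNU _ h1
  show extM U ρ (x.out⁻¹ * g * y.out) i j = _
  rw [Matrix.one_apply]
  by_cases h : x = y
  · subst h
    rw [extM_mem U ρ h2, h3, Matrix.one_apply]
    simp [Prod.ext_iff]
  · rw [extM_not_mem]
    · simp [Prod.ext_iff, h]
    · intro h4
      apply h
      have h5 : x.out⁻¹ * y.out ∈ U := by
        have h6 := U.mul_mem (U.inv_mem h2) h4
        have h7 : (x.out⁻¹ * g * x.out)⁻¹ * (x.out⁻¹ * g * y.out) = x.out⁻¹ * y.out := by group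
        rwa [h7] at h6
      have h8 := QuotientGroup.eq.2 h5
      rwa [QuotientGroup.out_eq', QuotientGroup.out_eq'] at h8

/-- the induced character as the character of a representation with the same kernel -/
lemma exists_ind {U N : Subgroup GalQ} [N.Normal] (hN : IsOpen (N : Set GalQ)) {n : ℕ}
    {ρ : U →* Matrix (Fin n) (Fin n) ℂ} (hNU : ∀ g ∈ N, ∃ h : g ∈ U, ρ ⟨g, h⟩ = 1) :
    ∃ (k : ℕ) (R : GalQ →* Matrix (Fin k) (Fin k) ℂ), N ≤ R.ker ∧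
      indC U (fun u => (ρ u).trace) = fun g => (R g).trace := by
  classical
  have hU : IsOpen (U : Set GalQ) := isOpen_of_le hN fun g hg => (hNU g hg).1
  have hfin : Finite (GalQ ⧸ U) := Subgroup.quotient_finite_of_isOpen U hU
  have := Fintype.ofFinite (GalQ ⧸ U)
  let e := Fintype.equivFin ((GalQ ⧸ U) × Fin n)
  let R := (Matrix.reindexAlgEquiv ℂ ℂ e).toMulEquiv.toMonoidHom.comp (indM U ρ)
  refine ⟨_, R, ?_, ?_⟩
  · intro g hg
    show R g = 1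
    show (Matrix.reindexAlgEquiv ℂ ℂ e) (indM U ρ g) = 1
    rw [indM_normal U ρ hNU hg, map_one]
  · funext g
    rw [← trace_indM]
    show (indM U ρ g).trace = ((Matrix.reindexAlgEquiv ℂ ℂ e) (indM U ρ g)).trace
    simp only [Matrix.trace, Matrix.diag_apply]
    exact Fintype.sum_equiv e _ _ (fun x => by simp)

end Pool.Agent.Y691.ST
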