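import Pool.Agent.Y691.ST.PermThm
import Pool.Agent.Y691.ST.SplitThm

/-!
# Invariants of number fields which vanish on a thin family
-/

set_option autoImplicit false

namespace Pool.Agent.Y691.ST

open Pool.Agent.Y144.DL

section finite

variable {Q : Type} [Group Q] [Finite Q] {A : Type} [AddCommGroup A] {B : Subgroup Q → A}

/-- **The theorem for finite groups.** -/
theorem fin_thin (hB : ∀ l l' : List (Subgroup Q), (l.map fix).sum = (l'.map fix).sum →
      (l.map B).sum = (l'.map B).sum) {p : ℕ} (hp : p.Prime)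
    (good : ∀ K : Subgroup Q, CycHyp p K → B K = 0) (H : Subgroup Q) :
    ∃ l : ℕ, ¬ p ∣ l ∧ l • B H = 0 := by
  classical
  have huniq : ∀ {f : Q → ℤ} {a a' : A}, Val B f a → Val B f a' → a = a' := by
    rintro f a a' ⟨l, rfl, rfl⟩ ⟨l', h1, rfl⟩
    exact hB l l' h1
  have hcl : ∀ f ∈ AddSubgroup.closure (FG (CycHyp (G := Q) p)), ∃ (f₁ f₂ : Q → ℤ),
      f = f₁ - f₂ ∧ Val B (f₁ * fix H) 0 ∧ Val B (f₂ * fix H) 0 := by
    intro f hf
    induction hf using AddSubgroup.closure_induction with
    | mem f hf =>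
      obtain ⟨X, _, _, hX, hXf⟩ := hf
      refine ⟨f, 0, (sub_zero f).symm, ?_, ?_⟩
      · have h3 : f * fix H = fun g : Q => (Nat.card {z : X × (Q ⧸ H) // g • z = z} : ℤ) := by
          funext g
          rw [Pi.mul_apply, hXf]
          unfold fix
          rw [← Nat.cast_mul, ← Nat.card_prod]
          congr 1
          refine Nat.card_congr ?_
          exact
            { toFun := fun z => ⟨(z.1.1, z.2.1), Prod.ext z.1.2 z.2.2⟩
              invFun := fun z => (⟨z.1.1, congrArg Prod.fst z.2⟩, ⟨z.1.2, congrArg Prod.snd z.2⟩)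
              left_inv := fun z => rfl
              right_inv := fun z => rfl }
        rw [h3]
        refine val_zero _ fun z => ?_
        refine good _ (cycHyp_mono (hX z.1) ?_)
        intro g hg
        exact congrArg Prod.fst (show g • z = z from hg)
      · rw [zero_mul]
        exact Val.zero
    | zero =>
      refine ⟨0, 0, (sub_zero 0).symm, ?_, ?_⟩ <;>
      · rw [zero_mul]
        exact Val.zero
    | add f f' _ _ hf hf' =>
      obtain ⟨f₁, f₂, rfl, h4, h5⟩ := hf
      obtain ⟨f₁', f₂', rfl, h4', h5'⟩ := hf'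
      refine ⟨f₁ + f₁', f₂ + f₂', by abel, ?_, ?_⟩
      · rw [add_mul, ← add_zero (0 : A)]
        exact h4.add h4'
      · rw [add_mul, ← add_zero (0 : A)]
        exact h5.add h5'
    | neg f _ hf =>
      obtain ⟨f₁, f₂, rfl, h4, h5⟩ := hf
      exact ⟨f₂, f₁, by abel, h5, h4⟩
  obtain ⟨l, hl, hlR⟩ := banaschewski_p (AddSubgroup.closure (FG (CycHyp (G := Q) p)))
    (closure_FG_mul fun H K hH hK => cycHyp_mono hH inf_le_left) p hp (fun x => by
      obtain ⟨f, hf, h⟩ := exists_FG_cyc x p hp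
      exact ⟨f, AddSubgroup.subset_closure hf, h⟩)
  obtain ⟨f₁, f₂, hf, h4, h5⟩ := hcl _ hlR
  refine ⟨l.natAbs, fun h => hl (Int.natCast_dvd.mpr h), ?_⟩
  rcases Int.natAbs_eq l with h6 | h6
  · have h7 : f₁ * fix H = f₂ * fix H + l.natAbs • fix H := by
      funext g
      have h8 := congrFun hf g
      simp only [Pi.sub_apply] at h8
      show f₁ g * fix H g = f₂ g * fix H g + l.natAbs • fix H g
      rw [nsmul_eq_mul]
      have h9 : f₁ g = f₂ g + (l.natAbs : ℤ) := by omega
      rw [h9]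
      simp only [Int.natCast_natAbs, Int.cast_id]
      ring
    have h8 := huniq h4 (h7 ▸ h5.add ((Val.one H).nsmul _))
    rw [zero_add] at h8
    exact h8.symm
  · have h7 : f₂ * fix H = f₁ * fix H + l.natAbs • fix H := by
      funext g
      have h8 := congrFun hf g
      simp only [Pi.sub_apply] at h8
      show f₂ g * fix H g = f₁ g * fix H g + l.natAbs • fix H g
      rw [nsmul_eq_mul]
      have h9 : f₂ g = f₁ g + (l.natAbs : ℤ) := by omega
      rw [h9]
      simp only [Int.natCast_natAbs, Int.cast_id]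
      ring
    have h8 := huniq h5 (h7 ▸ h4.add ((Val.one H).nsmul _))
    rw [zero_add] at h8
    exact h8.symm

end finite

/-- **The theorem for number fields, for one prime.** -/
theorem thin_prime {A : Type} [AddCommGroup A] {B : Subgroup GalQ → A} (hB : Brauer B)
    {V : Finset (AbsoluteValue Qbar ℝ)} (hV : ArePlaces V) {N : Subgroup GalQ} (hNn : N.Normal)
    (hN : IsOpen (N : Set GalQ)) {p : ℕ} (hp : p.Prime)
    (good : ∀ U : Subgroup GalQ, IsOpen (U : Set GalQ) → HyperMod p N U → SmallOrLocal p V N U →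
      B U = 0) {U : Subgroup GalQ} (hU : IsOpen (U : Set GalQ)) :
    ∃ l : ℕ, ¬ p ∣ l ∧ l • B U = 0 := by
  classical
  obtain ⟨N', hN'⟩ := ProfiniteGrp.exist_openNormalSubgroup_sub_open_nhds_of_one hU U.one_mem
  have hNn' : N'.toSubgroup.Normal := N'.isNormal'
  obtain ⟨N₃, hN₃n, hN₃, hle₃, hlev⟩ := level_finset V Dec (fun v _ => isClosed_dec v)
    (fun v hv y σ h1 h2 h3 => by
      obtain ⟨a, ha⟩ := hV v hv
      exact dec_malnormal ha h1 h2 h3) hN
  let N₂ : Subgroup GalQ := N₃ ⊓ N'.toSubgroup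
  have hN₂n : N₂.Normal := inferInstance
  have hN₂ : IsOpen (N₂ : Set GalQ) := hN₃.inter N'.isOpen
  have hle₂ : N₂ ≤ N := inf_le_left.trans hle₃
  have hNU : N₂ ≤ U := fun g hg => hN' hg.2
  have hfin : Finite (GalQ ⧸ N₂) := Subgroup.quotient_finite_of_isOpen N₂ hN₂
  set π := QuotientGroup.mk' N₂ with hπ
  have hsurj : Function.Surjective π := QuotientGroup.mk'_surjective N₂
  have hker : π.ker = N₂ := QuotientGroup.ker_mk' N₂
  have hcomapOpen : ∀ K : Subgroup (GalQ ⧸ N₂), IsOpen ((K.comap π : Subgroup GalQ) : Set GalQ) := by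
    intro K
    refine isOpen_of_le hN₂ fun g hg => ?_
    rw [Subgroup.mem_comap]
    have h3 : π g = 1 := by
      rw [← MonoidHom.mem_ker, hker]
      exact hg
    rw [h3]
    exact K.one_mem
  have hfixlist : ∀ (l : List (Subgroup (GalQ ⧸ N₂))) (g : GalQ),
      (((l.map fun K => K.comap π).map fix).sum : GalQ → ℤ) g = ((l.map fix).sum) (π g) := by
    intro l g
    induction l with
    | nil => rfl
    | cons K l ih =>
      simp only [List.map_cons, List.sum_cons, Pi.add_apply]
      rw [fix_comap, ih]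
  have hB' : ∀ l l' : List (Subgroup (GalQ ⧸ N₂)), (l.map fix).sum = (l'.map fix).sum →
      (l.map fun K => B (K.comap π)).sum = (l'.map fun K => B (K.comap π)).sum := by
    intro l l' h
    have h3 := hB (l.map fun K => K.comap π) (l'.map fun K => K.comap π) ?_ ?_ ?_
    · simpa only [List.map_map, Function.comp_def] using h3
    · intro V hV
      obtain ⟨K, _, rfl⟩ := List.mem_map.mp hV
      exact hcomapOpen K
    · intro V hV
      obtain ⟨K, _, rfl⟩ := List.mem_map.mp hV
      exact hcomapOpen K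
    · funext g
      rw [hfixlist, hfixlist, h]
  have hgood' : ∀ K : Subgroup (GalQ ⧸ N₂), CycHyp p K → B (K.comap π) = 0 := by
    intro K hK
    refine good _ (hcomapOpen K) (hyperMod_of hle₂ hK) (dichotomy_p ?_ hK)
    intro v hv y σ τ n h1 h2 h3 h4 h5
    exact hlev v hv y σ τ n h1 h2 h3 h4.1 h5
  obtain ⟨l, hl, hl1⟩ := fin_thin (B := fun K => B (K.comap π)) hB' hp hgood' (U.map π)
  refine ⟨l, hl, ?_⟩
  have hHU : (U.map π).comap π = U := Subgroup.comap_map_eq_self (by
    rw [hker]
    exact hNU)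
  rw [hHU] at hl1
  exact hl1

/-- **The theorem for number fields.** -/
theorem thin_all {A : Type} [AddCommGroup A] {B : Subgroup GalQ → A} (hB : Brauer B)
    {V : Finset (AbsoluteValue Qbar ℝ)} (hV : ArePlaces V) {N : Subgroup GalQ} (hNn : N.Normal)
    (hN : IsOpen (N : Set GalQ))
    (good : ∀ (p : ℕ) (U : Subgroup GalQ), p.Prime → IsOpen (U : Set GalQ) → HyperMod p N U →
      SmallOrLocal p V N U → B U = 0) {U : Subgroup GalQ} (hU : IsOpen (U : Set GalQ)) :
    B U = 0 := by
  have h1 := fun (p : ℕ) (hp : p.Prime) =>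
    thin_prime hB hV hNn hN hp (fun U => good p U hp) hU
  rw [← AddMonoid.addOrderOf_eq_one_iff]
  by_contra h4
  obtain ⟨p, hp, hpd⟩ := Nat.exists_prime_and_dvd h4
  obtain ⟨m, hm, hm1⟩ := h1 p hp
  exact hm (hpd.trans (addOrderOf_dvd_of_nsmul_eq_zero hm1))

end Pool.Agent.Y691.ST
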