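import Pool.Agent.Y691.ST.IndDefs

/-!
# The equivariant conjecture of Beilinson: definitions
-/

set_option autoImplicit false

namespace Pool.Agent.Y691.ST

variable {G : Type} [Group G] [TopologicalSpace G]

/-- Known properties of the quotients `D U θ = A(θ)^σ / A(θ^σ)` of the equivariant conjecture of Beilinson
for `K_{2k-1}`, `k > 1`, for a fixed automorphism `σ` of `ℂ`, for the Artin characters `θ` of the open
subgroups `U` of the absolute Galois group of `ℚ`, that is for the number fields `K = Qbar^U` and the
characters of the finite Galois extensions `L` of `K`. Here `A(θ)` is the determinant on the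
`θ`-component of the regulator of Borel composed with a `ℚ[Gal(L/K)]`-isomorphism of `B_L^+` and the
`K`-group, divided by the leading coefficient of the Artin `L`-function at `1 - k`. The quotient does not
depend on the isomorphism, or on `L`; `d θ` is the quotient over `ℚ`. It is multiplicative (`add`), it is
the same for `θ` and for the induced character of the Galois group of `ℚ` (`ind`), and it is `1` for the
trivial characters of all number fields (`one`, Borel). -/
structure IsBorelDefect (d : (G → ℂ) → ℂˣ) (D : (U : Subgroup G) → (U → ℂ) → ℂˣ) : Prop where
  add : ∀ θ θ' : G → ℂ, IsArtin θ → IsArtin θ' → d (θ + θ') = d θ * d θ'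
  ind : ∀ (U : Subgroup G) (θ : U → ℂ), IsOpen (U : Set G) → IsArtin θ → D U θ = d (indC U θ)
  one : ∀ U : Subgroup G, IsOpen (U : Set G) → D U 1 = 1

end Pool.Agent.Y691.ST
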