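import Pool.Agent.Y691.ST.Pull

/-!
# Characters of finite groups with an isolated class of involutions
-/

set_option autoImplicit false

namespace Pool.Agent.Y691.ST

open Pool.Agent.Y144.DL

variable {Q : Type} [Group Q] [Finite Q]

/-- The elements of `S` (the complex conjugations) are involutions, stable under conjugation, whose
centralizers are small modulo the normal subgroups `M₁` and `M`. -/
structure Sig (M M₁ : Subgroup Q) (S : Set Q) : Prop where
  conj : ∀ s ∈ S, ∀ g, g * s * g⁻¹ ∈ S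
  sq : ∀ s ∈ S, s * s = 1
  notMem : ∀ s ∈ S, s ∉ M₁
  comm : ∀ s ∈ S, ∀ g, g * s = s * g → g ∈ M₁ ∨ s * g ∈ M₁
  small : ∀ s ∈ S, ∀ g, s * (g * s * g⁻¹) ∈ M₁ → g ∈ M ∨ s * g ∈ M
  le : M₁ ≤ M

/-- the passage from the hyperelementary subgroups to the group -/
theorem glueY {p : ℕ} {θ : Q → ℂ} (hθ : ∀ g x, θ (x⁻¹ * g * x) = θ g)
    (Y : AddSubgroup (Q → ℂ))
    (hT : ∀ T : Subgroup Q, Hyp (⊥ : Subgroup Q) p T → avg T ⊤ (ext T (1 : T →* ℂˣ) * θ) ∈ Y) :
    ∀ f ∈ AddSubgroup.closure (FG (Hyp (⊥ : Subgroup Q) p)), (fun g => (f g : ℂ) * θ g) ∈ Y := by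
  classical
  have := Fintype.ofFinite Q
  intro f hf
  induction hf using AddSubgroup.closure_induction with
  | mem f hf =>
    obtain ⟨X, _, _, hX, hXf⟩ := hf
    let F : X → Q → ℂ := fun x g => if g • x = x then θ g else 0
    have hsum : (fun g => (f g : ℂ) * θ g) = ∑ x : X, F x := by
      funext g
      rw [Finset.sum_apply]
      show (f g : ℂ) * θ g = ∑ x : X, if g • x = x then θ g else 0
      rw [← Finset.sum_filter, Finset.sum_const, hXf, nsmul_eq_mul]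
      congr 1
      rw [Nat.card_eq_fintype_card, Fintype.card_subtype]
      push_cast
      rfl
    rw [hsum]
    refine sum_orbits ⊤ F ?_ Y _ Finset.univ le_rfl (fun _ _ _ _ => Finset.mem_univ _) ?_
    · intro h _ x g
      have h3 : (g • h • x = h • x) ↔ (h⁻¹ * g * h) • x = x := by
        rw [mul_smul, mul_smul, inv_smul_eq_iff]
      show (if g • h • x = h • x then θ g else 0) = if (h⁻¹ * g * h) • x = x then θ (h⁻¹ * g * h) else 0
      simp only [h3, hθ]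
    · intro x _
      let T := MulAction.stabilizer Q x
      have hT' : (⊤ : Subgroup Q) ⊓ MulAction.stabilizer Q x = T := top_inf_eq _
      rw [hT']
      have hF : F x = ext T (1 : T →* ℂˣ) * θ := by
        funext g
        rw [Pi.mul_apply]
        show (if g • x = x then θ g else 0) = _
        by_cases hg : g • x = x
        · rw [if_pos hg, ext_mem T _ (show g ∈ T from hg), MonoidHom.one_apply, Units.val_one, one_mul]
        · rw [if_neg hg, ext_not_mem T _ (show g ∉ T from hg), zero_mul]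
      rw [hF]
      exact hT T (hX x)
  | zero =>
    have h3 : (fun g => (((0 : Q → ℤ) g : ℤ) : ℂ) * θ g) = 0 := by
      funext g
      simp
    rw [h3]
    exact zero_mem _
  | add a b _ _ ha hb =>
    have h3 : (fun g => (((a + b : Q → ℤ) g : ℤ) : ℂ) * θ g) =
        (fun g => (a g : ℂ) * θ g) + fun g => (b g : ℂ) * θ g := by
      funext g
      simp only [Pi.add_apply, Int.cast_add]
      ring
    rw [h3]
    exact add_mem ha hb
  | neg a _ ha =>
    have h3 : (fun g => (((-a : Q → ℤ) g : ℤ) : ℂ) * θ g) = -fun g => (a g : ℂ) * θ g := by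
      funext g
      simp only [Pi.neg_apply, Int.cast_neg]
      ring
    rw [h3]
    exact neg_mem ha

/-- the functions induced from the subgroup `T` to the group -/
lemma avg_mem_of_lin {M T : Subgroup Q} (Y : AddSubgroup (Q → ℂ))
    (h : ∀ (K : Subgroup Q) (χ : K →* ℂˣ), K ≤ T → (∀ k : K, (k : Q) ∈ M → χ k = 1) →
      ind K χ ∈ Y) : ∀ f ∈ AddSubgroup.closure (LinSet M T), avg T ⊤ f ∈ Y := by
  classical
  have := Fintype.ofFinite Q
  intro f hf
  induction hf using AddSubgroup.closure_induction with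
  | mem f hf =>
    obtain ⟨K, χ, hK, hχ, rfl⟩ := hf
    rw [avg_avg le_top]
    exact h K χ hK hχ
  | zero =>
    rw [avg_zero]
    exact zero_mem _
  | add a b _ _ ha hb =>
    rw [avg_add]
    exact add_mem ha hb
  | neg a _ ha =>
    rw [avg_neg]
    exact neg_mem ha

variable {M M₁ : Subgroup Q} [M.Normal] [M₁.Normal] {S : Set Q}

/-- In a `p`-hyperelementary subgroup with a complex conjugation, `p` odd, all elements are trivial or
a complex conjugation modulo `M`. -/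
lemma odd_case (hS : Sig M M₁ S) {p : ℕ} (hp : p.Prime) (h2 : p ≠ 2) {T : Subgroup Q}
    (hT : Hyp (⊥ : Subgroup Q) p T) {s : Q} (hs : s ∈ S) (hsT : s ∈ T) {t : Q} (ht : t ∈ T) :
    t ∈ M ∨ s * t ∈ M := by
  obtain ⟨B, _, hB, hab, hn, hpow⟩ := hT
  have hodd : ∀ j : ℕ, s ^ p ^ j = s := by
    intro j
    obtain ⟨k, hk⟩ := (hp.odd_of_ne_two h2).pow (n := j)
    rw [hk, pow_succ, pow_mul, pow_two, hS.sq s hs, one_pow, one_mul]
  have hsB : s ∈ B := by
    obtain ⟨j, hj⟩ := hpow s hsT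
    rwa [hodd j] at hj
  have h3 := hn t ht s hsB
  have h4 : t * s * t⁻¹ ∈ S := hS.conj s hs t
  rcases hS.comm s hs (t * s * t⁻¹) (hab _ h3 _ hsB) with h5 | h5
  · exact absurd h5 (hS.notMem _ h4)
  · exact hS.small s hs t h5

/-- In a `2`-hyperelementary group, a linear character of a subgroup with a complex conjugation which is
trivial on `M` is trivial on the elements of odd order. -/
lemma even_case (hS : Sig M M₁ S) {T : Subgroup Q} (hT : Hyp (⊥ : Subgroup Q) 2 T)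
    {K : Subgroup Q} (hK : K ≤ T) {χ : K →* ℂˣ} (hχ : ∀ k : K, (k : Q) ∈ M → χ k = 1) {s : Q}
    (hs : s ∈ S) (hsK : s ∈ K) {y : Q} (hy : y ∈ K) {n : ℕ} (hn : Odd n) (hyn : y ^ n = 1) :
    χ ⟨y, hy⟩ = 1 := by
  obtain ⟨B, _, hB, hab, hnB, hpow⟩ := hT
  have hss : s⁻¹ = s := inv_eq_of_mul_eq_one_left (hS.sq s hs)
  -- `y` is in `B`
  have hyB : y ∈ B := by
    obtain ⟨j, hj⟩ := hpow y (hK hy)
    have hcop : Nat.Coprime (2 ^ j) n := (Nat.coprime_two_left.mpr hn).pow_left j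
    have h1 : y ∈ Subgroup.zpowers (y ^ 2 ^ j) := by
      have h2 : (orderOf y).Coprime (2 ^ j) :=
        (Nat.Coprime.coprime_dvd_right (orderOf_dvd_of_pow_eq_one hyn) hcop).symm
      exact mem_zpowers_pow_iff.mpr h2.symm
    exact (Subgroup.zpowers_le.mpr hj) h1
  have hz1 : s * y * s⁻¹ ∈ B := hnB s (hK hsK) y hyB
  have hcomm : y * (s * y * s⁻¹) = (s * y * s⁻¹) * y := hab _ hyB _ hz1
  have hz : (y * (s * y * s⁻¹)) * s = s * (y * (s * y * s⁻¹)) := by
    have h3 : (y * (s * y * s⁻¹)) * s = y * s * y := by group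
    have h4 : s * ((s * y * s⁻¹) * y) = (s * s) * y * s⁻¹ * y := by group
    rw [h3, hcomm, h4, hS.sq s hs, hss, one_mul]
  have hzn : (y * (s * y * s⁻¹)) ^ n = 1 := by
    have h4 : Commute y (s * y * s⁻¹) := hcomm
    rw [h4.mul_pow, hyn, one_mul, conj_pow, hyn, mul_one, mul_inv_cancel]
  have hzM : y * (s * y * s⁻¹) ∈ M := by
    rcases hS.comm s hs _ hz with h5 | h5
    · exact hS.le h5
    · exfalso
      obtain ⟨k, hk⟩ := hn
      have h6 : (s * (y * (s * y * s⁻¹))) ^ n = s := by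
        have h7 : Commute s (y * (s * y * s⁻¹)) := hz.symm
        rw [h7.mul_pow, hzn, mul_one, hk, pow_succ, pow_mul, pow_two, hS.sq s hs, one_pow, one_mul]
      exact hS.notMem s hs (h6 ▸ M₁.pow_mem h5 n)
  have hzK : y * (s * y * s⁻¹) ∈ K :=
    K.mul_mem hy (K.mul_mem (K.mul_mem hsK hy) (K.inv_mem hsK))
  have h8 := hχ ⟨_, hzK⟩ hzM
  have h9 : (⟨y * (s * y * s⁻¹), hzK⟩ : K) = ⟨y, hy⟩ * (⟨s, hsK⟩ * ⟨y, hy⟩ * ⟨s, hsK⟩⁻¹) := rfl
  rw [h9, map_mul, map_mul, map_mul, map_inv, mul_comm (χ ⟨s, hsK⟩) (χ ⟨y, hy⟩),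
    mul_inv_cancel_right] at h8
  have h10 : χ ⟨y, hy⟩ ^ n = 1 := by
    rw [← map_pow]
    have h11 : (⟨y, hy⟩ : K) ^ n = 1 := Subtype.ext hyn
    rw [h11, map_one]
  obtain ⟨k, hk⟩ := hn
  rw [hk, pow_succ, pow_mul, pow_two, h8, one_pow, one_mul] at h10
  exact h10

/-- the order of a linear character which is trivial on the elements of odd order -/
lemma pow_two_of_odd {K : Subgroup Q} {χ : K →* ℂˣ}
    (h : ∀ (y : Q) (hy : y ∈ K) (n : ℕ), Odd n → y ^ n = 1 → χ ⟨y, hy⟩ = 1) :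
    ∃ k : ℕ, χ ^ 2 ^ k = 1 := by
  obtain ⟨v, m, hm, hord⟩ := Nat.exists_eq_two_pow_mul_odd (n := Nat.card Q) Nat.card_pos.ne'
  refine ⟨v, ?_⟩
  ext x
  have h1 : χ (x ^ 2 ^ v) = 1 := by
    refine h _ (K.pow_mem x.2 _) m hm ?_
    rw [← pow_mul, ← hord]
    exact pow_card_eq_one'
  rw [MonoidHom.pow_apply, ← map_pow, h1]
  rfl

variable {A : Type} [CommGroup A] (Y : (Q → ℂ) → A)

/-- the subgroup generated by the induced linear characters on which `Y` is trivial -/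
def span1 : AddSubgroup (Q → ℂ) :=
  AddSubgroup.closure {f | ∃ q ∈ {q : (Q → ℂ) × (Q → ℂ) | ∃ (K : Subgroup Q) (χ : K →* ℂˣ),
    q = (ind K χ, 0) ∧ Y (ind K χ) = 1}, f = q.1 - q.2}

lemma mem_span1 {K : Subgroup Q} {χ : K →* ℂˣ} (h : Y (ind K χ) = 1) : ind K χ ∈ span1 Y :=
  AddSubgroup.subset_closure ⟨(ind K χ, 0), ⟨K, χ, rfl, h⟩, (sub_zero _).symm⟩

lemma pow_of_mem (hY : ∀ θ θ', IsChar θ → IsChar θ' → Y (θ + θ') = Y θ * Y θ') {θ : Q → ℂ}
    (hθ : IsChar θ) {l : ℤ} (hl : (fun g => ((fun _ => l : Q → ℤ) g : ℂ) * θ g) ∈ span1 Y) :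
    Y θ ^ l.natAbs = 1 := by
  have h1 : l.natAbs • θ - l.natAbs • (0 : Q → ℂ) ∈ span1 Y := by
    rw [smul_zero, sub_zero]
    have h2 : (fun g => ((fun _ => l : Q → ℤ) g : ℂ) * θ g) = l • θ := by
      funext g
      simp
    rw [h2] at hl
    rw [← natCast_zsmul]
    rcases Int.natAbs_eq l with h3 | h3
    · rw [← h3]
      exact hl
    · have h4 : (l.natAbs : ℤ) = -l := by omega
      rw [h4, neg_smul]
      exact neg_mem hl
  have h5 := formal Y hY _ (by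
    rintro q ⟨K, χ, rfl, h⟩
    exact ⟨isChar_ind K χ, isChar_zero, by rw [h, hY_zero Y hY]⟩) hθ isChar_zero l.natAbs h1
  rw [h5, hY_zero Y hY, one_pow]

lemma isChar_comp {θ : Q ⧸ M → ℂ} (hθ : IsChar θ) : IsChar (θ ∘ QuotientGroup.mk' M) := by
  obtain ⟨n, ρ, rfl⟩ := hθ
  exact ⟨n, ρ.comp (QuotientGroup.mk' M), rfl⟩

/-- **Odd primes.** -/
theorem fin_odd (hS : Sig M M₁ S) (hY : ∀ θ θ', IsChar θ → IsChar θ' → Y (θ + θ') = Y θ * Y θ')
    (hQ : ∀ (K : Subgroup Q) (χ : K →* ℂˣ), χ ^ 2 = 1 → Y (ind K χ) = 1)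
    (hG : ∀ (K : Subgroup Q) (χ : K →* ℂˣ), (∀ s ∈ S, s ∉ K) → Y (ind K χ) = 1)
    {θ : Q ⧸ M → ℂ} (hθ : IsChar θ) {p : ℕ} (hp : p.Prime) (h2 : p ≠ 2) :
    ∃ l : ℕ, ¬ p ∣ l ∧ Y (θ ∘ QuotientGroup.mk' M) ^ l = 1 := by
  obtain ⟨l, hl, hlR⟩ := banaschewski_p (AddSubgroup.closure (FG (Hyp (⊥ : Subgroup Q) p)))
    (closure_FG_mul fun H K hH hK => hyp_inf hH bot_le) p hp (fun x => by
      obtain ⟨f, hf, h⟩ := exists_FG_hyp x p hp
      exact ⟨f, AddSubgroup.subset_closure hf, h⟩)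
  refine ⟨l.natAbs, fun h => hl (Int.natCast_dvd.mpr h), ?_⟩
  have hθ' := isChar_comp (M := M) hθ
  refine pow_of_mem Y hY hθ' (glueY (p := p) (fun g x => isChar_conj hθ' g x) (span1 Y) ?_ _ hlR)
  intro T hT
  refine avg_mem_of_lin (M := M) (span1 Y) ?_ _ (restrict_mem M hp hT hθ)
  intro K χ hK hχ
  refine mem_span1 Y ?_
  by_cases hbad : ∃ s ∈ S, s ∈ K
  · obtain ⟨s, hs, hsK⟩ := hbad
    refine hQ K χ ?_
    ext x
    rw [MonoidHom.pow_apply, ← map_pow, MonoidHom.one_apply]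
    have h3 : ((x ^ 2 : K) : Q) ∈ M := by
      have h4 : ((x ^ 2 : K) : Q) = x * x := by
        rw [Subgroup.coe_pow, pow_two]
      rw [h4]
      rcases odd_case hS hp h2 hT hs (hK hsK) (hK x.2) with h5 | h5
      · exact M.mul_mem h5 h5
      · have h6 : s * (s * x) * s⁻¹ ∈ M := ‹M.Normal›.conj_mem _ h5 s
        have h7 : (x : Q) * x = (s * (s * x) * s⁻¹) * (s * x) := by
          have h8 := hS.sq s hs
          calc (x : Q) * x = (s * s) * x * (s⁻¹ * s) * x := by rw [h8, inv_mul_cancel]; group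
            _ = _ := by group
        rw [h7]
        exact M.mul_mem h6 h5
    rw [hχ _ h3]
  · push Not at hbad
    exact hG K χ hbad

/-- **The prime two.** -/
theorem fin_two (hS : Sig M M₁ S) (hY : ∀ θ θ', IsChar θ → IsChar θ' → Y (θ + θ') = Y θ * Y θ')
    (hQ : ∀ (K : Subgroup Q) (χ : K →* ℂˣ), (∃ k : ℕ, χ ^ 2 ^ k = 1) → Y (ind K χ) = 1)
    (hG : ∀ (K : Subgroup Q) (χ : K →* ℂˣ), (∀ s ∈ S, s ∉ K) → Y (ind K χ) = 1)
    {θ : Q ⧸ M → ℂ} (hθ : IsChar θ) :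
    ∃ l : ℕ, ¬ 2 ∣ l ∧ Y (θ ∘ QuotientGroup.mk' M) ^ l = 1 := by
  obtain ⟨l, hl, hlR⟩ := banaschewski_p (AddSubgroup.closure (FG (Hyp (⊥ : Subgroup Q) 2)))
    (closure_FG_mul fun H K hH hK => hyp_inf hH bot_le) 2 Nat.prime_two (fun x => by
      obtain ⟨f, hf, h⟩ := exists_FG_hyp x 2 Nat.prime_two
      exact ⟨f, AddSubgroup.subset_closure hf, h⟩)
  refine ⟨l.natAbs, fun h => hl (Int.natCast_dvd.mpr h), ?_⟩
  have hθ' := isChar_comp (M := M) hθ
  refine pow_of_mem Y hY hθ' (glueY (p := 2) (fun g x => isChar_conj hθ' g x) (span1 Y) ?_ _ hlR)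
  intro T hT
  refine avg_mem_of_lin (M := M) (span1 Y) ?_ _ (restrict_mem M Nat.prime_two hT hθ)
  intro K χ hK hχ
  refine mem_span1 Y ?_
  by_cases hbad : ∃ s ∈ S, s ∈ K
  · obtain ⟨s, hs, hsK⟩ := hbad
    exact hQ K χ (pow_two_of_odd fun y hy n hn hyn => even_case hS hT hK hχ hs hsK hy hn hyn)
  · push Not at hbad
    exact hG K χ hbad

end Pool.Agent.Y691.ST
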