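import Pool.Agent.Y691.ST.Defs
import Pool.Agent.Y691.ST.Fin

/-!
# Characters of profinite groups with a self-centralizing involution
-/

set_option autoImplicit false

namespace Pool.Agent.Y691.ST

open Pool.Agent.Y144.DL

section ind

variable {G : Type} [Group G] (N : Subgroup G) [N.Normal] [Finite (G ⧸ N)]
  (K : Subgroup (G ⧸ N)) (χ : K →* ℂˣ)

/-- the inflation of a linear character of a subgroup of a quotient -/
def infl : (K.comap (QuotientGroup.mk' N)) →* ℂˣ :=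
  χ.comp (((QuotientGroup.mk' N).comp (K.comap (QuotientGroup.mk' N)).subtype).codRestrict K
    fun x => x.2)

lemma ext_infl (g : G) : ext (K.comap (QuotientGroup.mk' N)) (infl N K χ) g =
    ext K χ (QuotientGroup.mk' N g) := by
  by_cases hg : QuotientGroup.mk' N g ∈ K
  · rw [ext_mem K χ hg, ext_mem (K.comap (QuotientGroup.mk' N)) _
      (show g ∈ K.comap (QuotientGroup.mk' N) from hg)]
    rfl
  · rw [ext_not_mem K χ hg, ext_not_mem _ _ (show g ∉ K.comap (QuotientGroup.mk' N) from hg)]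

/-- induction and inflation -/
theorem ind_infl : ind K χ ∘ QuotientGroup.mk' N =
    indF (K.comap (QuotientGroup.mk' N)) (infl N K χ) := by
  classical
  have := Fintype.ofFinite (G ⧸ N)
  have : Fintype ((G ⧸ N) ⧸ K) := Fintype.ofFinite _
  set π := QuotientGroup.mk' N with hπ
  funext g
  rw [Function.comp_apply, ind_eq_sum_cosets]
  unfold indF
  let e : G ⧸ K.comap π → (G ⧸ N) ⧸ K := fun x => ((π x.out : G ⧸ N) : (G ⧸ N) ⧸ K)
  have he : Function.Bijective e := by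
    constructor
    · intro x y hxy
      have h1 : (π x.out)⁻¹ * π y.out ∈ K := QuotientGroup.eq.1 hxy
      have h2 : x.out⁻¹ * y.out ∈ K.comap π := by
        rw [Subgroup.mem_comap, map_mul, map_inv]
        exact h1
      have h3 := QuotientGroup.eq.2 h2
      rwa [QuotientGroup.out_eq', QuotientGroup.out_eq'] at h3
    · intro z
      induction z using QuotientGroup.induction_on with
      | H y =>
        obtain ⟨g, rfl⟩ := QuotientGroup.mk'_surjective N y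
        refine ⟨(g : G ⧸ K.comap π), ?_⟩
        have h1 : ((g : G ⧸ K.comap π)).out⁻¹ * g ∈ K.comap π := by
          rw [← QuotientGroup.eq, QuotientGroup.out_eq']
        refine QuotientGroup.eq.2 ?_
        rw [Subgroup.mem_comap, map_mul, map_inv] at h1
        exact h1
  let E := Equiv.ofBijective e he
  have : Finite (G ⧸ K.comap π) := Finite.of_equiv _ E.symm
  have := Fintype.ofFinite (G ⧸ K.comap π)
  rw [finsum_eq_sum_of_fintype]
  refine (Fintype.sum_equiv E _ _ fun x => ?_).symm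
  rw [ext_infl, map_mul, map_mul, map_inv]
  have h1 : (E x).out⁻¹ * π x.out ∈ K := by
    rw [← QuotientGroup.eq, QuotientGroup.out_eq']
    rfl
  have h2 := ext_conj K χ ((E x).out⁻¹ * π g * (E x).out) h1
  have h3 : ((E x).out⁻¹ * π x.out)⁻¹ * ((E x).out⁻¹ * π g * (E x).out) *
      ((E x).out⁻¹ * π x.out) = (π x.out)⁻¹ * π g * π x.out := by group
  rw [h3] at h2
  exact h2

end ind

section

variable {G : Type} [Group G] [TopologicalSpace G] [IsTopologicalGroup G]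

lemma isOpen_of_le {N U : Subgroup G} (hN : IsOpen (N : Set G)) (h : N ≤ U) :
    IsOpen (U : Set G) := Subgroup.isOpen_mono h hN

lemma isArtin_comp {N : Subgroup G} [N.Normal] (hN : IsOpen (N : Set G)) {θ : G ⧸ N → ℂ}
    (hθ : IsChar θ) : IsArtin (θ ∘ QuotientGroup.mk' N) := by
  obtain ⟨n, ρ, rfl⟩ := hθ
  refine ⟨n, ρ.comp (QuotientGroup.mk' N), ?_, rfl⟩
  have h1 : {g : G | ρ.comp (QuotientGroup.mk' N) g = 1} =
      (((ρ.comp (QuotientGroup.mk' N)).ker : Subgroup G) : Set G) := by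
    ext g
    rfl
  rw [h1]
  refine isOpen_of_le hN fun g hg => ?_
  show ρ (QuotientGroup.mk' N g) = 1
  have h2 : QuotientGroup.mk' N g = 1 := by
    rw [← MonoidHom.mem_ker, QuotientGroup.ker_mk']
    exact hg
  rw [h2, map_one]

lemma isOpenLinear_infl {N : Subgroup G} [N.Normal] (hN : IsOpen (N : Set G))
    (K : Subgroup (G ⧸ N)) (χ : K →* ℂˣ) :
    IsOpenLinear (K.comap (QuotientGroup.mk' N)) (infl N K χ) := by
  have hNU : N ≤ K.comap (QuotientGroup.mk' N) := by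
    intro g hg
    have h2 : QuotientGroup.mk' N g = 1 := by
      rw [← MonoidHom.mem_ker, QuotientGroup.ker_mk']
      exact hg
    rw [Subgroup.mem_comap, h2]
    exact K.one_mem
  refine ⟨isOpen_of_le hN hNU, ?_⟩
  have h1 : {g : G | ∃ h : g ∈ K.comap (QuotientGroup.mk' N), infl N K χ ⟨g, h⟩ = 1} =
      ((((infl N K χ).ker.map (K.comap (QuotientGroup.mk' N)).subtype : Subgroup G)) : Set G) := by
    ext g
    constructor
    · rintro ⟨h, h2⟩
      exact ⟨⟨g, h⟩, h2, rfl⟩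
    · rintro ⟨x, hx, rfl⟩
      exact ⟨x.2, hx⟩
  rw [h1]
  refine isOpen_of_le hN fun g hg => ⟨⟨g, hNU hg⟩, ?_, rfl⟩
  have h2 : QuotientGroup.mk' N g = 1 := by
    rw [← MonoidHom.mem_ker, QuotientGroup.ker_mk']
    exact hg
  show χ _ = 1
  have h3 : ((QuotientGroup.mk' N).comp (K.comap (QuotientGroup.mk' N)).subtype).codRestrict K
      (fun x => x.2) ⟨g, hNU hg⟩ = 1 := Subtype.ext h2
  rw [h3, map_one]

variable [CompactSpace G] [TotallyDisconnectedSpace G] [T2Space G]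

/-- centralizers of an involution in finite quotients -/
lemma shrink {c : G} (hz : ∀ g, g * c = c * g → g = 1 ∨ g = c) (hcc : c * c = 1) (hc : c ≠ 1)
    {N : Subgroup G} (hN : IsOpen (N : Set G)) :
    ∃ N' : Subgroup G, N'.Normal ∧ IsOpen (N' : Set G) ∧ N' ≤ N ∧ (∀ g, g * c * g⁻¹ ∉ N') ∧
      ∀ g, c * (g * c * g⁻¹) ∈ N' → g ∈ N ∨ c * g ∈ N := by
  -- the conjugates of `c`
  have hC : IsCompact (Set.range fun g : G => g * c * g⁻¹) := isCompact_range (by fun_prop)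
  let Z : Set G := {g | g ∉ N ∧ c * g ∉ N}
  have hZ : IsCompact Z := by
    refine IsClosed.isCompact ?_
    have h1 : IsClosed {g : G | g ∉ N} := hN.isClosed_compl
    have h2 : IsClosed {g : G | c * g ∉ N} := h1.preimage (continuous_const_mul c)
    exact h1.inter h2
  have hW : IsCompact ((fun g : G => c * (g * c * g⁻¹)) '' Z) := hZ.image (by fun_prop)
  let U : Set G := (N : Set G) ∩ ((Set.range fun g : G => g * c * g⁻¹)ᶜ ∩
    ((fun g : G => c * (g * c * g⁻¹)) '' Z)ᶜ)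
  have hU : IsOpen U := hN.inter (hC.isClosed.isOpen_compl.inter hW.isClosed.isOpen_compl)
  have h1U : (1 : G) ∈ U := by
    refine ⟨N.one_mem, ?_, ?_⟩
    · rintro ⟨g, hg⟩
      apply hc
      have h3 : g⁻¹ * (g * c * g⁻¹) * g = c := by group
      rw [← h3]
      simp only at hg
      rw [hg]
      group
    · rintro ⟨g, ⟨hg1, hg2⟩, hg⟩
      simp only at hg
      have h3 : c * (c * (g * c * g⁻¹)) * g = (c * c) * (g * c) := by group
      have h4 : g * c = c * g := by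
        rw [hg, mul_one, hcc, one_mul] at h3
        exact h3.symm
      rcases hz g h4 with rfl | rfl
      · exact hg1 N.one_mem
      · exact hg2 (hcc ▸ N.one_mem)
  obtain ⟨H, hH⟩ := ProfiniteGrp.exist_openNormalSubgroup_sub_open_nhds_of_one hU h1U
  refine ⟨H.toSubgroup, H.isNormal', H.isOpen, fun g hg => (hH hg).1, ?_, ?_⟩
  · intro g hg
    exact (hH hg).2.1 ⟨g, rfl⟩
  · intro g hg
    by_contra h5
    push Not at h5
    exact (hH hg).2.2 ⟨g, h5, rfl⟩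

/-- the passage to a finite quotient -/
theorem prof_main {c : G} (hz : ∀ g, g * c = c * g → g = 1 ∨ g = c) (hcc : c * c = 1)
    (hc : c ≠ 1) {d : (G → ℂ) → ℂˣ} (hd : IsDef d)
    (good : ∀ (U : Subgroup G) (χ : U →* ℂˣ), IsOpenLinear U χ → (∀ g, g * c * g⁻¹ ∉ U) →
      d (indF U χ) = 1) {θ : G → ℂ} (hθ : IsArtin θ) :
    (∀ p : ℕ, p.Prime → p ≠ 2 → ∃ l : ℕ, ¬ p ∣ l ∧ d θ ^ l = 1) ∧
    ((∀ (U : Subgroup G) (χ : U →* ℂˣ), IsOpenLinear U χ → (∃ k : ℕ, χ ^ 2 ^ k = 1) →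
      d (indF U χ) = 1) → ∃ l : ℕ, ¬ 2 ∣ l ∧ d θ ^ l = 1) := by
  classical
  obtain ⟨n, ρ, hρ, rfl⟩ := hθ
  let N : Subgroup G := ρ.ker
  have hN : IsOpen (N : Set G) := hρ
  have hNn : N.Normal := inferInstance
  obtain ⟨N₁, hN₁n, hN₁, hle₁, hconj₁, hsh₁⟩ := shrink hz hcc hc hN
  obtain ⟨N₂, hN₂n, hN₂, hle₂, hconj₂, hsh₂⟩ := shrink hz hcc hc hN₁
  have hfin : Finite (G ⧸ N₂) := Subgroup.quotient_finite_of_isOpen N₂ hN₂
  set π := QuotientGroup.mk' N₂ with hπ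
  have hsurj : Function.Surjective π := QuotientGroup.mk'_surjective N₂
  let M : Subgroup (G ⧸ N₂) := N.map π
  let M₁ : Subgroup (G ⧸ N₂) := N₁.map π
  have hMn : M.Normal := hNn.map π hsurj
  have hM₁n : M₁.Normal := hN₁n.map π hsurj
  have hker : π.ker = N₂ := QuotientGroup.ker_mk' N₂
  have hmem : ∀ (V : Subgroup G), N₂ ≤ V → ∀ g, π g ∈ V.map π ↔ g ∈ V := by
    intro V hV g
    rw [← Subgroup.mem_comap, Subgroup.comap_map_eq_self (by rw [hker]; exact hV)]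
  have hmM : ∀ g, π g ∈ M ↔ g ∈ N := hmem N (hle₂.trans hle₁)
  have hmM₁ : ∀ g, π g ∈ M₁ ↔ g ∈ N₁ := hmem N₁ hle₂
  let S : Set (G ⧸ N₂) := Set.range fun g : G => π (g * c * g⁻¹)
  have hS : Sig M M₁ S := by
    refine ⟨?_, ?_, ?_, ?_, ?_, Subgroup.map_mono hle₁⟩
    · rintro _ ⟨x, rfl⟩ g
      obtain ⟨y, rfl⟩ := hsurj g
      refine ⟨y * x, ?_⟩
      simp only
      rw [← map_inv, ← map_mul, ← map_mul]
      congr 1
      group
    · rintro _ ⟨x, rfl⟩
      simp only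
      rw [← map_mul]
      have h1 : x * c * x⁻¹ * (x * c * x⁻¹) = x * (c * c) * x⁻¹ := by group
      rw [h1, hcc, mul_one, mul_inv_cancel, map_one]
    · rintro _ ⟨x, rfl⟩ h
      exact hconj₁ x ((hmM₁ _).mp h)
    · rintro _ ⟨x, rfl⟩ g h
      obtain ⟨y, rfl⟩ := hsurj g
      simp only at h ⊢
      rw [← map_mul, ← map_mul] at h
      rw [← map_mul, hmM₁, hmM₁]
      have h1 : (y * (x * c * x⁻¹))⁻¹ * (x * c * x⁻¹ * y) ∈ N₂ := QuotientGroup.eq.1 h
      have h2 : c * ((x⁻¹ * y⁻¹ * x) * c * (x⁻¹ * y⁻¹ * x)⁻¹) ∈ N₂ := by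
        have h3 := hN₂n.conj_mem _ h1 x⁻¹
        have h4 : x⁻¹ * ((y * (x * c * x⁻¹))⁻¹ * (x * c * x⁻¹ * y)) * x⁻¹⁻¹ =
            c⁻¹ * ((x⁻¹ * y⁻¹ * x) * c * (x⁻¹ * y⁻¹ * x)⁻¹) := by group
        rw [h4, inv_eq_of_mul_eq_one_left hcc] at h3
        exact h3
      rcases hsh₂ _ h2 with h5 | h5
      · left
        have h6 := hN₁n.conj_mem _ (N₁.inv_mem h5) x
        have h7 : x * (x⁻¹ * y⁻¹ * x)⁻¹ * x⁻¹ = y := by group
        rwa [h7] at h6
      · right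
        -- `c * x⁻¹ y⁻¹ x ∈ N₁`
        have h6 := hN₁n.conj_mem _ (N₁.inv_mem h5) (x * c)
        have h7 : x * c * (c * (x⁻¹ * y⁻¹ * x))⁻¹ * (x * c)⁻¹ = x * c * x⁻¹ * y * (x * (c⁻¹ * c⁻¹) * x⁻¹) := by
          group
        have h8 : c⁻¹ * c⁻¹ = 1 := by
          rw [← mul_inv_rev, hcc, inv_one]
        rw [h7, h8, mul_one, mul_inv_cancel, mul_one] at h6
        exact h6
    · rintro _ ⟨x, rfl⟩ g h
      obtain ⟨y, rfl⟩ := hsurj g
      simp only at h ⊢
      rw [← map_inv, ← map_mul, ← map_mul, ← map_mul, hmM₁] at h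
      rw [← map_mul, hmM, hmM]
      have h2 : c * ((x⁻¹ * y * x) * c * (x⁻¹ * y * x)⁻¹) ∈ N₁ := by
        have h3 := hN₁n.conj_mem _ h x⁻¹
        have h4 : x⁻¹ * (x * c * x⁻¹ * (y * (x * c * x⁻¹) * y⁻¹)) * x⁻¹⁻¹ =
            c * ((x⁻¹ * y * x) * c * (x⁻¹ * y * x)⁻¹) := by group
        rwa [h4] at h3
      rcases hsh₁ _ h2 with h5 | h5
      · left
        have h6 := hNn.conj_mem _ h5 x
        have h7 : x * (x⁻¹ * y * x) * x⁻¹ = y := by group
        rwa [h7] at h6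
      · right
        have h6 := hNn.conj_mem _ h5 x
        have h7 : x * (c * (x⁻¹ * y * x)) * x⁻¹ = x * c * x⁻¹ * y := by group
        rwa [h7] at h6
  -- the character on the double quotient
  have hρ1 : N₂ ≤ ρ.ker := hle₂.trans hle₁
  let ρ₁ : G ⧸ N₂ →* Matrix (Fin n) (Fin n) ℂ := QuotientGroup.lift N₂ ρ hρ1
  have hρ2 : M ≤ ρ₁.ker := by
    rintro _ ⟨g, hg, rfl⟩
    exact hg
  let ρ₂ : (G ⧸ N₂) ⧸ M →* Matrix (Fin n) (Fin n) ℂ := QuotientGroup.lift M ρ₁ hρ2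
  let θ₂ : (G ⧸ N₂) ⧸ M → ℂ := fun g => (ρ₂ g).trace
  have hθ₂ : IsChar θ₂ := ⟨n, ρ₂, rfl⟩
  let Y : (G ⧸ N₂ → ℂ) → ℂˣ := fun f => d (f ∘ π)
  have hY : ∀ θ θ', IsChar θ → IsChar θ' → Y (θ + θ') = Y θ * Y θ' := by
    intro θ θ' h h'
    exact hd.add _ _ (isArtin_comp hN₂ h) (isArtin_comp hN₂ h')
  have hYθ : Y (θ₂ ∘ QuotientGroup.mk' M) = d (fun g => (ρ g).trace) := rfl
  have hG : ∀ (K : Subgroup (G ⧸ N₂)) (χ : K →* ℂˣ), (∀ s ∈ S, s ∉ K) → Y (ind K χ) = 1 := by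
    intro K χ hK
    show d (ind K χ ∘ π) = 1
    rw [hπ, ind_infl]
    refine good _ _ (isOpenLinear_infl hN₂ K χ) fun g hg => hK _ ⟨g, rfl⟩ ?_
    exact hg
  have hQ : ∀ (K : Subgroup (G ⧸ N₂)) (χ : K →* ℂˣ), χ ^ 2 = 1 → Y (ind K χ) = 1 := by
    intro K χ hχ
    refine hd.rational _ (isArtin_comp hN₂ (isChar_ind K χ)) fun g => ?_
    have := Fintype.ofFinite (G ⧸ N₂)
    have : Fintype ((G ⧸ N₂) ⧸ K) := Fintype.ofFinite _
    rw [Function.comp_apply, ind_eq_sum_cosets]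
    have h1 : ∀ x : (G ⧸ N₂) ⧸ K, ∃ q : ℚ,
        ext K χ (x.out⁻¹ * QuotientGroup.mk' N₂ g * x.out) = q := by
      intro x
      by_cases h2 : x.out⁻¹ * QuotientGroup.mk' N₂ g * x.out ∈ K
      · rw [ext_mem K χ h2]
        have h3 : ((χ ⟨_, h2⟩ : ℂˣ) : ℂ) * (χ ⟨_, h2⟩ : ℂˣ) = 1 := by
          have h4 := congrArg (fun f : K →* ℂˣ => f ⟨_, h2⟩) hχ
          simp only [pow_two, MonoidHom.mul_apply, MonoidHom.one_apply] at h4
          rw [← Units.val_mul, h4, Units.val_one]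
        rcases mul_self_eq_one_iff.mp h3 with h5 | h5
        · exact ⟨1, by rw [h5]; norm_num⟩
        · exact ⟨-1, by rw [h5]; norm_num⟩
      · exact ⟨0, by rw [ext_not_mem K χ h2]; norm_num⟩
    choose q hq using h1
    refine ⟨∑ x, q x, ?_⟩
    push_cast
    exact Finset.sum_congr rfl fun x _ => hq x
  constructor
  · intro p hp h2
    rw [← hYθ]
    exact fin_odd Y hS hY hQ hG hθ₂ hp h2
  · intro two
    rw [← hYθ]
    refine fin_two Y hS hY (fun K χ hχ => ?_) hG hθ₂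
    show d (ind K χ ∘ π) = 1
    rw [hπ, ind_infl]
    refine two _ _ (isOpenLinear_infl hN₂ K χ) ?_
    obtain ⟨k, hk⟩ := hχ
    refine ⟨k, ?_⟩
    ext x
    have h1 : (χ ^ 2 ^ k) (((QuotientGroup.mk' N₂).comp
      (K.comap (QuotientGroup.mk' N₂)).subtype).codRestrict K (fun x => x.2) x) = 1 := by
      rw [hk]
      rfl
    exact congrArg Units.val h1

omit [IsTopologicalGroup G] [CompactSpace G] [TotallyDisconnectedSpace G] [T2Space G] in
/-- the character induced from a quadratic character has rational values -/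
lemma rational_indF {U : Subgroup G} (hU : Finite (G ⧸ U)) {χ : U →* ℂˣ} (hχ : χ ^ 2 = 1) (g : G) :
    ∃ q : ℚ, indF U χ g = q := by
  classical
  have : Fintype (G ⧸ U) := Fintype.ofFinite _
  unfold indF
  rw [finsum_eq_sum_of_fintype]
  have h1 : ∀ x : G ⧸ U, ∃ q : ℚ, ext U χ (x.out⁻¹ * g * x.out) = q := by
    intro x
    by_cases h2 : x.out⁻¹ * g * x.out ∈ U
    · rw [ext_mem U χ h2]
      have h3 : ((χ ⟨_, h2⟩ : ℂˣ) : ℂ) * (χ ⟨_, h2⟩ : ℂˣ) = 1 := by
        have h4 := congrArg (fun f : U →* ℂˣ => f ⟨_, h2⟩) hχ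
        simp only [pow_two, MonoidHom.mul_apply, MonoidHom.one_apply] at h4
        rw [← Units.val_mul, h4, Units.val_one]
      rcases mul_self_eq_one_iff.mp h3 with h5 | h5
      · exact ⟨1, by rw [h5]; norm_num⟩
      · exact ⟨-1, by rw [h5]; norm_num⟩
    · exact ⟨0, by rw [ext_not_mem U χ h2]; norm_num⟩
  choose q hq using h1
  refine ⟨∑ x, q x, ?_⟩
  push_cast
  exact Finset.sum_congr rfl fun x _ => hq x

/-- **The theorem for profinite groups.** -/
theorem prof_eq_one {c : G} (hz : ∀ g, g * c = c * g → g = 1 ∨ g = c) (hcc : c * c = 1)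
    (hc : c ≠ 1) {d : (G → ℂ) → ℂˣ} (hd : IsDef d)
    (good : ∀ (U : Subgroup G) (χ : U →* ℂˣ), IsOpenLinear U χ → (∀ g, g * c * g⁻¹ ∉ U) →
      d (indF U χ) = 1)
    (two : ∀ (U : Subgroup G) (χ : U →* ℂˣ), IsOpenLinear U χ → (∃ k : ℕ, χ ^ 2 ^ k = 1) →
      d (indF U χ) = 1) {θ : G → ℂ} (hθ : IsArtin θ) : d θ = 1 := by
  obtain ⟨h1, h2⟩ := prof_main hz hcc hc hd good hθ
  obtain ⟨l, hl, hl1⟩ := h2 two
  have h3 := orderOf_dvd_of_pow_eq_one hl1
  rw [← orderOf_eq_one_iff]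
  by_contra h4
  obtain ⟨p, hp, hpd⟩ := Nat.exists_prime_and_dvd h4
  by_cases h5 : p = 2
  · subst h5
    exact hl (hpd.trans h3)
  · obtain ⟨m, hm, hm1⟩ := h1 p hp h5
    exact hm (hpd.trans (orderOf_dvd_of_pow_eq_one hm1))

/-- up to roots of unity of order a power of two -/
theorem prof_pow {c : G} (hz : ∀ g, g * c = c * g → g = 1 ∨ g = c) (hcc : c * c = 1)
    (hc : c ≠ 1) {d : (G → ℂ) → ℂˣ} (hd : IsDef d)
    (good : ∀ (U : Subgroup G) (χ : U →* ℂˣ), IsOpenLinear U χ → (∀ g, g * c * g⁻¹ ∉ U) →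
      d (indF U χ) = 1) {θ : G → ℂ} (hθ : IsArtin θ) : ∃ k : ℕ, d θ ^ 2 ^ k = 1 := by
  obtain ⟨h1, -⟩ := prof_main hz hcc hc hd good hθ
  obtain ⟨m, hm, hm1⟩ := h1 3 Nat.prime_three (by norm_num)
  have hm0 : m ≠ 0 := by
    rintro rfl
    exact hm (dvd_zero 3)
  have ho : orderOf (d θ) ≠ 0 := by
    intro h0
    have := orderOf_dvd_of_pow_eq_one hm1
    rw [h0, zero_dvd_iff] at this
    exact hm0 this
  have h2 : orderOf (d θ) = 2 ^ (orderOf (d θ)).primeFactorsList.length :=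
    Nat.eq_prime_pow_of_unique_prime_dvd ho fun {p} hp hpd => by
      by_contra h5
      obtain ⟨m', hm', hm1'⟩ := h1 p hp h5
      exact hm' (hpd.trans (orderOf_dvd_of_pow_eq_one hm1'))
  exact ⟨_, h2 ▸ pow_orderOf_eq_one (d θ)⟩

end

end Pool.Agent.Y691.ST
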