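import Pool.Agent.Y691.ST.Prof

/-!
# The theorem for invariants which are trivial on permutation characters
-/

set_option autoImplicit false

namespace Pool.Agent.Y691.ST

open Pool.Agent.Y144.DL

/-- The properties of `d` which are used. -/
structure IsDef' {G : Type} [Group G] [TopologicalSpace G] (d : (G → ℂ) → ℂˣ) : Prop where
  add : ∀ θ θ' : G → ℂ, IsArtin θ → IsArtin θ' → d (θ + θ') = d θ * d θ'
  one : ∀ U : Subgroup G, IsOpen (U : Set G) → d (indF U 1) = 1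

/-- the character induced from the kernel of a quadratic character -/
lemma ind_ker {Q : Type} [Group Q] [Finite Q] {K : Subgroup Q} {χ : K →* ℂˣ} (hχ : χ ^ 2 = 1)
    (h1 : χ ≠ 1) : ind (χ.ker.map K.subtype) 1 = ind K 1 + ind K χ := by
  classical
  have := Fintype.ofFinite Q
  have : Fintype K := Fintype.ofFinite _
  set V : Subgroup Q := χ.ker.map K.subtype with hV
  have hVK : V ≤ K := by
    rintro _ ⟨x, _, rfl⟩
    exact x.2
  have hmem : ∀ (g : Q) (hg : g ∈ K), g ∈ V ↔ χ ⟨g, hg⟩ = 1 := by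
    intro g hg
    constructor
    · rintro ⟨x, hx, rfl⟩
      exact hx
    · intro h
      exact ⟨⟨g, hg⟩, h, rfl⟩
  have hval : ∀ x : K, (1 : ℂ) + χ x = if χ x = 1 then 2 else 0 := by
    intro x
    by_cases h : χ x = 1
    · rw [if_pos h, h, Units.val_one]
      norm_num
    · rw [if_neg h]
      have h3 : ((χ x : ℂˣ) : ℂ) * (χ x : ℂˣ) = 1 := by
        have h4 := congrArg (fun f : K →* ℂˣ => f x) hχ
        simp only [pow_two, MonoidHom.mul_apply, MonoidHom.one_apply] at h4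
        rw [← Units.val_mul, h4, Units.val_one]
      rcases mul_self_eq_one_iff.mp h3 with h5 | h5
      · exact absurd (Units.ext h5) h
      · rw [h5]
        ring
  have hcard : (Nat.card K : ℂ) = 2 * (Nat.card V : ℂ) := by
    have h2 : ∑ x : K, ((1 : ℂ) + χ x) = Nat.card K := by
      have h3 : ∑ x : K, ((χ x : ℂˣ) : ℂ) = 0 := by
        have h4 := sum_hom_units ((Units.coeHom ℂ).comp χ)
        rw [if_neg] at h4
        · simpa using h4
        · intro h5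
          apply h1
          ext x
          exact congrArg (fun f : K →* ℂ => f x) h5
      rw [Finset.sum_add_distrib, h3, add_zero, Finset.sum_const,
        Finset.card_univ, nsmul_eq_mul, mul_one, Nat.card_eq_fintype_card]
    have h3 : ∑ x : K, ((1 : ℂ) + χ x) = 2 * (Nat.card V : ℂ) := by
      rw [Finset.sum_congr rfl fun x _ => hval x, ← Finset.sum_filter, Finset.sum_const,
        nsmul_eq_mul, mul_comm]
      congr 2
      rw [← Fintype.card_subtype, ← Nat.card_eq_fintype_card]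
      refine Nat.card_congr ?_
      exact
        { toFun := fun x => ⟨x.1, (hmem x.1 x.1.2).mpr x.2⟩
          invFun := fun y => ⟨⟨y.1, hVK y.2⟩, (hmem y.1 (hVK y.2)).mp y.2⟩
          left_inv := fun x => rfl
          right_inv := fun y => rfl }
    rw [← h2, h3]
  have hV0 : (Nat.card V : ℂ) ≠ 0 := by
    rw [Nat.cast_ne_zero]
    exact Nat.card_pos.ne'
  have hstep : avg V K (ext V 1) = ext K 1 + ext K χ := by
    funext g
    rw [avg_eq', Pi.add_apply]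
    by_cases hg : g ∈ K
    · rw [ext_mem K 1 hg, ext_mem K χ hg, MonoidHom.one_apply, Units.val_one, hval]
      have h2 : ∀ x : K, ext V (1 : V →* ℂˣ) ((x : Q)⁻¹ * g * x) =
          if χ ⟨g, hg⟩ = 1 then (1 : ℂ) else 0 := by
        intro x
        have h3 : (x : Q)⁻¹ * g * x ∈ K := K.mul_mem (K.mul_mem (K.inv_mem x.2) hg) x.2
        have h4 : (⟨(x : Q)⁻¹ * g * x, h3⟩ : K) = x⁻¹ * ⟨g, hg⟩ * x := rfl
        have h5 : χ ⟨(x : Q)⁻¹ * g * x, h3⟩ = χ ⟨g, hg⟩ := by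
          rw [h4, map_mul, map_mul, map_inv, mul_comm, ← mul_assoc, mul_inv_cancel, one_mul]
        by_cases h6 : χ ⟨g, hg⟩ = 1
        · rw [if_pos h6, ext_mem V 1 ((hmem _ h3).mpr (h5.trans h6)), MonoidHom.one_apply,
            Units.val_one]
        · rw [if_neg h6, ext_not_mem V 1]
          intro h7
          exact h6 (h5 ▸ (hmem _ h3).mp h7)
      rw [Finset.sum_congr rfl fun x _ => h2 x, Finset.sum_const, Finset.card_univ, nsmul_eq_mul,
        ← Nat.card_eq_fintype_card, hcard]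
      split_ifs
      · field_simp
      · ring
    · rw [ext_not_mem K 1 hg, ext_not_mem K χ hg, add_zero]
      have h2 : ∀ x : K, ext V (1 : V →* ℂˣ) ((x : Q)⁻¹ * g * x) = (0 : ℂ) := by
        intro x
        refine ext_not_mem V 1 fun h => hg ?_
        have h3 := K.mul_mem (K.mul_mem x.2 (hVK h)) (K.inv_mem x.2)
        have h4 : (x : Q) * ((x : Q)⁻¹ * g * x) * (x : Q)⁻¹ = g := by group
        rwa [h4] at h3
      rw [Finset.sum_congr rfl fun x _ => h2 x, Finset.sum_const_zero, mul_zero]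
  unfold ind
  rw [← avg_add, ← hstep, avg_avg le_top]

lemma quad_of_one {Q : Type} [Group Q] [Finite Q] {A : Type} [CommGroup A] (Y : (Q → ℂ) → A)
    (hY : ∀ θ θ', IsChar θ → IsChar θ' → Y (θ + θ') = Y θ * Y θ')
    (h1 : ∀ K : Subgroup Q, Y (ind K 1) = 1) (K : Subgroup Q) (χ : K →* ℂˣ) (hχ : χ ^ 2 = 1) :
    Y (ind K χ) = 1 := by
  by_cases h : χ = 1
  · rw [h]
    exact h1 K
  · have h2 := congrArg Y (ind_ker hχ h)
    rw [hY _ _ (isChar_ind K 1) (isChar_ind K χ), h1, h1, one_mul] at h2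
    exact h2.symm

section

variable {G : Type} [Group G] [TopologicalSpace G] [IsTopologicalGroup G] [CompactSpace G]
  [TotallyDisconnectedSpace G] [T2Space G]

/-- the passage to a finite quotient -/
theorem prof_main' {c : G} (hz : ∀ g, g * c = c * g → g = 1 ∨ g = c) (hcc : c * c = 1)
    (hc : c ≠ 1) {d : (G → ℂ) → ℂˣ} (hd : IsDef' d)
    (good : ∀ (U : Subgroup G) (χ : U →* ℂˣ), IsOpenLinear U χ → (∀ g, g * c * g⁻¹ ∉ U) →
      d (indF U χ) = 1) {θ : G → ℂ} (hθ : IsArtin θ) :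
    (∀ p : ℕ, p.Prime → p ≠ 2 → ∃ l : ℕ, ¬ p ∣ l ∧ d θ ^ l = 1) ∧
    ((∀ (U : Subgroup G) (χ : U →* ℂˣ), IsOpenLinear U χ → (∃ k : ℕ, χ ^ 2 ^ k = 1) →
      χ ^ 2 ≠ 1 → d (indF U χ) = 1) → ∃ l : ℕ, ¬ 2 ∣ l ∧ d θ ^ l = 1) := by
  classical
  obtain ⟨n, ρ, hρ, rfl⟩ := hθ
  let N : Subgroup G := ρ.ker
  have hN : IsOpen (N : Set G) := hρ
  have hNn : N.Normal := inferInstance
  obtain ⟨N₁, hN₁n, hN₁, hle₁, hconj₁, hsh₁⟩ := shrink hz hcc hc hN
  obtain ⟨N₂, hN₂n, hN₂, hle₂, hconj₂, hsh₂⟩ := shrink hz hcc hc hN₁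
  have hfin : Finite (G ⧸ N₂) := Subgroup.quotient_finite_of_isOpen N₂ hN₂
  set π := QuotientGroup.mk' N₂ with hπ
  have hsurj : Function.Surjective π := QuotientGroup.mk'_surjective N₂
  let M : Subgroup (G ⧸ N₂) := N.map π
  let M₁ : Subgroup (G ⧸ N₂) := N₁.map π
  have hMn : M.Normal := hNn.map π hsurj
  have hM₁n : M₁.Normal := hN₁n.map π hsurj
  have hker : π.ker = N₂ := QuotientGroup.ker_mk' N₂
  have hmem : ∀ (V : Subgroup G), N₂ ≤ V → ∀ g, π g ∈ V.map π ↔ g ∈ V := by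
    intro V hV g
    rw [← Subgroup.mem_comap, Subgroup.comap_map_eq_self (by rw [hker]; exact hV)]
  have hmM : ∀ g, π g ∈ M ↔ g ∈ N := hmem N (hle₂.trans hle₁)
  have hmM₁ : ∀ g, π g ∈ M₁ ↔ g ∈ N₁ := hmem N₁ hle₂
  let S : Set (G ⧸ N₂) := Set.range fun g : G => π (g * c * g⁻¹)
  have hS : Sig M M₁ S := by
    refine ⟨?_, ?_, ?_, ?_, ?_, Subgroup.map_mono hle₁⟩
    · rintro _ ⟨x, rfl⟩ g
      obtain ⟨y, rfl⟩ := hsurj g
      refine ⟨y * x, ?_⟩
      simp only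
      rw [← map_inv, ← map_mul, ← map_mul]
      congr 1
      group
    · rintro _ ⟨x, rfl⟩
      simp only
      rw [← map_mul]
      have h1 : x * c * x⁻¹ * (x * c * x⁻¹) = x * (c * c) * x⁻¹ := by group
      rw [h1, hcc, mul_one, mul_inv_cancel, map_one]
    · rintro _ ⟨x, rfl⟩ h
      exact hconj₁ x ((hmM₁ _).mp h)
    · rintro _ ⟨x, rfl⟩ g h
      obtain ⟨y, rfl⟩ := hsurj g
      simp only at h ⊢
      rw [← map_mul, ← map_mul] at h
      rw [← map_mul, hmM₁, hmM₁]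
      have h1 : (y * (x * c * x⁻¹))⁻¹ * (x * c * x⁻¹ * y) ∈ N₂ := QuotientGroup.eq.1 h
      have h2 : c * ((x⁻¹ * y⁻¹ * x) * c * (x⁻¹ * y⁻¹ * x)⁻¹) ∈ N₂ := by
        have h3 := hN₂n.conj_mem _ h1 x⁻¹
        have h4 : x⁻¹ * ((y * (x * c * x⁻¹))⁻¹ * (x * c * x⁻¹ * y)) * x⁻¹⁻¹ =
            c⁻¹ * ((x⁻¹ * y⁻¹ * x) * c * (x⁻¹ * y⁻¹ * x)⁻¹) := by group
        rw [h4, inv_eq_of_mul_eq_one_left hcc] at h3
        exact h3
      rcases hsh₂ _ h2 with h5 | h5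
      · left
        have h6 := hN₁n.conj_mem _ (N₁.inv_mem h5) x
        have h7 : x * (x⁻¹ * y⁻¹ * x)⁻¹ * x⁻¹ = y := by group
        rwa [h7] at h6
      · right
        -- `c * x⁻¹ y⁻¹ x ∈ N₁`
        have h6 := hN₁n.conj_mem _ (N₁.inv_mem h5) (x * c)
        have h7 : x * c * (c * (x⁻¹ * y⁻¹ * x))⁻¹ * (x * c)⁻¹ = x * c * x⁻¹ * y * (x * (c⁻¹ * c⁻¹) * x⁻¹) := by
          group
        have h8 : c⁻¹ * c⁻¹ = 1 := by
          rw [← mul_inv_rev, hcc, inv_one]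
        rw [h7, h8, mul_one, mul_inv_cancel, mul_one] at h6
        exact h6
    · rintro _ ⟨x, rfl⟩ g h
      obtain ⟨y, rfl⟩ := hsurj g
      simp only at h ⊢
      rw [← map_inv, ← map_mul, ← map_mul, ← map_mul, hmM₁] at h
      rw [← map_mul, hmM, hmM]
      have h2 : c * ((x⁻¹ * y * x) * c * (x⁻¹ * y * x)⁻¹) ∈ N₁ := by
        have h3 := hN₁n.conj_mem _ h x⁻¹
        have h4 : x⁻¹ * (x * c * x⁻¹ * (y * (x * c * x⁻¹) * y⁻¹)) * x⁻¹⁻¹ =
            c * ((x⁻¹ * y * x) * c * (x⁻¹ * y * x)⁻¹) := by group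
        rwa [h4] at h3
      rcases hsh₁ _ h2 with h5 | h5
      · left
        have h6 := hNn.conj_mem _ h5 x
        have h7 : x * (x⁻¹ * y * x) * x⁻¹ = y := by group
        rwa [h7] at h6
      · right
        have h6 := hNn.conj_mem _ h5 x
        have h7 : x * (c * (x⁻¹ * y * x)) * x⁻¹ = x * c * x⁻¹ * y := by group
        rwa [h7] at h6
  -- the character on the double quotient
  have hρ1 : N₂ ≤ ρ.ker := hle₂.trans hle₁
  let ρ₁ : G ⧸ N₂ →* Matrix (Fin n) (Fin n) ℂ := QuotientGroup.lift N₂ ρ hρ1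
  have hρ2 : M ≤ ρ₁.ker := by
    rintro _ ⟨g, hg, rfl⟩
    exact hg
  let ρ₂ : (G ⧸ N₂) ⧸ M →* Matrix (Fin n) (Fin n) ℂ := QuotientGroup.lift M ρ₁ hρ2
  let θ₂ : (G ⧸ N₂) ⧸ M → ℂ := fun g => (ρ₂ g).trace
  have hθ₂ : IsChar θ₂ := ⟨n, ρ₂, rfl⟩
  let Y : (G ⧸ N₂ → ℂ) → ℂˣ := fun f => d (f ∘ π)
  have hY : ∀ θ θ', IsChar θ → IsChar θ' → Y (θ + θ') = Y θ * Y θ' := by
    intro θ θ' h h'
    exact hd.add _ _ (isArtin_comp hN₂ h) (isArtin_comp hN₂ h')
  have hYθ : Y (θ₂ ∘ QuotientGroup.mk' M) = d (fun g => (ρ g).trace) := rfl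
  have hG : ∀ (K : Subgroup (G ⧸ N₂)) (χ : K →* ℂˣ), (∀ s ∈ S, s ∉ K) → Y (ind K χ) = 1 := by
    intro K χ hK
    show d (ind K χ ∘ π) = 1
    rw [hπ, ind_infl]
    refine good _ _ (isOpenLinear_infl hN₂ K χ) fun g hg => hK _ ⟨g, rfl⟩ ?_
    exact hg
  have hQ : ∀ (K : Subgroup (G ⧸ N₂)) (χ : K →* ℂˣ), χ ^ 2 = 1 → Y (ind K χ) = 1 := by
    refine quad_of_one Y hY fun K => ?_
    show d (ind K 1 ∘ π) = 1
    rw [hπ, ind_infl]
    have h1 : infl N₂ K 1 = 1 := rfl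
    rw [h1]
    exact hd.one _ (isOpenLinear_infl hN₂ K 1).1
  constructor
  · intro p hp h2
    rw [← hYθ]
    exact fin_odd Y hS hY hQ hG hθ₂ hp h2
  · intro two
    rw [← hYθ]
    refine fin_two Y hS hY (fun K χ hχ => ?_) hG hθ₂
    by_cases hsq : χ ^ 2 = 1
    · exact hQ K χ hsq
    show d (ind K χ ∘ π) = 1
    rw [hπ, ind_infl]
    refine two _ _ (isOpenLinear_infl hN₂ K χ) ?_ ?_
    · obtain ⟨k, hk⟩ := hχ
      refine ⟨k, ?_⟩
      ext x
      have h1 : (χ ^ 2 ^ k) (((QuotientGroup.mk' N₂).comp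
        (K.comap (QuotientGroup.mk' N₂)).subtype).codRestrict K (fun x => x.2) x) = 1 := by
        rw [hk]
        rfl
      exact congrArg Units.val h1
    · intro h1
      apply hsq
      ext ⟨y, hy⟩
      obtain ⟨g, rfl⟩ := hsurj y
      have h2 := congrArg (fun f : K.comap (QuotientGroup.mk' N₂) →* ℂˣ => ((f ⟨g, hy⟩ : ℂˣ) : ℂ)) h1
      exact h2

/-- **The theorem for profinite groups.** -/
theorem prof_eq_one' {c : G} (hz : ∀ g, g * c = c * g → g = 1 ∨ g = c) (hcc : c * c = 1)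
    (hc : c ≠ 1) {d : (G → ℂ) → ℂˣ} (hd : IsDef' d)
    (good : ∀ (U : Subgroup G) (χ : U →* ℂˣ), IsOpenLinear U χ → (∀ g, g * c * g⁻¹ ∉ U) →
      d (indF U χ) = 1)
    (two : ∀ (U : Subgroup G) (χ : U →* ℂˣ), IsOpenLinear U χ → (∃ k : ℕ, χ ^ 2 ^ k = 1) →
      χ ^ 2 ≠ 1 → d (indF U χ) = 1) {θ : G → ℂ} (hθ : IsArtin θ) : d θ = 1 := by
  obtain ⟨h1, h2⟩ := prof_main' hz hcc hc hd good hθ
  obtain ⟨l, hl, hl1⟩ := h2 two
  have h3 := orderOf_dvd_of_pow_eq_one hl1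
  rw [← orderOf_eq_one_iff]
  by_contra h4
  obtain ⟨p, hp, hpd⟩ := Nat.exists_prime_and_dvd h4
  by_cases h5 : p = 2
  · subst h5
    exact hl (hpd.trans h3)
  · obtain ⟨m, hm, hm1⟩ := h1 p hp h5
    exact hm (hpd.trans (orderOf_dvd_of_pow_eq_one hm1))

/-- up to roots of unity of order a power of two -/
theorem prof_pow' {c : G} (hz : ∀ g, g * c = c * g → g = 1 ∨ g = c) (hcc : c * c = 1)
    (hc : c ≠ 1) {d : (G → ℂ) → ℂˣ} (hd : IsDef' d)
    (good : ∀ (U : Subgroup G) (χ : U →* ℂˣ), IsOpenLinear U χ → (∀ g, g * c * g⁻¹ ∉ U) →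
      d (indF U χ) = 1) {θ : G → ℂ} (hθ : IsArtin θ) : ∃ k : ℕ, d θ ^ 2 ^ k = 1 := by
  obtain ⟨h1, -⟩ := prof_main' hz hcc hc hd good hθ
  obtain ⟨m, hm, hm1⟩ := h1 3 Nat.prime_three (by norm_num)
  have hm0 : m ≠ 0 := by
    rintro rfl
    exact hm (dvd_zero 3)
  have ho : orderOf (d θ) ≠ 0 := by
    intro h0
    have := orderOf_dvd_of_pow_eq_one hm1
    rw [h0, zero_dvd_iff] at this
    exact hm0 this
  have h2 : orderOf (d θ) = 2 ^ (orderOf (d θ)).primeFactorsList.length :=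
    Nat.eq_prime_pow_of_unique_prime_dvd ho fun {p} hp hpd => by
      by_contra h5
      obtain ⟨m', hm', hm1'⟩ := h1 p hp h5
      exact hm' (hpd.trans (orderOf_dvd_of_pow_eq_one hm1'))
  exact ⟨_, h2 ▸ pow_orderOf_eq_one (d θ)⟩

end

end Pool.Agent.Y691.ST
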