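import Pool.Agent.Y691.ST.BeiDefs
import Pool.Agent.Y691.ST.Ind
import Pool.Agent.Y691.ST.ProfOne

/-!
# The equivariant conjecture of Beilinson: the theorem
-/

set_option autoImplicit false

namespace Pool.Agent.Y691.ST

open Pool.Agent.Y144.DL

/-- the theorem for invariants which are trivial on permutation characters -/
theorem borel_defect {d : (GalQ → ℂ) → ℂˣ} {D : (U : Subgroup GalQ) → (U → ℂ) → ℂˣ}
    (hD : IsBorelDefect d D) :
    (Holds D ↔ HoldsLinear TotallyComplex D ∧ HoldsTwoPower (fun U => ¬ TotallyComplex U) D) ∧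
    (HoldsLinear TotallyComplex D → HoldsUpToTwo D) := by
  obtain ⟨c, φ, hφ, hconj⟩ := exists_conjugation
  have hlin : ∀ (U : Subgroup GalQ) (χ : U →* ℂˣ), IsOpenLinear U χ →
      D U (lin χ) = d (indF U χ) := by
    intro U χ h
    obtain ⟨h1, h2⟩ := isOpenLinear_iff.mp h
    rw [hD.ind U _ h1 (isArtin_lin h2), indC_lin]
  have hone : ∀ U : Subgroup GalQ, IsOpen (U : Set GalQ) → d (indF U 1) = 1 := by
    intro U hU
    have h1 : IsOpen {u : U | (1 : U →* ℂˣ) u = 1} := by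
      have h2 : {u : U | (1 : U →* ℂˣ) u = 1} = Set.univ := by
        ext u
        simp
      rw [h2]
      exact isOpen_univ
    have h3 : (lin (1 : U →* ℂˣ)) = 1 := by
      funext u
      simp [lin]
    rw [← hlin U 1 (isOpenLinear_iff.mpr ⟨hU, h1⟩), h3]
    exact hD.one U hU
  have hd : IsDef' d := ⟨hD.add, hone⟩
  have hz := fun g (h : g * c = c * g) => centralizer hφ h
  have hgood : HoldsLinear TotallyComplex D →
      ∀ (U : Subgroup GalQ) (χ : U →* ℂˣ), IsOpenLinear U χ → (∀ g, g * c * g⁻¹ ∉ U) →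
        d (indF U χ) = 1 := by
    intro h U χ hχ hU
    obtain ⟨h1, h2⟩ := isOpenLinear_iff.mp hχ
    rw [← hlin U χ hχ]
    refine h U χ h1 h2 fun c' hc' => ?_
    obtain ⟨g, rfl⟩ := hconj c' hc'
    exact hU g
  refine ⟨⟨fun h => ⟨fun U χ h1 h2 _ => h U _ h1 (isArtin_lin h2),
    fun U χ h1 h2 _ _ _ => h U _ h1 (isArtin_lin h2)⟩, ?_⟩, ?_⟩
  · rintro ⟨ha, hb⟩ U θ hU hθ
    rw [hD.ind U θ hU hθ]
    refine prof_eq_one' hz (conj_sq hφ) (conj_ne_one hφ) hd (hgood ha) ?_ (isArtin_ind hU hθ)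
    intro V χ hχ hk h3
    obtain ⟨h1, h2⟩ := isOpenLinear_iff.mp hχ
    rw [← hlin V χ hχ]
    by_cases hV : TotallyComplex V
    · exact ha V χ h1 h2 hV
    · exact hb V χ h1 h2 hV hk h3
  · intro ha U θ hU hθ
    rw [hD.ind U θ hU hθ]
    exact prof_pow' hz (conj_sq hφ) (conj_ne_one hφ) hd (hgood ha) (isArtin_ind hU hθ)

end Pool.Agent.Y691.ST
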