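import Pool.Agent.Y691.ST.PermDefs

/-!
# The conjecture of Birch and Swinnerton-Dyer over number fields: definitions
-/

set_option autoImplicit false

namespace Pool.Agent.Y691.ST

/-- The data of the conjecture of Birch and Swinnerton-Dyer for an elliptic curve `E` over `ℚ` over all
number fields `K` (the fixed fields of the open subgroups `U` of the absolute Galois group of `ℚ`), all
Tate-Shafarevich groups being finite: the order `ord` of `L(E/K, s)` at `s = 1`, the rank `rank` of
`E(K)`, the analytic constant `an` (the absolute value of the leading coefficient of `L(E/K, s)` at
`s = 1`, divided by the period and the regulator) and the algebraic constant `alg` (the order of the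
Tate-Shafarevich group times the Tamagawa numbers, divided by the square of the order of the torsion
group). -/
structure BSD where
  ord : Subgroup GalQ → ℤ
  rank : Subgroup GalQ → ℤ
  an : Subgroup GalQ → ℝ
  alg : Subgroup GalQ → ℝ

/-- Known properties: the constants are positive; the orders, the ranks and the quotients of the
constants are compatible with Brauer relations (Artin formalism; Cassels, Milne, Tate). -/
structure IsBSD (E : BSD) : Prop where
  an_pos : ∀ U, 0 < E.an U
  alg_pos : ∀ U, 0 < E.alg U
  ord : Brauer E.ord
  rank : Brauer E.rank
  quot : Brauer (fun U => Real.log (E.an U / E.alg U))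

/-- **The conjecture of Birch and Swinnerton-Dyer** for `E` over the fixed field of `U`. -/
def BSD.Holds (E : BSD) (U : Subgroup GalQ) : Prop := E.ord U = E.rank U ∧ E.an U = E.alg U

/-- The number of real embeddings of the fixed field of `U`: the number of fixed points of the complex
conjugation `c` on `GalQ ⧸ U`. -/
noncomputable def realPlaces (c : GalQ) (U : Subgroup GalQ) : ℕ :=
  Nat.card {x : GalQ ⧸ U // c • x = x}

/-- `U` is open, its fixed field `K` is totally complex, and the Galois group of `K M` over `K` is an
extension of a `p`-group by a cyclic group, where `M` is the fixed field of `N`. -/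
def Special (p : ℕ) (N : Subgroup GalQ) [N.Normal] (U : Subgroup GalQ) : Prop :=
  IsOpen (U : Set GalQ) ∧ NoReal U ∧ CycHyp p (U.map (QuotientGroup.mk' N))

end Pool.Agent.Y691.ST
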