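import Pool.Agent.Y691.ST.ThinDefs

/-!
# Rationality of central values of elliptic curves over number fields: definitions
-/

set_option autoImplicit false

namespace Pool.Agent.Y691.ST

/-- The data of the conjecture on the central value of an elliptic curve `A` over `ℚ` over all number
fields `K` (the fixed fields of the open subgroups `U` of the absolute Galois group of `ℚ`): the leading
coefficient `lead` of `L(s, A / K)` at the centre, and the product `per` of `Ω(A / K)` and the regulator of
`A(K)` (which is `1` if the rank is `0`). -/
structure Central where
  lead : Subgroup GalQ → ℝ
  per : Subgroup GalQ → ℝ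

/-- Known properties: the numbers are not zero, and their quotients are, up to rational factors,
compatible with Brauer relations. -/
structure IsCentral (E : Central) : Prop where
  lead_ne : ∀ U, E.lead U ≠ 0
  per_ne : ∀ U, E.per U ≠ 0
  brauer : ∀ l l', BrauerRelation l l' → ∃ q : ℚ, q ≠ 0 ∧
    (l.map fun U => E.lead U / E.per U).prod = q * (l'.map fun U => E.lead U / E.per U).prod

/-- The leading coefficient over the fixed field of `U` is a rational multiple of the product of the
period and the regulator. -/
def Central.Holds (E : Central) (U : Subgroup GalQ) : Prop :=
  ∃ q : ℚ, q ≠ 0 ∧ E.lead U = q * E.per U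

end Pool.Agent.Y691.ST
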