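import Mathlib

/-!
# Complex conjugations in the absolute Galois group of the rational numbers
-/

set_option autoImplicit false

namespace Pool.Agent.Y691.ST

/-- an algebraic closure of `ℚ` -/
abbrev Qbar : Type := AlgebraicClosure ℚ

instance algebraicQbar : Algebra.IsAlgebraic ℚ Qbar := AlgebraicClosure.isAlgebraic ℚ

instance closureQbar : IsAlgClosure ℚ Qbar := ⟨inferInstance, inferInstance⟩

instance galoisQbar : IsGalois ℚ Qbar := IsAlgClosure.isGalois ℚ Qbar

/-- the absolute Galois group of `ℚ` -/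
abbrev GalQ : Type := Gal(Qbar/ℚ)

/-- `c` is the complex conjugation of some embedding of the algebraic closure in `ℂ`. -/
def IsConjugation (c : GalQ) : Prop :=
  ∃ φ : Qbar →+* ℂ, ∀ x, φ (c x) = (starRingEnd ℂ) (φ x)

section

variable {c : GalQ} {φ : Qbar →+* ℂ} (hφ : ∀ x, φ (c x) = (starRingEnd ℂ) (φ x))

include hφ

lemma conj_sq : c * c = 1 := by
  ext x
  apply φ.injective
  show φ (c (c x)) = φ x
  rw [hφ, hφ, Complex.conj_conj]

lemma conj_conj (x : Qbar) : c (c x) = x := by
  apply φ.injective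
  rw [hφ, hφ, Complex.conj_conj]

lemma fixed_im {x : Qbar} (h : c x = x) : (φ x).im = 0 := by
  rw [← Complex.conj_eq_iff_im, ← hφ, h]

lemma fixed_of_im {x : Qbar} (h : (φ x).im = 0) : c x = x := by
  apply φ.injective
  rw [hφ, Complex.conj_eq_iff_im, h]

lemma exists_I : ∃ i : Qbar, i * i = -1 ∧ c i = -i := by
  obtain ⟨i, hi⟩ := IsAlgClosed.exists_pow_nat_eq (-1 : Qbar) (n := 2) two_pos
  rw [pow_two] at hi
  refine ⟨i, hi, ?_⟩
  apply φ.injective
  rw [hφ, map_neg]
  have h1 : φ i * φ i = -1 := by rw [← map_mul, hi, map_neg, map_one]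
  have h2 : φ i = Complex.I ∨ φ i = -Complex.I := by
    have h3 : (φ i - Complex.I) * (φ i + Complex.I) = 0 := by
      have h4 : (φ i - Complex.I) * (φ i + Complex.I) = φ i * φ i - Complex.I * Complex.I := by ring
      rw [h4, h1, Complex.I_mul_I, sub_self]
    rcases mul_eq_zero.mp h3 with h5 | h5
    · exact Or.inl (sub_eq_zero.mp h5)
    · exact Or.inr (eq_neg_of_add_eq_zero_left h5)
  rcases h2 with h2 | h2
  · rw [h2, Complex.conj_I]
  · rw [h2, map_neg, Complex.conj_I]

lemma conj_ne_one : c ≠ 1 := by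
  rintro rfl
  obtain ⟨i, hi, hci⟩ := exists_I hφ
  have h1 : i = -i := hci
  have h2 : (2 : Qbar) * i = 0 := by linear_combination h1
  have h3 : i = 0 := (mul_eq_zero.mp h2).resolve_left two_ne_zero
  rw [h3, mul_zero] at hi
  exact one_ne_zero (neg_eq_zero.mp hi.symm)

/-- Complex conjugations are self-centralizing. -/
theorem centralizer {g : GalQ} (h : g * c = c * g) : g = 1 ∨ g = c := by
  have hcomm : ∀ x, c (g x) = g (c x) := fun x => (DFunLike.congr_fun h x).symm
  -- nonnegative real algebraic numbers are squares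
  have hpos : ∀ x, c x = x → 0 ≤ (φ x).re → 0 ≤ (φ (g x)).re := by
    intro x hx h0
    obtain ⟨y, hy⟩ := IsAlgClosed.exists_pow_nat_eq x (n := 2) two_pos
    have h1 : φ y ^ 2 = φ x := by rw [← map_pow, hy]
    have h2 := fixed_im hφ hx
    have him : (φ y).im = 0 := by
      have h3 := congrArg Complex.re h1
      have h4 := congrArg Complex.im h1
      rw [pow_two, Complex.mul_re] at h3
      rw [pow_two, Complex.mul_im, h2] at h4
      by_contra h5
      have h6 : (φ y).re = 0 := by
        have h7 : (φ y).re * (φ y).im = 0 := by linarith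
        exact (mul_eq_zero.mp h7).resolve_right h5
      rw [h6] at h3
      have h8 : 0 < (φ y).im * (φ y).im := mul_self_pos.mpr h5
      linarith
    have hcy := fixed_of_im hφ him
    have h9 : c (g y) = g y := by rw [hcomm, hcy]
    have h10 := fixed_im hφ h9
    have h11 : φ (g x) = φ (g y) ^ 2 := by rw [← map_pow, ← map_pow, hy]
    rw [h11, pow_two, Complex.mul_re, h10]
    nlinarith [mul_self_nonneg (φ (g y)).re]
  have hq : ∀ (q : ℚ) (x : Qbar), c x = x →
      ((q : ℝ) ≤ (φ x).re → (q : ℝ) ≤ (φ (g x)).re) ∧ ((φ x).re ≤ q → (φ (g x)).re ≤ q) := by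
    intro q x hx
    have hcq : c (algebraMap ℚ Qbar q) = algebraMap ℚ Qbar q := c.commutes q
    have hgq : g (algebraMap ℚ Qbar q) = algebraMap ℚ Qbar q := g.commutes q
    have hφq : φ (algebraMap ℚ Qbar q) = ((q : ℝ) : ℂ) := by
      rw [eq_ratCast, map_ratCast]
      norm_cast
    constructor
    · intro h1
      have h2 := hpos (x - algebraMap ℚ Qbar q) (by rw [map_sub, hx, hcq]) (by
        rw [map_sub, hφq, Complex.sub_re, Complex.ofReal_re]
        linarith)
      rw [map_sub, hgq, map_sub, hφq, Complex.sub_re, Complex.ofReal_re] at h2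
      linarith
    · intro h1
      have h2 := hpos (algebraMap ℚ Qbar q - x) (by rw [map_sub, hx, hcq]) (by
        rw [map_sub, hφq, Complex.sub_re, Complex.ofReal_re]
        linarith)
      rw [map_sub, hgq, map_sub, hφq, Complex.sub_re, Complex.ofReal_re] at h2
      linarith
  have hfix : ∀ x, c x = x → g x = x := by
    intro x hx
    apply φ.injective
    have h1 : c (g x) = g x := by rw [hcomm, hx]
    apply Complex.ext
    · by_contra h2
      rcases lt_or_gt_of_ne h2 with h3 | h3
      · obtain ⟨q, hq1, hq2⟩ := exists_rat_btwn h3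
        have h4 := (hq q x hx).1 hq2.le
        linarith
      · obtain ⟨q, hq1, hq2⟩ := exists_rat_btwn h3
        have h4 := (hq q x hx).2 hq1.le
        linarith
    · rw [fixed_im hφ h1, fixed_im hφ hx]
  obtain ⟨i, hi, hci⟩ := exists_I hφ
  have hi0 : i ≠ 0 := by
    rintro rfl
    rw [mul_zero] at hi
    exact one_ne_zero (neg_eq_zero.mp hi.symm)
  have hdec : ∀ z, ∃ a b, c a = a ∧ c b = b ∧ z = a + i * b := by
    intro z
    refine ⟨(z + c z) / 2, (z - c z) / (2 * i), ?_, ?_, ?_⟩
    · rw [map_div₀, map_add, conj_conj hφ, map_ofNat, add_comm]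
    · rw [map_div₀, map_sub, conj_conj hφ, map_mul, map_ofNat, hci]
      field_simp
      ring
    · field_simp
      ring
  have hgi : g i = i ∨ g i = -i := by
    have h1 : g i * g i = -1 := by rw [← map_mul, hi, map_neg, map_one]
    have h2 : (g i - i) * (g i + i) = 0 := by
      have h3 : (g i - i) * (g i + i) = g i * g i - i * i := by ring
      rw [h3, h1, hi, sub_self]
    rcases mul_eq_zero.mp h2 with h3 | h3
    · exact Or.inl (sub_eq_zero.mp h3)
    · exact Or.inr (eq_neg_of_add_eq_zero_left h3)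
  rcases hgi with hgi | hgi
  · left
    ext z
    obtain ⟨a, b, ha, hb, rfl⟩ := hdec z
    show g (a + i * b) = a + i * b
    rw [map_add, map_mul, hgi, hfix a ha, hfix b hb]
  · right
    ext z
    obtain ⟨a, b, ha, hb, rfl⟩ := hdec z
    rw [map_add, map_mul, hgi, hfix a ha, hfix b hb, map_add, map_mul, hci, ha, hb]

end

/-- There is a complex conjugation, and all complex conjugations are conjugate to it. -/
theorem exists_conjugation : ∃ (c : GalQ) (φ : Qbar →+* ℂ),
    (∀ x, φ (c x) = (starRingEnd ℂ) (φ x)) ∧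
    ∀ c', IsConjugation c' → ∃ g : GalQ, c' = g * c * g⁻¹ := by
  let φ₀ : Qbar →ₐ[ℚ] ℂ := IsAlgClosed.lift
  let _ : Algebra Qbar ℂ := φ₀.toRingHom.toAlgebra
  have hτ : ∀ φ : Qbar →+* ℂ, ∃ τ : GalQ, ∀ x, φ₀ (τ x) = φ x := by
    intro φ
    refine ⟨(φ.toRatAlgHom).restrictNormal' Qbar, fun x => ?_⟩
    exact AlgHom.restrictNormal_commutes φ.toRatAlgHom Qbar x
  obtain ⟨c, hc⟩ := hτ ((starRingEnd ℂ).comp φ₀.toRingHom)
  refine ⟨c, φ₀.toRingHom, hc, ?_⟩
  rintro c' ⟨φ, hφ⟩
  obtain ⟨τ, hτ'⟩ := hτ φ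
  refine ⟨τ⁻¹, ?_⟩
  have h1 : τ * c' = c * τ := by
    ext x
    apply φ₀.toRingHom.injective
    show φ₀ (τ (c' x)) = φ₀ (c (τ x))
    rw [hτ', hφ, ← hτ']
    exact (hc (τ x)).symm
  rw [inv_inv, mul_assoc, ← h1, inv_mul_cancel_left]

end Pool.Agent.Y691.ST
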