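import Pool.Agent.Y691.ST.IndDefs
import Pool.Agent.Y144.DL.Basic

/-!
# Auxiliary definitions
-/

set_option autoImplicit false

namespace Pool.Agent.Y691.ST

open Pool.Agent.Y144.DL

variable {G : Type} [Group G] [TopologicalSpace G]

/-- `U` is an open subgroup of `G` and `χ` is a linear character of `U` with open kernel. -/
def IsOpenLinear (U : Subgroup G) (χ : U →* ℂˣ) : Prop :=
  IsOpen (U : Set G) ∧ IsOpen {g : G | ∃ h : g ∈ U, χ ⟨g, h⟩ = 1}

/-- The function on `G` induced by the linear character `χ` of the subgroup `U`. -/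
noncomputable def indF (U : Subgroup G) (χ : U →* ℂˣ) : G → ℂ := fun g =>
  ∑ᶠ x : G ⧸ U, ext U χ (x.out⁻¹ * g * x.out)

/-- The properties of `d` which are used. -/
structure IsDef (d : (G → ℂ) → ℂˣ) : Prop where
  add : ∀ θ θ' : G → ℂ, IsArtin θ → IsArtin θ' → d (θ + θ') = d θ * d θ'
  rational : ∀ θ : G → ℂ, IsArtin θ → (∀ g, ∃ q : ℚ, θ g = q) → d θ = 1

end Pool.Agent.Y691.ST
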