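import Pool.Agent.Y691.ST.Conj

/-!
# Artin characters and Stark's conjecture: definitions
-/

set_option autoImplicit false

namespace Pool.Agent.Y691.ST

variable {G : Type} [Group G] [TopologicalSpace G]

/-- `θ` is the character of a complex representation of the topological group `G` whose kernel is
open. -/
def IsArtin (θ : G → ℂ) : Prop :=
  ∃ (n : ℕ) (ρ : G →* Matrix (Fin n) (Fin n) ℂ), IsOpen {g | ρ g = 1} ∧
    θ = fun g => (ρ g).trace

/-- the extension by zero of a function on a subgroup -/
noncomputable def extC (U : Subgroup G) (θ : U → ℂ) : G → ℂ := fun g => by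
  classical exact if h : g ∈ U then θ ⟨g, h⟩ else 0

/-- The function on `G` induced by the class function `θ` on the subgroup `U`. -/
noncomputable def indC (U : Subgroup G) (θ : U → ℂ) : G → ℂ := fun g =>
  ∑ᶠ x : G ⧸ U, extC U θ (x.out⁻¹ * g * x.out)

/-- A linear character as a function with values in `ℂ`. -/
def lin {U : Subgroup G} (χ : U →* ℂˣ) : U → ℂ := fun u => (χ u : ℂ)

/-- Known properties of the quotients `D U θ = A_S(θ, φ_S)^σ / A_S(θ^σ, φ_S)` of Stark's conjecture, for a
fixed automorphism `σ` of `ℂ`, for the Artin characters `θ` of the open subgroups `U` of the absolute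
Galois group of `ℚ`, that is for the number fields `K = Qbar^U` and the characters of the finite Galois
extensions of `K`. The quotient does not depend on `S`, on `φ_S`, or on the finite Galois extension
through which `θ` factors; `d θ` is the quotient over `ℚ`. It is multiplicative (`add`), it is the same
for `θ` and for the induced character of the Galois group of `ℚ` (`ind`), and it is `1` for the
characters with rational values (`rational`, Tate). -/
structure IsDefect (d : (G → ℂ) → ℂˣ) (D : (U : Subgroup G) → (U → ℂ) → ℂˣ) : Prop where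
  add : ∀ θ θ' : G → ℂ, IsArtin θ → IsArtin θ' → d (θ + θ') = d θ * d θ'
  ind : ∀ (U : Subgroup G) (θ : U → ℂ), IsOpen (U : Set G) → IsArtin θ → D U θ = d (indC U θ)
  rational : ∀ θ : G → ℂ, IsArtin θ → (∀ g, ∃ q : ℚ, θ g = q) → d θ = 1

/-- `D` is trivial on all Artin characters of all open subgroups. -/
def Holds (D : (U : Subgroup G) → (U → ℂ) → ℂˣ) : Prop :=
  ∀ (U : Subgroup G) (θ : U → ℂ), IsOpen (U : Set G) → IsArtin θ → D U θ = 1

/-- `D` is trivial on the linear characters (with open kernel) of the open subgroups with the property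
`P`. -/
def HoldsLinear (P : Subgroup G → Prop) (D : (U : Subgroup G) → (U → ℂ) → ℂˣ) : Prop :=
  ∀ (U : Subgroup G) (χ : U →* ℂˣ), IsOpen (U : Set G) → IsOpen {u : U | χ u = 1} → P U →
    D U (lin χ) = 1

/-- `D` is trivial on the linear characters of order `2^k ≥ 4` (with open kernel) of the open
subgroups with the property `P`. -/
def HoldsTwoPower (P : Subgroup G → Prop) (D : (U : Subgroup G) → (U → ℂ) → ℂˣ) : Prop :=
  ∀ (U : Subgroup G) (χ : U →* ℂˣ), IsOpen (U : Set G) → IsOpen {u : U | χ u = 1} → P U →
    (∃ k : ℕ, χ ^ 2 ^ k = 1) → χ ^ 2 ≠ 1 → D U (lin χ) = 1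

/-- The values of `D` on all Artin characters of all open subgroups are roots of unity of `2`-power
order. -/
def HoldsUpToTwo (D : (U : Subgroup G) → (U → ℂ) → ℂˣ) : Prop :=
  ∀ (U : Subgroup G) (θ : U → ℂ), IsOpen (U : Set G) → IsArtin θ → ∃ k : ℕ, D U θ ^ 2 ^ k = 1

/-- The fixed field of the subgroup `U` of the absolute Galois group of `ℚ` is totally complex. -/
def TotallyComplex (U : Subgroup GalQ) : Prop := ∀ c : GalQ, IsConjugation c → c ∉ U

end Pool.Agent.Y691.ST
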