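import Pool.Agent.Y691.ST.Conj

/-!
# Decomposition groups of different places of an algebraic closure intersect trivially
-/

set_option autoImplicit false

namespace Pool.Agent.Y691.ST

open Polynomial

/-- periodicity -/
lemma exists_period (σ : GalQ) (b : Qbar) : ∃ n : ℕ, 0 < n ∧ (σ ^ n) b = b := by
  have hfin : Finite ((minpoly ℚ b).rootSet Qbar) := inferInstance
  have hmem : ∀ n : ℕ, (σ ^ n) b ∈ (minpoly ℚ b).rootSet Qbar := by
    intro n
    rw [mem_rootSet]
    refine ⟨minpoly.ne_zero (Algebra.IsIntegral.isIntegral b), ?_⟩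
    have h1 := aeval_algHom_apply ((σ ^ n : GalQ) : Qbar →ₐ[ℚ] Qbar) b (minpoly ℚ b)
    rw [minpoly.aeval, map_zero] at h1
    exact h1
  obtain ⟨i, j, hij, h⟩ := Finite.exists_ne_map_eq_of_infinite
    (fun n : ℕ => (⟨(σ ^ n) b, hmem n⟩ : (minpoly ℚ b).rootSet Qbar))
  have h1 : (σ ^ i) b = (σ ^ j) b := congrArg Subtype.val h
  have key : ∀ i j : ℕ, i < j → (σ ^ i) b = (σ ^ j) b → ∃ n : ℕ, 0 < n ∧ (σ ^ n) b = b := by
    intro i j hlt h
    refine ⟨j - i, by omega, ?_⟩
    apply (σ ^ i).injective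
    have h2 : (σ ^ i) ((σ ^ (j - i)) b) = (σ ^ j) b := by
      have h3 : σ ^ i * σ ^ (j - i) = σ ^ j := by
        rw [← pow_add]
        congr 1
        omega
      rw [← h3]
      rfl
    rw [h2, h]
  rcases lt_or_gt_of_ne hij with h2 | h2
  · exact key i j h2 h1
  · exact key j i h2 h1.symm

lemma inv_pow {v : AbsoluteValue Qbar ℝ} {σ : GalQ} (hv : ∀ x, v (σ x) = v x) (n : ℕ) (x : Qbar) :
    v ((σ ^ n) x) = v x := by
  induction n with
  | zero => rfl
  | succ n ih =>
    rw [pow_succ']
    show v (σ ((σ ^ n) x)) = v x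
    rw [hv, ih]

/-- an element fixed by `σ` which is large at `v` and small at `w` -/
lemma exists_fixed {v w : AbsoluteValue Qbar ℝ} {σ : GalQ} (hv : ∀ x, v (σ x) = v x)
    (hw : ∀ x, w (σ x) = w x) {b : Qbar} (h1 : 1 < v b) (h2 : w b < 1) :
    ∃ a : Qbar, σ a = a ∧ 1 < v a ∧ w a < 1 := by
  obtain ⟨n, hn, hb⟩ := exists_period σ b
  have hb0 : b ≠ 0 := by
    rintro rfl
    rw [map_zero] at h1
    linarith
  refine ⟨∏ k ∈ Finset.range n, (σ ^ k) b, ?_, ?_, ?_⟩
  · rw [map_prod]
    have h3 : ∏ k ∈ Finset.range (n + 1), (σ ^ k) b = (∏ k ∈ Finset.range n, (σ ^ k) b) * b := by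
      rw [Finset.prod_range_succ, hb]
    have h4 : ∏ k ∈ Finset.range (n + 1), (σ ^ k) b =
        (∏ k ∈ Finset.range n, σ ((σ ^ k) b)) * b := by
      rw [Finset.prod_range_succ']
      congr 1
      refine Finset.prod_congr rfl fun k _ => ?_
      rw [pow_succ']
      rfl
    exact mul_right_cancel₀ hb0 (h4.symm.trans h3)
  · rw [map_prod, Finset.prod_congr rfl fun k _ => inv_pow hv k b, Finset.prod_const,
      Finset.card_range]
    exact one_lt_pow₀ h1 hn.ne'
  · rw [map_prod, Finset.prod_congr rfl fun k _ => inv_pow hw k b, Finset.prod_const,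
      Finset.card_range]
    exact pow_lt_one₀ (w.nonneg _) h2 hn.ne'

/-- an element fixed by `σ` which is close to `0` at `v` and to `1` at `w` -/
lemma exists_close {v w : AbsoluteValue Qbar ℝ} {σ : GalQ} {a : Qbar} (ha : σ a = a) (h1 : 1 < v a)
    (h2 : w a < 1) {ε : ℝ} (hε : 0 < ε) : ∃ t : Qbar, σ t = t ∧ v t < ε ∧ w (1 - t) < ε := by
  obtain ⟨m₁, hm₁⟩ := pow_unbounded_of_one_lt (1 + 1 / ε) h1
  obtain ⟨m₂, hm₂⟩ := exists_pow_lt_of_lt_one (show 0 < min (1 / 2) (ε / 2) by positivity) h2
  let m := max m₁ m₂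
  have hv : 1 + 1 / ε < v a ^ m := hm₁.trans_le (pow_le_pow_right₀ h1.le (le_max_left _ _))
  have hw : w a ^ m < min (1 / 2) (ε / 2) :=
    (pow_le_pow_of_le_one (w.nonneg _) h2.le (le_max_right _ _)).trans_lt hm₂
  have hw1 := hw.trans_le (min_le_left _ _)
  have hw2 := hw.trans_le (min_le_right _ _)
  have h3 : v a ^ m ≤ v (1 + a ^ m) + 1 := by
    have h4 := v.add_le (1 + a ^ m) (-1)
    have h5 : 1 + a ^ m + -1 = a ^ m := by ring
    rw [h5, map_pow, v.map_neg, map_one] at h4
    exact h4
  have h4 : 1 / ε < v (1 + a ^ m) := by linarith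
  have hpos : 0 < v (1 + a ^ m) := lt_trans (by positivity) h4
  have hne : 1 + a ^ m ≠ 0 := v.pos_iff.mp hpos
  have h5 : 1 ≤ w (1 + a ^ m) + w a ^ m := by
    have h6 := w.add_le (1 + a ^ m) (-a ^ m)
    have h7 : 1 + a ^ m + -a ^ m = 1 := by ring
    rw [h7, w.map_neg, map_pow, map_one] at h6
    exact h6
  have h6 : 1 / 2 < w (1 + a ^ m) := by linarith
  refine ⟨(1 + a ^ m)⁻¹, ?_, ?_, ?_⟩
  · rw [map_inv₀, map_add, map_one, map_pow, ha]
  · rw [map_inv₀]
    rw [inv_lt_comm₀ hpos hε]
    rwa [one_div] at h4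
  · have h7 : 1 - (1 + a ^ m)⁻¹ = a ^ m * (1 + a ^ m)⁻¹ := by
      field_simp
      ring
    rw [h7, map_mul, map_pow, map_inv₀, ← div_eq_mul_inv, div_lt_iff₀ (by linarith)]
    nlinarith

/-- a root close to a point where the value is small -/
lemma exists_root_close {v : AbsoluteValue Qbar ℝ} {g : Qbar[X]} (hg : g.Monic) {n : ℕ}
    (hn : g.natDegree = n) {x : Qbar} {ε : ℝ} (hε : 0 < ε) (h : v (g.eval x) < ε ^ n) :
    ∃ β ∈ g.roots, v (x - β) < ε := by
  have hs := IsAlgClosed.splits g
  by_contra hcon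
  push Not at hcon
  have h1 : g = (g.roots.map fun a => X - C a).prod := by
    have := hs.eq_prod_roots
    rwa [hg.leadingCoeff, C_1, one_mul] at this
  have hcard : Multiset.card g.roots = n := by
    rw [← hn]
    exact hs.natDegree_eq_card_roots.symm
  have h2 : v (g.eval x) = (g.roots.map fun a => v (x - a)).prod := by
    conv_lhs => rw [h1]
    rw [eval_multiset_prod, Multiset.map_map, map_multiset_prod, Multiset.map_map]
    congr 1
    refine Multiset.map_congr rfl fun a _ => ?_
    simp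
  have h3 : ∀ s : Multiset Qbar, (∀ β ∈ s, ε ≤ v (x - β)) →
      ε ^ Multiset.card s ≤ (s.map fun a => v (x - a)).prod := by
    intro s
    induction s using Multiset.induction_on with
    | empty => intro _; simp
    | cons a s ih =>
      intro hs
      rw [Multiset.card_cons, Multiset.map_cons, Multiset.prod_cons, pow_succ']
      exact mul_le_mul (hs a (Multiset.mem_cons_self _ _))
        (ih fun β hβ => hs β (Multiset.mem_cons_of_mem hβ)) (by positivity) (v.nonneg _)
  have h4 := h3 g.roots hcon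
  rw [hcard, ← h2] at h4
  linarith

/-- **A theorem of F. K. Schmidt.** An automorphism which preserves two inequivalent absolute values is
trivial. -/
theorem schmidt {v w : AbsoluteValue Qbar ℝ} (hv : v.IsNontrivial) (hw : w.IsNontrivial)
    (hvw : ¬ v.IsEquiv w) {σ : GalQ} (h1 : ∀ x, v (σ x) = v x) (h2 : ∀ x, w (σ x) = w x) : σ = 1 := by
  classical
  obtain ⟨b, hb1, hb2⟩ := AbsoluteValue.exists_one_lt_lt_one_of_not_isEquiv hv hw hvw
  obtain ⟨a, ha, ha1, ha2⟩ := exists_fixed h1 h2 hb1 hb2
  by_contra hσ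
  obtain ⟨α, hα⟩ : ∃ α, σ α ≠ α := by
    by_contra hcon
    push Not at hcon
    exact hσ (AlgEquiv.ext hcon)
  let f : Qbar[X] := (minpoly ℚ α).map (algebraMap ℚ Qbar)
  have hint : IsIntegral ℚ α := Algebra.IsIntegral.isIntegral α
  have hf : f.Monic := (minpoly.monic hint).map _
  let n := f.natDegree
  have hn : 0 < n := by
    show 0 < ((minpoly ℚ α).map (algebraMap ℚ Qbar)).natDegree
    rw [natDegree_map]
    exact minpoly.natDegree_pos hint
  let h : Qbar[X] := ∏ i ∈ Finset.range n, (X - C (i : Qbar))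
  have hh : h.Monic := monic_prod_of_monic _ _ fun i _ => monic_X_sub_C _
  have hhn : h.natDegree = n := by
    show (∏ i ∈ Finset.range n, (X - C (i : Qbar))).natDegree = n
    rw [natDegree_prod_of_monic _ _ fun i _ => monic_X_sub_C _,
      Finset.sum_congr rfl fun i _ => natDegree_X_sub_C _]
    simp
  have hfα : f.eval α = 0 := by
    show ((minpoly ℚ α).map (algebraMap ℚ Qbar)).eval α = 0
    rw [eval_map_algebraMap, minpoly.aeval]
  have hhi : ∀ i ∈ Finset.range n, h.eval (i : Qbar) = 0 := by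
    intro i hi
    show (∏ i ∈ Finset.range n, (X - C (i : Qbar))).eval (i : Qbar) = 0
    rw [eval_prod]
    exact Finset.prod_eq_zero hi (by simp)
  -- separation
  obtain ⟨δ, hδ, hsep⟩ : ∃ δ : ℝ, 0 < δ ∧ ∀ i ∈ Finset.range n, ∀ j ∈ Finset.range n, i ≠ j →
      2 * δ ≤ w ((i : Qbar) - j) := by
    let s : Finset ℝ := ((Finset.range n ×ˢ Finset.range n).filter fun q => q.1 ≠ q.2).image
      fun q => w ((q.1 : Qbar) - q.2)
    by_cases hs : s.Nonempty
    · refine ⟨s.min' hs / 2, ?_, ?_⟩
      · have h3 := s.min'_mem hs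
        obtain ⟨q, hq, hq2⟩ := Finset.mem_image.mp h3
        rw [← hq2]
        have h4 : (q.1 : Qbar) - q.2 ≠ 0 := by
          rw [sub_ne_zero]
          exact_mod_cast (Finset.mem_filter.mp hq).2
        have := w.pos h4
        positivity
      · intro i hi j hj hij
        have h3 : w ((i : Qbar) - j) ∈ s := Finset.mem_image.mpr
          ⟨(i, j), Finset.mem_filter.mpr ⟨Finset.mk_mem_product hi hj, hij⟩, rfl⟩
        have := s.min'_le _ h3
        linarith
    · refine ⟨1, one_pos, ?_⟩
      intro i hi j hj hij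
      exact absurd ⟨_, Finset.mem_image.mpr
        ⟨(i, j), Finset.mem_filter.mpr ⟨Finset.mk_mem_product hi hj, hij⟩, rfl⟩⟩ hs
  let ε : ℝ := v (α - σ α) / 2
  have hε : 0 < ε := by
    have : 0 < v (α - σ α) := v.pos (sub_ne_zero.mpr hα.symm)
    positivity
  -- the element `t`
  obtain ⟨η, hη, hη1, hη2⟩ : ∃ η : ℝ, 0 < η ∧ η * v (h.eval α) < ε ^ n ∧
      ∀ i ∈ Finset.range n, η * w (f.eval (i : Qbar)) < δ ^ n := by
    let Cst : ℝ := v (h.eval α) + ∑ i ∈ Finset.range n, w (f.eval (i : Qbar)) + 1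
    have hsum : 0 ≤ ∑ i ∈ Finset.range n, w (f.eval (i : Qbar)) :=
      Finset.sum_nonneg fun i _ => w.nonneg _
    have hC : 0 < Cst := by
      have := v.nonneg (h.eval α)
      positivity
    have hmin : 0 < min (ε ^ n) (δ ^ n) := by positivity
    refine ⟨min (ε ^ n) (δ ^ n) / Cst, by positivity, ?_, ?_⟩
    · have h3 : v (h.eval α) < Cst := by
        show _ < v (h.eval α) + ∑ i ∈ Finset.range n, w (f.eval (i : Qbar)) + 1
        linarith
      calc min (ε ^ n) (δ ^ n) / Cst * v (h.eval α) < min (ε ^ n) (δ ^ n) / Cst * Cst := by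
            gcongr
        _ = min (ε ^ n) (δ ^ n) := by field_simp
        _ ≤ ε ^ n := min_le_left _ _
    · intro i hi
      have h3 : w (f.eval (i : Qbar)) < Cst := by
        have h4 := Finset.single_le_sum (f := fun i : ℕ => w (f.eval (i : Qbar)))
          (fun i _ => w.nonneg _) hi
        have h5 := v.nonneg (h.eval α)
        show _ < v (h.eval α) + ∑ i ∈ Finset.range n, w (f.eval (i : Qbar)) + 1
        linarith
      calc min (ε ^ n) (δ ^ n) / Cst * w (f.eval (i : Qbar)) <
            min (ε ^ n) (δ ^ n) / Cst * Cst := by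
            gcongr
        _ = min (ε ^ n) (δ ^ n) := by field_simp
        _ ≤ δ ^ n := min_le_right _ _
  obtain ⟨t, ht, ht1, ht2⟩ := exists_close ha ha1 ha2 hη
  let g : Qbar[X] := C (1 - t) * f + C t * h
  have hgn : g.natDegree = n ∧ g.Monic := by
    have h3 : g.coeff n = 1 := by
      show (C (1 - t) * f + C t * h).coeff n = 1
      rw [coeff_add, coeff_C_mul, coeff_C_mul]
      have h4 : f.coeff n = 1 := hf.coeff_natDegree
      have h5 : h.coeff n = 1 := by
        rw [← hhn]
        exact hh.coeff_natDegree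
      rw [h4, h5]
      ring
    have h4 : g.natDegree ≤ n := by
      refine natDegree_add_le_of_degree_le ?_ ?_
      · exact (natDegree_C_mul_le _ _).trans le_rfl
      · exact (natDegree_C_mul_le _ _).trans hhn.le
    exact ⟨natDegree_eq_of_le_of_coeff_ne_zero h4 (by rw [h3]; exact one_ne_zero),
      monic_of_natDegree_le_of_coeff_eq_one n h4 h3⟩
  obtain ⟨hgn, hgm⟩ := hgn
  have hg0 : g ≠ 0 := hgm.ne_zero
  -- `σ` permutes the roots
  have hroot : ∀ β ∈ g.roots, σ β ∈ g.roots := by
    intro β hβ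
    rw [mem_roots hg0, IsRoot.def] at hβ ⊢
    have h3 : g.eval (σ β) = σ (g.eval β) := by
      have h4 : f.eval (σ β) = σ (f.eval β) := by
        show ((minpoly ℚ α).map (algebraMap ℚ Qbar)).eval (σ β) =
          σ (((minpoly ℚ α).map (algebraMap ℚ Qbar)).eval β)
        rw [eval_map_algebraMap, eval_map_algebraMap]
        exact (aeval_algHom_apply (σ : Qbar →ₐ[ℚ] Qbar) β (minpoly ℚ α))
      have h5 : h.eval (σ β) = σ (h.eval β) := by
        show (∏ i ∈ Finset.range n, (X - C (i : Qbar))).eval (σ β) =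
          σ ((∏ i ∈ Finset.range n, (X - C (i : Qbar))).eval β)
        rw [eval_prod, eval_prod, map_prod]
        refine Finset.prod_congr rfl fun i _ => ?_
        rw [eval_sub, eval_sub, eval_X, eval_X, eval_C, eval_C, map_sub, map_natCast]
      show (C (1 - t) * f + C t * h).eval (σ β) = σ ((C (1 - t) * f + C t * h).eval β)
      rw [eval_add, eval_mul, eval_mul, eval_C, eval_C, eval_add, eval_mul, eval_mul, eval_C, eval_C,
        h4, h5, map_add, map_mul, map_mul, map_sub, map_one, ht]
    rw [h3, hβ, map_zero]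
  -- the roots near the points `i`
  have hclose : ∀ i ∈ Finset.range n, ∃ β ∈ g.roots, w ((i : Qbar) - β) < δ := by
    intro i hi
    refine exists_root_close hgm hgn hδ ?_
    have h3 : g.eval (i : Qbar) = (1 - t) * f.eval (i : Qbar) := by
      show (C (1 - t) * f + C t * h).eval (i : Qbar) = _
      rw [eval_add, eval_mul, eval_mul, eval_C, eval_C, hhi i hi]
      ring
    rw [h3, map_mul]
    refine lt_of_le_of_lt ?_ (hη2 i hi)
    gcongr
  choose! β hβ hβc using hclose
  have hinj : Set.InjOn β (Finset.range n : Set ℕ) := by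
    intro i hi j hj hij
    by_contra hne
    have h3 := hsep i hi j hj hne
    have h4 := w.sub_le (i : Qbar) (β i) j
    have h5 : w (β i - j) = w ((j : Qbar) - β j) := by
      rw [hij, w.map_sub]
    rw [h5] at h4
    have h6 := hβc i hi
    have h7 := hβc j hj
    linarith
  have himage : (Finset.range n).image β = g.roots.toFinset := by
    apply Finset.eq_of_subset_of_card_le
    · intro y hy
      obtain ⟨i, hi, rfl⟩ := Finset.mem_image.mp hy
      exact Multiset.mem_toFinset.mpr (hβ i hi)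
    · rw [Finset.card_image_of_injOn hinj, Finset.card_range]
      have h3 := Multiset.toFinset_card_le g.roots
      have h4 := card_roots' g
      omega
  have hfix : ∀ y ∈ g.roots, σ y = y := by
    intro y hy
    have h3 : y ∈ (Finset.range n).image β := by
      rw [himage]
      exact Multiset.mem_toFinset.mpr hy
    have h4 : σ y ∈ (Finset.range n).image β := by
      rw [himage]
      exact Multiset.mem_toFinset.mpr (hroot y hy)
    obtain ⟨i, hi, rfl⟩ := Finset.mem_image.mp h3
    obtain ⟨j, hj, hj2⟩ := Finset.mem_image.mp h4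
    have h5 : i = j := by
      by_contra hne
      have h6 := hsep i hi j hj hne
      have h7 : w ((i : Qbar) - σ (β i)) < δ := by
        have h8 : (i : Qbar) - σ (β i) = σ ((i : Qbar) - β i) := by
          rw [map_sub, map_natCast]
        rw [h8, h2]
        exact hβc i hi
      have h8 := w.sub_le (i : Qbar) (σ (β i)) j
      have h9 : w (σ (β i) - j) = w ((j : Qbar) - β j) := by
        rw [← hj2, w.map_sub]
      rw [h9] at h8
      have := hβc j hj
      linarith
    rw [← hj2, h5]
  -- a root near `α`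
  obtain ⟨y, hy, hyc⟩ := exists_root_close (v := v) (x := α) hgm hgn hε (by
    have h3 : g.eval α = t * h.eval α := by
      show (C (1 - t) * f + C t * h).eval α = _
      rw [eval_add, eval_mul, eval_mul, eval_C, eval_C, hfα]
      ring
    rw [h3, map_mul]
    refine lt_of_le_of_lt ?_ hη1
    gcongr)
  have h3 : v (y - σ α) = v (α - y) := by
    have h4 : y - σ α = σ (y - α) := by
      rw [map_sub, hfix y hy]
    rw [h4, h1, v.map_sub]
  have h4 := v.sub_le α y (σ α)
  rw [h3] at h4
  have h5 : v (α - y) < v (α - σ α) / 2 := hyc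
  linarith

end Pool.Agent.Y691.ST
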