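import Pool.Agent.Y691.ST.SplitDefs
import Pool.Agent.Y691.ST.Places

/-!
# Decomposition groups in finite quotients
-/

set_option autoImplicit false

namespace Pool.Agent.Y691.ST

lemma isOpen_apply (x y : Qbar) : IsOpen {σ : GalQ | σ x = y} := by
  rw [isOpen_iff_mem_nhds]
  intro σ hσ
  have hx : IsIntegral ℚ x := Algebra.IsIntegral.isIntegral x
  have : FiniteDimensional ℚ (IntermediateField.adjoin ℚ {x}) :=
    IntermediateField.adjoin.finiteDimensional hx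
  have h1 : IsOpen ((IntermediateField.adjoin ℚ {x}).fixingSubgroup : Set GalQ) :=
    IntermediateField.fixingSubgroup_isOpen _
  have h2 : IsOpen ((fun τ : GalQ => σ⁻¹ * τ) ⁻¹'
      ((IntermediateField.adjoin ℚ {x}).fixingSubgroup : Set GalQ)) :=
    h1.preimage (continuous_const_mul σ⁻¹)
  refine Filter.mem_of_superset (h2.mem_nhds ?_) ?_
  · show σ⁻¹ * σ ∈ (IntermediateField.adjoin ℚ {x}).fixingSubgroup
    rw [inv_mul_cancel]
    exact Subgroup.one_mem _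
  · intro τ hτ
    have h3 : σ⁻¹ * τ ∈ (IntermediateField.adjoin ℚ {x}).fixingSubgroup := hτ
    rw [IntermediateField.mem_fixingSubgroup_iff] at h3
    have h4 : (σ⁻¹ * τ) x = x := h3 x (IntermediateField.mem_adjoin_simple_self ℚ x)
    have h5 : σ ((σ⁻¹ * τ) x) = τ x := by
      show (σ * (σ⁻¹ * τ)) x = τ x
      rw [mul_inv_cancel_left]
    show τ x = y
    rw [← h5, h4]
    exact hσ

/-- decomposition groups are closed -/
lemma isClosed_dec (v : AbsoluteValue Qbar ℝ) : IsClosed (Dec v : Set GalQ) := by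
  have h1 : ((Dec v : Set GalQ))ᶜ = ⋃ x : Qbar, ⋃ y ∈ {y : Qbar | v y ≠ v x}, {σ : GalQ | σ x = y} := by
    ext σ
    simp only [Set.mem_compl_iff, Set.mem_iUnion, Set.mem_setOf_eq, exists_prop]
    constructor
    · intro h
      by_contra hcon
      push Not at hcon
      apply h
      intro x
      by_contra h2
      exact hcon x (σ x) h2 rfl
    · rintro ⟨x, y, hy, rfl⟩ h
      exact hy (h x)
  rw [← isOpen_compl_iff, h1]
  exact isOpen_iUnion fun x => isOpen_biUnion fun y _ => isOpen_apply x y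

/-- decomposition groups are malnormal -/
lemma dec_malnormal {v : AbsoluteValue Qbar ℝ} {a : ℚ} (ha : 1 < v (a : Qbar)) {y σ : GalQ}
    (h1 : σ ∈ Dec v) (h2 : σ ≠ 1) (h3 : y⁻¹ * σ * y ∈ Dec v) : y ∈ Dec v := by
  let w : AbsoluteValue Qbar ℝ := v.comp (f := ((y⁻¹ : GalQ) : Qbar →+* Qbar)) (RingHom.injective _)
  have hw : ∀ x, w x = v (y⁻¹ x) := fun x => rfl
  have ha0 : (a : Qbar) ≠ 0 := by
    intro h
    rw [h, map_zero] at ha
    linarith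
  have hwa : w (a : Qbar) = v (a : Qbar) := by
    rw [hw]
    congr 1
    exact map_ratCast _ a
  have hvn : v.IsNontrivial := ⟨a, ha0, ha.ne'⟩
  have hwn : w.IsNontrivial := ⟨a, ha0, by rw [hwa]; exact ha.ne'⟩
  have hws : ∀ x, w (σ x) = w x := by
    intro x
    rw [hw, hw]
    have h4 := h3 (y⁻¹ x)
    have h5 : (y⁻¹ * σ * y) (y⁻¹ x) = y⁻¹ (σ x) := by
      show (y⁻¹ * σ * y * y⁻¹) x = (y⁻¹ * σ) x
      rw [mul_inv_cancel_right]
    rw [h5] at h4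
    exact h4
  have heq : v.IsEquiv w := by
    by_contra hne
    exact h2 (schmidt hvn hwn hne h1 hws)
  obtain ⟨c, hc, hcw⟩ := AbsoluteValue.isEquiv_iff_exists_rpow_eq.mp heq
  have h6 : v (a : Qbar) ^ c = v (a : Qbar) := by
    have h7 := congrFun hcw (a : Qbar)
    rw [hwa] at h7
    exact h7
  have hc1 : c = 1 := by
    have h8 : v (a : Qbar) ^ c = v (a : Qbar) ^ (1 : ℝ) := by rw [h6, Real.rpow_one]
    have h9 := congrArg Real.log h8
    rw [Real.log_rpow (by linarith), Real.log_rpow (by linarith)] at h9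
    exact mul_right_cancel₀ (Real.log_pos ha).ne' h9
  have h10 : y⁻¹ ∈ Dec v := by
    intro x
    have h11 := congrFun hcw x
    simp only [hc1, Real.rpow_one] at h11
    rw [← hw, ← h11]
  exact inv_inv y ▸ (Dec v).inv_mem h10

section

variable {G : Type} [Group G] [TopologicalSpace G] [IsTopologicalGroup G] [CompactSpace G]
  [TotallyDisconnectedSpace G] [T2Space G]

/-- closed malnormal subgroups in finite quotients -/
lemma level {D : Subgroup G} (hD : IsClosed (D : Set G))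
    (hmal : ∀ y σ, σ ∈ D → σ ≠ 1 → y⁻¹ * σ * y ∈ D → y ∈ D) {N : Subgroup G}
    (hN : IsOpen (N : Set G)) :
    ∃ N' : Subgroup G, N'.Normal ∧ IsOpen (N' : Set G) ∧ N' ≤ N ∧
      ∀ y σ τ n, σ ∈ D → σ ∉ N → τ ∈ D → n ∈ N' → y⁻¹ * σ * y = τ * n → y ∈ D ⊔ N := by
  let Z : Set (G × G × G) := {q | q.1 ∉ D ⊔ N ∧ q.2.1 ∈ D ∧ q.2.1 ∉ N ∧ q.2.2 ∈ D}
  have hDN : IsOpen ((D ⊔ N : Subgroup G) : Set G) := Subgroup.isOpen_mono le_sup_right hN
  have hZ : IsCompact Z := by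
    refine IsClosed.isCompact ?_
    have h1 : IsClosed {q : G × G × G | q.1 ∉ D ⊔ N} := hDN.isClosed_compl.preimage continuous_fst
    have h2 : IsClosed {q : G × G × G | q.2.1 ∈ D} := hD.preimage (by fun_prop)
    have h3 : IsClosed {q : G × G × G | q.2.1 ∉ N} := hN.isClosed_compl.preimage (by fun_prop)
    have h4 : IsClosed {q : G × G × G | q.2.2 ∈ D} := hD.preimage (by fun_prop)
    exact h1.inter (h2.inter (h3.inter h4))
  let F : G × G × G → G := fun q => q.2.2⁻¹ * (q.1⁻¹ * q.2.1 * q.1)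
  have hF : Continuous F := by fun_prop
  have hW : IsCompact (F '' Z) := hZ.image hF
  let U : Set G := (N : Set G) ∩ (F '' Z)ᶜ
  have hU : IsOpen U := hN.inter hW.isClosed.isOpen_compl
  have h1U : (1 : G) ∈ U := by
    refine ⟨N.one_mem, ?_⟩
    rintro ⟨⟨y, σ, τ⟩, ⟨h1, h2, h3, h4⟩, h5⟩
    have h6 : y⁻¹ * σ * y = τ := by
      have h7 : τ⁻¹ * (y⁻¹ * σ * y) = 1 := h5
      rwa [inv_mul_eq_one, eq_comm] at h7
    apply h1
    refine Subgroup.mem_sup_left (hmal y σ h2 ?_ (h6 ▸ h4))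
    rintro rfl
    exact h3 N.one_mem
  obtain ⟨H, hH⟩ := ProfiniteGrp.exist_openNormalSubgroup_sub_open_nhds_of_one hU h1U
  refine ⟨H.toSubgroup, H.isNormal', H.isOpen, fun g hg => (hH hg).1, ?_⟩
  intro y σ τ n h1 h2 h3 h4 h5
  by_contra h6
  refine (hH h4).2 ⟨(y, σ, τ), ⟨h6, h1, h2, h3⟩, ?_⟩
  show τ⁻¹ * (y⁻¹ * σ * y) = n
  rw [h5, inv_mul_cancel_left]

/-- the same for finitely many subgroups -/
lemma level_finset {ι : Type} (V : Finset ι) (D : ι → Subgroup G)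
    (hD : ∀ v ∈ V, IsClosed (D v : Set G))
    (hmal : ∀ v ∈ V, ∀ y σ, σ ∈ D v → σ ≠ 1 → y⁻¹ * σ * y ∈ D v → y ∈ D v) {N : Subgroup G}
    [hNn : N.Normal] (hN : IsOpen (N : Set G)) :
    ∃ N' : Subgroup G, N'.Normal ∧ IsOpen (N' : Set G) ∧ N' ≤ N ∧ ∀ v ∈ V,
      ∀ y σ τ n, σ ∈ D v → σ ∉ N → τ ∈ D v → n ∈ N' → y⁻¹ * σ * y = τ * n → y ∈ D v ⊔ N := by
  classical
  induction V using Finset.induction_on with
  | empty => exact ⟨N, hNn, hN, le_rfl, by simp⟩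
  | insert v V _ ih =>
    obtain ⟨N₁, h1, h2, h3, h4⟩ := ih (fun w hw => hD w (Finset.mem_insert_of_mem hw))
      (fun w hw => hmal w (Finset.mem_insert_of_mem hw))
    obtain ⟨N₂, h5, h6, h7, h8⟩ := level (hD v (Finset.mem_insert_self _ _))
      (hmal v (Finset.mem_insert_self _ _)) hN
    refine ⟨N₁ ⊓ N₂, inferInstance, h2.inter h6, inf_le_left.trans h3, ?_⟩
    intro w hw y σ τ n a1 a2 a3 a4 a5
    rcases Finset.mem_insert.mp hw with rfl | hw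
    · exact h8 y σ τ n a1 a2 a3 a4.2 a5
    · exact h4 w hw y σ τ n a1 a2 a3 a4.1 a5

end

/-- **The dichotomy.** -/
theorem dichotomy {V : Finset (AbsoluteValue Qbar ℝ)} {N N' : Subgroup GalQ} [N.Normal]
    [N'.Normal] (hle : N' ≤ N)
    (h : ∀ v ∈ V, ∀ y σ τ n : GalQ, σ ∈ Dec v → σ ∉ N → τ ∈ Dec v → n ∈ N' →
      y⁻¹ * σ * y = τ * n → y ∈ Dec v ⊔ N) {U : Subgroup GalQ} (hU : CyclicMod N' U) :
    (∀ v ∈ V, SplitAt v N U) ∨ ∃ v ∈ V, LocalAt v N U := by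
  by_cases hs : ∀ v ∈ V, SplitAt v N U
  · exact Or.inl hs
  right
  unfold SplitAt at hs
  push Not at hs
  obtain ⟨v, hv, g, σ, hσ, h1, h2⟩ := hs
  obtain ⟨x, hx, hxU⟩ := hU
  have hσN : σ ∉ N := fun h3 => h2 (‹N.Normal›.conj_mem σ h3 g)
  set u := g * σ * g⁻¹ with hu
  obtain ⟨k, hk⟩ := hxU u h1
  -- `x` commutes with `u` modulo `N'`
  have h3 : x * u * x⁻¹ * u⁻¹ ∈ N' := by
    have h4 : x * u * x⁻¹ * u⁻¹ = (x * (u * x ^ k) * x⁻¹) * (u * x ^ k)⁻¹ := by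
      have h5 : x * (u * x ^ k) * x⁻¹ = x * u * x⁻¹ * x ^ k := by
        have hc : x ^ k * x⁻¹ = x⁻¹ * x ^ k := ((Commute.refl x).zpow_left k).inv_right.eq
        simp only [mul_assoc]
        rw [hc]
      rw [h5]
      group
    rw [h4]
    exact N'.mul_mem (‹N'.Normal›.conj_mem _ hk x) (N'.inv_mem hk)
  have h4 : g⁻¹ * x⁻¹ * g ∈ Dec v ⊔ N := by
    refine h v hv _ σ σ (σ⁻¹ * (g⁻¹ * (x * u * x⁻¹ * u⁻¹) * g) * σ) hσ hσN hσ ?_ ?_
    · have h5 := ‹N'.Normal›.conj_mem _ (‹N'.Normal›.conj_mem _ h3 g⁻¹) σ⁻¹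
      rwa [inv_inv, inv_inv] at h5
    · rw [hu]
      group
  refine ⟨v, hv, g, fun u' hu' => ?_⟩
  obtain ⟨k', hk'⟩ := hxU u' hu'
  have h5 : g⁻¹ * u' * g = (g⁻¹ * (u' * x ^ k') * g) * (g⁻¹ * x⁻¹ * g) ^ k' := by
    have h6 : (g⁻¹ * x⁻¹ * g) ^ k' = g⁻¹ * (x ^ k')⁻¹ * g := by
      have h7 := conj_zpow (a := g⁻¹) (b := x⁻¹) (i := k')
      rw [inv_inv] at h7
      rw [h7, inv_zpow]
    rw [h6]
    group
  rw [h5]
  refine Subgroup.mul_mem _ (Subgroup.mem_sup_right (hle ?_)) (Subgroup.zpow_mem _ h4 k')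
  have h6 := ‹N'.Normal›.conj_mem _ hk' g⁻¹
  rwa [inv_inv] at h6

/-- **The dichotomy** for hyperelementary groups. -/
theorem dichotomy_p {V : Finset (AbsoluteValue Qbar ℝ)} {N N' : Subgroup GalQ} [N.Normal]
    [N'.Normal]
    (h : ∀ v ∈ V, ∀ y σ τ n : GalQ, σ ∈ Dec v → σ ∉ N → τ ∈ Dec v → n ∈ N' →
      y⁻¹ * σ * y = τ * n → y ∈ Dec v ⊔ N) {p : ℕ} {K : Subgroup (GalQ ⧸ N')} (hK : CycHyp p K) :
    (∀ v ∈ V, PSplitAt p v N (K.comap (QuotientGroup.mk' N'))) ∨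
      ∃ v ∈ V, LocalAt v N (K.comap (QuotientGroup.mk' N')) := by
  set π := QuotientGroup.mk' N' with hπ
  have hker : π.ker = N' := QuotientGroup.ker_mk' N'
  by_cases hs : ∀ v ∈ V, PSplitAt p v N (K.comap π)
  · exact Or.inl hs
  right
  unfold PSplitAt at hs
  push Not at hs
  obtain ⟨v, hv, g, σ, hσ, h1, h2⟩ := hs
  obtain ⟨C, hCK, hC, hn, hpow⟩ := hK
  obtain ⟨j, hj⟩ := hpow (π (g * σ * g⁻¹)) h1
  have hc0 : (g * σ * g⁻¹) ^ p ^ j = g * σ ^ p ^ j * g⁻¹ := conj_pow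
  have hσj : σ ^ p ^ j ∈ Dec v := (Dec v).pow_mem hσ _
  have hσN : σ ^ p ^ j ∉ N := by
    intro h3
    apply h2 j
    rw [hc0]
    exact ‹N.Normal›.conj_mem _ h3 g
  have hcC : π (g * σ ^ p ^ j * g⁻¹) ∈ C := by
    rw [← hc0, map_pow]
    exact hj
  obtain ⟨⟨z, hz⟩, hgen⟩ := hC.exists_generator
  obtain ⟨k, hk⟩ := Subgroup.mem_zpowers_iff.mp (hgen ⟨_, hcC⟩)
  have hk' : z ^ k = π (g * σ ^ p ^ j * g⁻¹) := congrArg Subtype.val hk
  refine ⟨v, hv, g, fun t ht => ?_⟩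
  obtain ⟨a, ha⟩ := Subgroup.mem_zpowers_iff.mp (hgen ⟨_, hn (π t) ht z hz⟩)
  have ha' : z ^ a = π t * z * (π t)⁻¹ := congrArg Subtype.val ha
  have hconj : π (t * (g * σ ^ p ^ j * g⁻¹) * t⁻¹) = π ((g * σ ^ p ^ j * g⁻¹) ^ a) := by
    rw [map_mul, map_mul, map_inv, map_zpow, ← hk', ← conj_zpow, ← ha', ← zpow_mul, ← zpow_mul,
      mul_comm]
  have hmem : ((g * σ ^ p ^ j * g⁻¹) ^ a)⁻¹ * (t * (g * σ ^ p ^ j * g⁻¹) * t⁻¹) ∈ N' := by
    rw [← hker, MonoidHom.mem_ker, map_mul, map_inv, hconj, inv_mul_cancel]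
  have h4 : g⁻¹ * t⁻¹ * g ∈ Dec v ⊔ N := by
    refine h v hv _ (σ ^ p ^ j) ((σ ^ p ^ j) ^ a)
      (g⁻¹ * (((g * σ ^ p ^ j * g⁻¹) ^ a)⁻¹ * (t * (g * σ ^ p ^ j * g⁻¹) * t⁻¹)) * g) hσj hσN
      ((Dec v).zpow_mem hσj _) ?_ ?_
    · have h5 := ‹N'.Normal›.conj_mem _ hmem g⁻¹
      rwa [inv_inv] at h5
    · rw [conj_zpow]
      group
  have h5 := (Dec v ⊔ N).inv_mem h4
  have h6 : (g⁻¹ * t⁻¹ * g)⁻¹ = g⁻¹ * t * g := by group
  rwa [h6] at h5

end Pool.Agent.Y691.ST
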