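import Pool.Agent.Y691.ST.Conj

/-!
# Invariants of number fields and Brauer relations: definitions
-/

set_option autoImplicit false

namespace Pool.Agent.Y691.ST

/-- The permutation character of `G ⧸ U`: the numbers of fixed points. -/
noncomputable def fix {G : Type} [Group G] (U : Subgroup G) : G → ℤ :=
  fun g => (Nat.card {x : G ⧸ U // g • x = x} : ℤ)

/-- The group `H` is an extension of a `p`-group by a cyclic group. -/
def CycHyp {G : Type} [Group G] (p : ℕ) (H : Subgroup G) : Prop :=
  ∃ C : Subgroup G, C ≤ H ∧ IsCyclic C ∧ (∀ h ∈ H, ∀ y ∈ C, h * y * h⁻¹ ∈ C) ∧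
    ∀ h ∈ H, ∃ j : ℕ, h ^ p ^ j ∈ C

/-- The invariant `B` of the number fields (the open subgroups of the absolute Galois group of `ℚ`) is
compatible with Brauer relations: if `⨁ Ind_{U_i} 1 ≅ ⨁ Ind_{V_j} 1`, then `∑ B(U_i) = ∑ B(V_j)`. -/
def Brauer {A : Type} [AddCommGroup A] (B : Subgroup GalQ → A) : Prop :=
  ∀ l l' : List (Subgroup GalQ), (∀ U ∈ l, IsOpen (U : Set GalQ)) →
    (∀ U ∈ l', IsOpen (U : Set GalQ)) → (l.map fix).sum = (l'.map fix).sum →
    (l.map B).sum = (l'.map B).sum

/-- The fixed field of the subgroup `U` of the absolute Galois group of `ℚ` has no real embedding. -/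
def NoReal (U : Subgroup GalQ) : Prop := ∀ c : GalQ, IsConjugation c → c ∉ U

end Pool.Agent.Y691.ST
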