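import Pool.Agent.Y691.ST.PermDefs
import Pool.Agent.Y691.ST.Fin

/-!
# Brauer relations in finite groups with an isolated class of involutions
-/

set_option autoImplicit false

namespace Pool.Agent.Y691.ST

open Pool.Agent.Y144.DL

variable {Q : Type} [Group Q]

lemma cycHyp_mono {p : ℕ} {H K : Subgroup Q} (h : CycHyp p H) (hK : K ≤ H) : CycHyp p K := by
  obtain ⟨C, hCH, hC, hn, hpow⟩ := h
  refine ⟨C ⊓ K, inf_le_right, ?_, ?_, ?_⟩
  · exact isCyclic_of_injective (Subgroup.inclusion (inf_le_left : C ⊓ K ≤ C))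
      (Subgroup.inclusion_injective _)
  · intro t ht y hy
    exact ⟨hn t (hK ht) y hy.1, K.mul_mem (K.mul_mem ht hy.2) (K.inv_mem ht)⟩
  · intro t ht
    obtain ⟨j, hj⟩ := hpow t (hK ht)
    exact ⟨j, hj, K.pow_mem ht _⟩

lemma cycHyp_map {Q' : Type} [Group Q'] (f : Q →* Q') {p : ℕ} {H : Subgroup Q}
    (h : CycHyp p H) : CycHyp p (H.map f) := by
  obtain ⟨C, hCH, hC, hn, hpow⟩ := h
  refine ⟨C.map f, Subgroup.map_mono hCH, ?_, ?_, ?_⟩
  · exact isCyclic_of_surjective (resMap f C) (resMap_surjective f C)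
  · rintro _ ⟨t, ht, rfl⟩ _ ⟨b, hb, rfl⟩
    exact ⟨t * b * t⁻¹, hn t ht b hb, by rw [map_mul, map_mul, map_inv]⟩
  · rintro _ ⟨t, ht, rfl⟩
    obtain ⟨j, hj⟩ := hpow t ht
    exact ⟨j, t ^ p ^ j, hj, by rw [map_pow]⟩

lemma hyp_of_cycHyp {p : ℕ} {H : Subgroup Q} (h : CycHyp p H) : Hyp (⊥ : Subgroup Q) p H := by
  obtain ⟨C, hCH, hC, hn, hpow⟩ := h
  refine ⟨C, bot_le, hCH, ?_, hn, hpow⟩
  intro x hx y hy
  let := hC.commGroup
  exact congrArg Subtype.val (mul_comm (⟨x, hx⟩ : C) ⟨y, hy⟩)

/-- enough hyperelementary subgroups -/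
theorem exists_FG_cyc [Finite Q] (x : Q) (p : ℕ) (hp : p.Prime) :
    ∃ f ∈ FG (CycHyp (G := Q) p), ¬ (p : ℤ) ∣ f x := by
  classical
  have := Fact.mk hp
  obtain ⟨H, C, hCH, hC, hn, hpow, hdvd⟩ := exists_hyper x p
  refine ⟨fun g => Nat.card {y : Q ⧸ H // g • y = y},
    ⟨Q ⧸ H, Fintype.ofFinite _, inferInstance, ?_, fun g => rfl⟩, ?_⟩
  · intro y
    induction y using QuotientGroup.induction_on with
    | H q =>
      let θ : Q →* Q := (MulAut.conj q⁻¹).toMonoidHom
      have hθ : ∀ g : Q, θ g = q⁻¹ * g * q := by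
        intro g
        show q⁻¹ * g * (q⁻¹)⁻¹ = _
        rw [inv_inv]
      have hinj : Function.Injective θ := (MulAut.conj q⁻¹).injective
      have hstab : MulAction.stabilizer Q (q : Q ⧸ H) = H.comap θ := by
        ext g
        rw [MulAction.mem_stabilizer_iff, Subgroup.mem_comap, hθ]
        have h1 : g • (q : Q ⧸ H) = ((g * q : Q) : Q ⧸ H) := rfl
        rw [h1, eq_comm, QuotientGroup.eq, mul_assoc]
      rw [hstab]
      refine ⟨C.comap θ, Subgroup.comap_mono hCH, ?_, ?_, ?_⟩
      · refine isCyclic_of_injective ((θ.comp (C.comap θ).subtype).codRestrict C fun x => x.2) ?_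
        intro a b hab
        exact Subtype.ext (hinj (congrArg Subtype.val hab))
      · intro t ht b hb
        rw [Subgroup.mem_comap, map_mul, map_mul, map_inv]
        exact hn _ ht _ hb
      · intro t ht
        obtain ⟨j, hj⟩ := hpow (θ t) ht
        refine ⟨j, ?_⟩
        rw [Subgroup.mem_comap, map_pow]
        exact hj
  · intro h1
    apply hdvd
    have h2 : (p : ℤ) ∣ (Nat.card {y : Q ⧸ H // x • y = y} : ℤ) := h1
    exact_mod_cast h2

lemma smul_mk_eq (W : Subgroup Q) (g x : Q) : g • (x : Q ⧸ W) = x ↔ x⁻¹ * g * x ∈ W := by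
  have h1 : g • (x : Q ⧸ W) = ((g * x : Q) : Q ⧸ W) := rfl
  rw [h1, eq_comm, QuotientGroup.eq, mul_assoc]

variable [Finite Q]

/-- the number of fixed points and the number of conjugating elements -/
lemma card_fix (W : Subgroup Q) (g : Q) :
    (Nat.card W : ℤ) * fix W g = (Nat.card {x : Q // x⁻¹ * g * x ∈ W} : ℤ) := by
  classical
  unfold fix
  rw [← Nat.cast_mul, ← Nat.card_prod]
  congr 1
  refine Nat.card_congr ?_
  refine
    { toFun := fun z => ⟨z.2.1.out * z.1, ?_⟩
      invFun := fun y => (⟨((y.1 : Q ⧸ W)).out⁻¹ * y.1, ?_⟩, ⟨(y.1 : Q ⧸ W), ?_⟩)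
      left_inv := ?_
      right_inv := ?_ }
  · have h1 : ((z.2.1.out * z.1 : Q) : Q ⧸ W) = z.2.1 := by
      rw [QuotientGroup.mk_mul_of_mem _ z.1.2, QuotientGroup.out_eq']
    rw [← smul_mk_eq, h1]
    exact z.2.2
  · rw [← QuotientGroup.eq, QuotientGroup.out_eq']
  · rw [smul_mk_eq]
    exact y.2
  · rintro ⟨w, x, hx⟩
    have h1 : ((x.out * w : Q) : Q ⧸ W) = x := by
      rw [QuotientGroup.mk_mul_of_mem _ w.2, QuotientGroup.out_eq']
    refine Prod.ext (Subtype.ext ?_) (Subtype.ext h1)
    show (((x.out * w : Q) : Q ⧸ W)).out⁻¹ * (x.out * w) = w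
    rw [h1]
    group
  · rintro ⟨y, hy⟩
    apply Subtype.ext
    show ((y : Q ⧸ W)).out * (((y : Q ⧸ W)).out⁻¹ * y) = y
    group

lemma fix_conj (W : Subgroup Q) (g a : Q) : fix W (a⁻¹ * g * a) = fix W g := by
  unfold fix
  congr 1
  refine Nat.card_congr ?_
  refine
    { toFun := fun x => ⟨a • x.1, ?_⟩
      invFun := fun x => ⟨a⁻¹ • x.1, ?_⟩
      left_inv := fun x => Subtype.ext (inv_smul_smul a _)
      right_inv := fun x => Subtype.ext (smul_inv_smul a _) }
  · have h1 := x.2
    rw [mul_smul, mul_smul, inv_smul_eq_iff] at h1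
    exact h1
  · rw [mul_smul, mul_smul, inv_smul_eq_iff, smul_inv_smul]
    exact x.2

omit [Finite Q] in
lemma fix_top : fix (⊤ : Subgroup Q) = 1 := by
  funext g
  unfold fix
  have : Unique (Q ⧸ (⊤ : Subgroup Q)) := by
    have : Subsingleton (Q ⧸ (⊤ : Subgroup Q)) := QuotientGroup.subsingleton_quotient_top
    exact Unique.mk' _
  have h1 : Nat.card {x : Q ⧸ (⊤ : Subgroup Q) // g • x = x} = 1 := by
    rw [Nat.card_eq_one_iff_unique]
    exact ⟨⟨fun a b => Subtype.ext (Subsingleton.elim _ _)⟩, ⟨⟨default, Subsingleton.elim _ _⟩⟩⟩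
  rw [h1]
  rfl

/-- the decomposition of a finite set with an action in orbits -/
lemma orbit_list (X : Type) [Finite X] [MulAction Q X] :
    ∃ l : List (Subgroup Q), (∀ T ∈ l, ∃ x : X, T = MulAction.stabilizer Q x) ∧
      ∀ g : Q, (Nat.card {x : X // g • x = x} : ℤ) = (l.map fix).sum g := by
  classical
  have := Fintype.ofFinite X
  let Ω := MulAction.orbitRel.Quotient Q X
  have : Fintype Ω := Fintype.ofFinite _
  let φ : Ω → X := Quotient.out
  refine ⟨(Finset.univ : Finset Ω).toList.map fun ω => MulAction.stabilizer Q (φ ω), ?_, ?_⟩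
  · intro T hT
    obtain ⟨ω, _, rfl⟩ := List.mem_map.mp hT
    exact ⟨φ ω, rfl⟩
  · intro g
    have h1 : ((((Finset.univ : Finset Ω).toList.map fun ω =>
        MulAction.stabilizer Q (φ ω)).map fix).sum : Q → ℤ) g =
        ∑ ω : Ω, fix (MulAction.stabilizer Q (φ ω)) g := by
      rw [List.map_map, Finset.sum_map_toList Finset.univ, Finset.sum_apply]
      rfl
    rw [h1]
    unfold fix
    rw [← Nat.cast_sum]
    congr 1
    rw [← Nat.card_sigma]
    refine (Nat.card_congr (Equiv.ofBijective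
      (fun z : Σ ω : Ω, {y : Q ⧸ MulAction.stabilizer Q (φ ω) // g • y = y} =>
        (⟨MulAction.ofQuotientStabilizer Q (φ z.1) z.2.1, ?_⟩ : {x : X // g • x = x})) ?_)).symm
    · rw [← MulAction.ofQuotientStabilizer_smul, z.2.2]
    · constructor
      · rintro ⟨ω, y, hy⟩ ⟨ω', y', hy'⟩ h
        have h2 : MulAction.ofQuotientStabilizer Q (φ ω) y =
            MulAction.ofQuotientStabilizer Q (φ ω') y' := congrArg Subtype.val h
        have h3 : ∀ (ω : Ω) (y : Q ⧸ MulAction.stabilizer Q (φ ω)),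
            (Quotient.mk'' (MulAction.ofQuotientStabilizer Q (φ ω) y) : Ω) = ω := by
          intro ω y
          have h4 : (Quotient.mk'' (MulAction.ofQuotientStabilizer Q (φ ω) y) : Ω) =
              Quotient.mk'' (φ ω) :=
            Quotient.sound' (MulAction.ofQuotientStabilizer_mem_orbit Q (φ ω) y)
          rw [h4]
          exact Quotient.out_eq' ω
        have h5 : ω = ω' := by
          rw [← h3 ω y, h2, h3]
        subst h5
        have h6 := MulAction.injective_ofQuotientStabilizer Q (φ ω) h2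
        subst h6
        rfl
      · rintro ⟨x, hx⟩
        let ω : Ω := Quotient.mk'' x
        have h2 : x ∈ MulAction.orbit Q (φ ω) := by
          have h3 : (Quotient.mk'' (φ ω) : Ω) = Quotient.mk'' x := Quotient.out_eq' ω
          exact MulAction.orbitRel_apply.mp (Quotient.exact' h3.symm)
        obtain ⟨a, ha⟩ := h2
        have h4 : MulAction.ofQuotientStabilizer Q (φ ω) (a : Q ⧸ MulAction.stabilizer Q (φ ω)) = x :=
          ha
        refine ⟨⟨ω, (a : Q ⧸ MulAction.stabilizer Q (φ ω)), ?_⟩, Subtype.ext h4⟩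
        apply MulAction.injective_ofQuotientStabilizer Q (φ ω)
        rw [MulAction.ofQuotientStabilizer_smul, h4, hx]

/-- the value `a` of the invariant `B` on the permutation character `f` -/
def Val {A : Type} [AddCommGroup A] (B : Subgroup Q → A) (f : Q → ℤ) (a : A) : Prop :=
  ∃ l : List (Subgroup Q), f = (l.map fix).sum ∧ a = (l.map B).sum

section

variable {A : Type} [AddCommGroup A] {B : Subgroup Q → A}

omit [Finite Q]

lemma Val.add {f f' : Q → ℤ} {a a' : A} (h : Val B f a) (h' : Val B f' a') :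
    Val B (f + f') (a + a') := by
  obtain ⟨l, rfl, rfl⟩ := h
  obtain ⟨l', rfl, rfl⟩ := h'
  exact ⟨l ++ l', by rw [List.map_append, List.sum_append], by rw [List.map_append, List.sum_append]⟩

lemma Val.zero : Val B (0 : Q → ℤ) 0 := ⟨[], rfl, rfl⟩

lemma Val.one (W : Subgroup Q) : Val B (fix W) (B W) := ⟨[W], by simp, by simp⟩

lemma Val.nsmul {f : Q → ℤ} {a : A} (h : Val B f a) (n : ℕ) : Val B (n • f) (n • a) := by
  induction n with
  | zero =>
    rw [zero_smul, zero_smul]
    exact Val.zero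
  | succ n ih =>
    rw [succ_nsmul, succ_nsmul]
    exact ih.add h

end

/-- The permutation character of a finite set all of whose stabilizers have trivial invariant. -/
lemma val_zero {A : Type} [AddCommGroup A] {B : Subgroup Q → A} (X : Type) [Finite X]
    [MulAction Q X] (h : ∀ x : X, B (MulAction.stabilizer Q x) = 0) :
    Val B (fun g : Q => (Nat.card {x : X // g • x = x} : ℤ)) 0 := by
  obtain ⟨l, hl, hf⟩ := orbit_list (Q := Q) X
  refine ⟨l, funext hf, ?_⟩
  symm
  apply List.sum_eq_zero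
  intro a ha
  obtain ⟨T, hT, rfl⟩ := List.mem_map.mp ha
  obtain ⟨x, rfl⟩ := hl T hT
  exact h x

/-- the product of two permutation characters -/
lemma fix_mul (T H : Subgroup Q) (g : Q) :
    fix T g * fix H g = (Nat.card {z : (Q ⧸ T) × (Q ⧸ H) // g • z = z} : ℤ) := by
  unfold fix
  rw [← Nat.cast_mul, ← Nat.card_prod]
  congr 1
  refine Nat.card_congr ?_
  exact
    { toFun := fun z => ⟨(z.1.1, z.2.1), Prod.ext z.1.2 z.2.2⟩
      invFun := fun z => (⟨z.1.1, congrArg Prod.fst z.2⟩, ⟨z.1.2, congrArg Prod.snd z.2⟩)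
      left_inv := fun z => rfl
      right_inv := fun z => rfl }

/-- stabilizers in `Q ⧸ T` are conjugate to `T` -/
lemma stab_coset (T : Subgroup Q) (x : Q ⧸ T) {g : Q} (hg : g ∈ MulAction.stabilizer Q x) :
    x.out⁻¹ * g * x.out ∈ T := by
  rw [← smul_mk_eq, QuotientGroup.out_eq']
  exact hg

variable {M M₁ : Subgroup Q} [M.Normal] [M₁.Normal] {S : Set Q}

/-- the decomposition in the bad case -/
lemma bad_formula (hS : Sig M M₁ S) {T H : Subgroup Q} (hMH : M ≤ H) {s : Q} (hs : s ∈ S)
    (hsT : s ∈ T) (hsM : s ∉ M) (hT : ∀ t ∈ T, t ∈ M ∨ s * t ∈ M) :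
    ∃ m : ℕ, fix T * fix H = (fix H s).toNat • fix T + m • fix (T ⊓ M) := by
  classical
  have := Fintype.ofFinite Q
  -- `M` acts trivially on `Q ⧸ H`
  have hM : ∀ g ∈ M, ∀ x : Q ⧸ H, g • x = x := by
    intro g hg x
    induction x using QuotientGroup.induction_on with
    | H x =>
      rw [smul_mk_eq]
      apply hMH
      have := ‹M.Normal›.conj_mem g hg x⁻¹
      rwa [inv_inv] at this
  have h0 : 0 ≤ fix H s := by
    unfold fix
    positivity
  -- the non fixed points come in pairs
  have hpair : ∃ m : ℕ, (Nat.card (Q ⧸ H) : ℤ) = fix H s + 2 * m := by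
    have : Fintype (Q ⧸ H) := Fintype.ofFinite _
    let f : Function.End (Q ⧸ H) := fun x => s • x
    have hf : f ^ 2 ^ 1 = 1 := by
      funext x
      rw [pow_one, pow_two]
      show s • s • x = x
      rw [smul_smul, hS.sq s hs, one_smul]
    have h1 := Equiv.Perm.card_fixedPoints_modEq (p := 2) hf
    have h2 : Fintype.card f.fixedPoints = Nat.card {x : Q ⧸ H // s • x = x} := by
      rw [Nat.card_eq_fintype_card]
      exact Fintype.card_congr (Equiv.refl _)
    have h3 : Nat.card {x : Q ⧸ H // s • x = x} ≤ Nat.card (Q ⧸ H) :=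
      Nat.card_le_card_of_injective _ Subtype.val_injective
    rw [h2, ← Nat.card_eq_fintype_card] at h1
    obtain ⟨m, hm⟩ := (Nat.modEq_iff_dvd' h3).mp h1.symm
    refine ⟨m, ?_⟩
    unfold fix
    have h4 : Nat.card (Q ⧸ H) = Nat.card {x : Q ⧸ H // s • x = x} + 2 * m := by omega
    exact_mod_cast h4
  obtain ⟨m, hm⟩ := hpair
  refine ⟨m, ?_⟩
  have hidx : (Nat.card T : ℤ) = 2 * (Nat.card (T ⊓ M : Subgroup Q) : ℤ) := by
    have h1 : Nat.card T = Nat.card ((T ⊓ M : Subgroup Q) ⊕ (T ⊓ M : Subgroup Q)) := by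
      have hss : ∀ x : Q, s * (s * x) = x := fun x => by rw [← mul_assoc, hS.sq s hs, one_mul]
      refine Nat.card_congr
        { toFun := fun t => if h : (t : Q) ∈ M then Sum.inl ⟨t, t.2, h⟩ else
            Sum.inr ⟨s * t, T.mul_mem hsT t.2, (hT t t.2).resolve_left h⟩
          invFun := Sum.elim (fun u : (T ⊓ M : Subgroup Q) => (⟨(u : Q), u.2.1⟩ : T))
            (fun u : (T ⊓ M : Subgroup Q) => (⟨s * (u : Q), T.mul_mem hsT u.2.1⟩ : T))
          left_inv := ?_
          right_inv := ?_ }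
      · intro t
        by_cases h : (t : Q) ∈ M
        · simp only [h, dif_pos, Sum.elim_inl]
        · simp only [h, dif_neg, not_false_iff, Sum.elim_inr, hss]
      · rintro (u | u)
        · have h : (u : Q) ∈ M := u.2.2
          simp only [Sum.elim_inl, h, dif_pos]
        · have h : s * (u : Q) ∉ M := by
            intro h
            apply hsM
            have h2 := M.mul_mem h (M.inv_mem u.2.2)
            rwa [mul_inv_cancel_right] at h2
          simp only [Sum.elim_inr, h, dif_neg, not_false_iff, hss]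
    rw [h1, Nat.card_sum]
    push_cast
    ring
  funext g
  have hR : ((fix H s).toNat • fix T + m • fix (T ⊓ M)) g =
      fix H s * fix T g + m * fix (T ⊓ M) g := by
    show (fix H s).toNat • fix T g + m • fix (T ⊓ M) g = _
    rw [nsmul_eq_mul, nsmul_eq_mul, Int.toNat_of_nonneg h0]
  rw [hR, Pi.mul_apply]
  by_cases hgM : g ∈ M
  · have h1 : fix H g = (Nat.card (Q ⧸ H) : ℤ) := by
      unfold fix
      congr 1
      exact Nat.card_congr (Equiv.subtypeUnivEquiv fun x => hM g hgM x)
    have h2 : fix (T ⊓ M) g = 2 * fix T g := by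
      have h3 := card_fix T g
      have h4 := card_fix (T ⊓ M) g
      have h5 : Nat.card {x : Q // x⁻¹ * g * x ∈ T ⊓ M} = Nat.card {x : Q // x⁻¹ * g * x ∈ T} := by
        refine Nat.card_congr (Equiv.subtypeEquivRight fun x => ?_)
        have h6 : x⁻¹ * g * x ∈ M := by
          have := ‹M.Normal›.conj_mem g hgM x⁻¹
          rwa [inv_inv] at this
        exact ⟨fun h => h.1, fun h => ⟨h, h6⟩⟩
      rw [h5, ← h3, hidx] at h4
      have h7 : (Nat.card (T ⊓ M : Subgroup Q) : ℤ) ≠ 0 := by
        exact_mod_cast Nat.card_pos.ne'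
      have h8 : (Nat.card (T ⊓ M : Subgroup Q) : ℤ) * fix (T ⊓ M) g =
          (Nat.card (T ⊓ M : Subgroup Q) : ℤ) * (2 * fix T g) := by
        rw [h4]
        ring
      exact mul_left_cancel₀ h7 h8
    rw [h1, h2, hm]
    ring
  · have h2 : fix (T ⊓ M) g = 0 := by
      unfold fix
      have h3 : Nat.card {x : Q ⧸ (T ⊓ M) // g • x = x} = 0 := by
        rw [Nat.card_eq_zero]
        left
        refine ⟨fun x => hgM ?_⟩
        have h4 := (stab_coset (T ⊓ M) x.1 x.2).2
        have h5 := ‹M.Normal›.conj_mem _ h4 x.1.out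
        have h6 : x.1.out * (x.1.out⁻¹ * g * x.1.out) * x.1.out⁻¹ = g := by group
        rwa [h6] at h5
      rw [h3]
      rfl
    rw [h2, mul_zero, add_zero]
    by_cases hfix : fix T g = 0
    · rw [hfix, zero_mul, mul_zero]
    · -- `g` is conjugate to an element of `T` outside `M`
      have h3 : ∃ a : Q, a⁻¹ * g * a ∈ T := by
        by_contra h4
        push Not at h4
        apply hfix
        unfold fix
        have h5 : Nat.card {x : Q ⧸ T // g • x = x} = 0 := by
          rw [Nat.card_eq_zero]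
          left
          exact ⟨fun x => h4 _ (stab_coset T x.1 x.2)⟩
        rw [h5]
        rfl
      obtain ⟨a, ha⟩ := h3
      have h4 : a⁻¹ * g * a ∉ M := by
        intro h5
        apply hgM
        have h6 := ‹M.Normal›.conj_mem _ h5 a
        have h7 : a * (a⁻¹ * g * a) * a⁻¹ = g := by group
        rwa [h7] at h6
      have h5 := (hT _ ha).resolve_left h4
      have h6 : fix H g = fix H s := by
        rw [← fix_conj H g a]
        unfold fix
        congr 1
        refine Nat.card_congr (Equiv.subtypeEquivRight fun x => ?_)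
        set t := a⁻¹ * g * a with ht
        have h8 : t • x = s • x := by
          have h9 : t = s * (s * t) := by rw [← mul_assoc, hS.sq s hs, one_mul]
          rw [h9, mul_smul, hM _ h5]
        rw [h8]
      rw [h6, mul_comm]

end Pool.Agent.Y691.ST
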