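import Pool.Agent.Y691.ST.PermFin
import Pool.Agent.Y691.ST.Prof

/-!
# Invariants of number fields and Brauer relations
-/

set_option autoImplicit false

namespace Pool.Agent.Y691.ST

open Pool.Agent.Y144.DL

section finite

variable {Q : Type} [Group Q] [Finite Q] {M M₁ : Subgroup Q} [M.Normal] [M₁.Normal] {S : Set Q}
  {A : Type} [AddCommGroup A] {B : Subgroup Q → A}

lemma cycHyp_of_conj {p : ℕ} {T W : Subgroup Q} (hT : CycHyp p T) (a : Q)
    (h : ∀ g ∈ W, a⁻¹ * g * a ∈ T) : CycHyp p W := by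
  refine cycHyp_mono (cycHyp_map (MulAut.conj a).toMonoidHom hT) fun g hg => ?_
  refine ⟨a⁻¹ * g * a, h g hg, ?_⟩
  show a * (a⁻¹ * g * a) * a⁻¹ = g
  group

/-- products with the permutation character of a hyperelementary subgroup -/
lemma val_mul (hS : Sig M M₁ S) (hSM : ∀ s ∈ S, s ∉ M) {s : Q}
    (hconj : ∀ s' ∈ S, ∃ g : Q, s' = g * s * g⁻¹) {p : ℕ} (hp : p.Prime) (h2 : p ≠ 2)
    (good : ∀ K : Subgroup Q, CycHyp p K → (∀ s ∈ S, s ∉ K) → B K = 0) {H : Subgroup Q}
    (hMH : M ≤ H) {T : Subgroup Q} (hT : CycHyp p T) :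
    Val B (fix T * fix H) ((fix H s).toNat • B T) := by
  by_cases hbad : ∃ s' ∈ S, s' ∈ T
  · obtain ⟨s', hs', hsT⟩ := hbad
    obtain ⟨m, hm⟩ := bad_formula hS hMH hs' hsT (hSM s' hs')
      (fun t ht => odd_case hS hp h2 (hyp_of_cycHyp hT) hs' hsT ht)
    have h3 : fix H s' = fix H s := by
      obtain ⟨g, rfl⟩ := hconj s' hs'
      have h4 := fix_conj H s g⁻¹
      rwa [inv_inv] at h4
    have h5 : B (T ⊓ M) = 0 :=
      good _ (cycHyp_mono hT inf_le_left) fun s'' hs'' h => hSM s'' hs'' h.2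
    rw [hm, h3]
    have h6 := ((Val.one (B := B) T).nsmul (fix H s).toNat).add ((Val.one (B := B) (T ⊓ M)).nsmul m)
    rw [h5, smul_zero, add_zero] at h6
    exact h6
  · push Not at hbad
    rw [good T hT hbad, smul_zero]
    have h3 : fix T * fix H =
        fun g : Q => (Nat.card {z : (Q ⧸ T) × (Q ⧸ H) // g • z = z} : ℤ) :=
      funext fun g => fix_mul T H g
    rw [h3]
    refine val_zero _ fun z => ?_
    have h4 : ∀ g ∈ MulAction.stabilizer Q z, z.1.out⁻¹ * g * z.1.out ∈ T := by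
      intro g hg
      refine stab_coset T z.1 ?_
      exact congrArg Prod.fst (show g • z = z from hg)
    refine good _ (cycHyp_of_conj hT z.1.out h4) fun s' hs' h => ?_
    have h5 := h4 s' h
    have h6 := hS.conj s' hs' z.1.out⁻¹
    rw [inv_inv] at h6
    exact hbad _ h6 h5

/-- **The theorem for finite groups.** -/
theorem fin_perm (hS : Sig M M₁ S) (hSM : ∀ s ∈ S, s ∉ M) {s : Q}
    (hconj : ∀ s' ∈ S, ∃ g : Q, s' = g * s * g⁻¹)
    (htf : ∀ (n : ℕ) (a : A), n ≠ 0 → n • a = 0 → a = 0)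
    (hB : ∀ l l' : List (Subgroup Q), (l.map fix).sum = (l'.map fix).sum →
      (l.map B).sum = (l'.map B).sum) {p : ℕ} (hp : p.Prime) (h2 : p ≠ 2)
    (good : ∀ K : Subgroup Q, CycHyp p K → (∀ s ∈ S, s ∉ K) → B K = 0) {H : Subgroup Q}
    (hMH : M ≤ H) : B H = (fix H s).toNat • B ⊤ := by
  classical
  set r := (fix H s).toNat with hr
  have huniq : ∀ {f : Q → ℤ} {a a' : A}, Val B f a → Val B f a' → a = a' := by
    rintro f a a' ⟨l, rfl, rfl⟩ ⟨l', h1, rfl⟩
    exact hB l l' h1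
  have hlist : ∀ l : List (Subgroup Q), (∀ T ∈ l, CycHyp p T) →
      Val B ((l.map fix).sum * fix H) (r • (l.map B).sum) := by
    intro l
    induction l with
    | nil =>
      intro _
      simp only [List.map_nil, List.sum_nil, zero_mul, smul_zero]
      exact Val.zero
    | cons T l ih =>
      intro h
      simp only [List.map_cons, List.sum_cons, add_mul, smul_add]
      exact (val_mul hS hSM hconj hp h2 good hMH (h T (List.mem_cons_self))).add
        (ih fun T' hT' => h T' (List.mem_cons_of_mem _ hT'))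
  have hcl : ∀ f ∈ AddSubgroup.closure (FG (CycHyp (G := Q) p)), ∃ (f₁ f₂ : Q → ℤ) (a₁ a₂ : A),
      f = f₁ - f₂ ∧ Val B f₁ a₁ ∧ Val B f₂ a₂ ∧ Val B (f₁ * fix H) (r • a₁) ∧
        Val B (f₂ * fix H) (r • a₂) := by
    intro f hf
    induction hf using AddSubgroup.closure_induction with
    | mem f hf =>
      obtain ⟨X, _, _, hX, hXf⟩ := hf
      obtain ⟨l, hl, hfl⟩ := orbit_list (Q := Q) X
      have h3 : f = (l.map fix).sum := by
        funext g
        rw [hXf, hfl]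
      have h4 : ∀ T ∈ l, CycHyp p T := by
        intro T hT
        obtain ⟨x, rfl⟩ := hl T hT
        exact hX x
      refine ⟨f, 0, (l.map B).sum, 0, (sub_zero f).symm, ⟨l, h3, rfl⟩, Val.zero, ?_, ?_⟩
      · rw [h3]
        exact hlist l h4
      · rw [zero_mul, smul_zero]
        exact Val.zero
    | zero =>
      refine ⟨0, 0, 0, 0, (sub_zero 0).symm, Val.zero, Val.zero, ?_, ?_⟩ <;>
      · rw [zero_mul, smul_zero]
        exact Val.zero
    | add f f' _ _ hf hf' =>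
      obtain ⟨f₁, f₂, a₁, a₂, rfl, h1, h3, h4, h5⟩ := hf
      obtain ⟨f₁', f₂', a₁', a₂', rfl, h1', h3', h4', h5'⟩ := hf'
      refine ⟨f₁ + f₁', f₂ + f₂', a₁ + a₁', a₂ + a₂', by abel, h1.add h1', h3.add h3', ?_, ?_⟩
      · rw [add_mul, smul_add]
        exact h4.add h4'
      · rw [add_mul, smul_add]
        exact h5.add h5'
    | neg f _ hf =>
      obtain ⟨f₁, f₂, a₁, a₂, rfl, h1, h3, h4, h5⟩ := hf
      exact ⟨f₂, f₁, a₂, a₁, by abel, h3, h1, h5, h4⟩
  obtain ⟨l, hl, hlR⟩ := banaschewski_p (AddSubgroup.closure (FG (CycHyp (G := Q) p)))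
    (closure_FG_mul fun H K hH hK => cycHyp_mono hH inf_le_left) p hp (fun x => by
      obtain ⟨f, hf, h⟩ := exists_FG_cyc x p hp
      exact ⟨f, AddSubgroup.subset_closure hf, h⟩)
  obtain ⟨f₁, f₂, a₁, a₂, hf, h1, h3, h4, h5⟩ := hcl _ hlR
  have hl0 : l.natAbs ≠ 0 := by
    intro h0
    apply hl
    rw [Int.natAbs_eq_zero] at h0
    rw [h0]
    exact dvd_zero _
  have key : l.natAbs • B H = r • l.natAbs • B ⊤ := by
    have hone : (1 : Q → ℤ) = fix (⊤ : Subgroup Q) := fix_top.symm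
    rcases Int.natAbs_eq l with h6 | h6
    · have h7 : f₁ = f₂ + l.natAbs • fix (⊤ : Subgroup Q) := by
        rw [← hone]
        funext g
        have h8 := congrFun hf g
        simp only [Pi.sub_apply] at h8
        show f₁ g = f₂ g + l.natAbs • (1 : ℤ)
        rw [nsmul_eq_mul, mul_one]
        omega
      have h8 : a₁ = a₂ + l.natAbs • B ⊤ := huniq h1 (h7 ▸ h3.add ((Val.one ⊤).nsmul _))
      have h9 : f₁ * fix H = f₂ * fix H + l.natAbs • fix H := by
        rw [h7, add_mul, ← hone]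
        congr 1
        rw [smul_mul_assoc, one_mul]
      have h10 : r • a₁ = r • a₂ + l.natAbs • B H :=
        huniq h4 (h9 ▸ h5.add ((Val.one H).nsmul _))
      rw [h8, smul_add] at h10
      exact (add_left_cancel h10).symm
    · have h7 : f₂ = f₁ + l.natAbs • fix (⊤ : Subgroup Q) := by
        rw [← hone]
        funext g
        have h8 := congrFun hf g
        simp only [Pi.sub_apply] at h8
        show f₂ g = f₁ g + l.natAbs • (1 : ℤ)
        rw [nsmul_eq_mul, mul_one]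
        omega
      have h8 : a₂ = a₁ + l.natAbs • B ⊤ := huniq h3 (h7 ▸ h1.add ((Val.one ⊤).nsmul _))
      have h9 : f₂ * fix H = f₁ * fix H + l.natAbs • fix H := by
        rw [h7, add_mul, ← hone]
        congr 1
        rw [smul_mul_assoc, one_mul]
      have h10 : r • a₂ = r • a₁ + l.natAbs • B H :=
        huniq h5 (h9 ▸ h4.add ((Val.one H).nsmul _))
      rw [h8, smul_add] at h10
      exact (add_left_cancel h10).symm
  have h11 : l.natAbs • (B H - r • B ⊤) = 0 := by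
    rw [smul_sub, key, smul_comm, sub_self]
  exact sub_eq_zero.mp (htf _ _ hl0 h11)

end finite

/-- the permutation character of the preimage -/
lemma fix_comap {G : Type} [Group G] (N : Subgroup G) [N.Normal] (K : Subgroup (G ⧸ N)) (g : G) :
    fix (K.comap (QuotientGroup.mk' N)) g = fix K (QuotientGroup.mk' N g) := by
  set π := QuotientGroup.mk' N with hπ
  unfold fix
  congr 1
  let e : G ⧸ K.comap π → (G ⧸ N) ⧸ K := fun x => ((π x.out : G ⧸ N) : (G ⧸ N) ⧸ K)
  have hmk : ∀ y : G, e (y : G ⧸ K.comap π) = ((π y : G ⧸ N) : (G ⧸ N) ⧸ K) := by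
    intro y
    refine QuotientGroup.eq.2 ?_
    have h1 : ((y : G ⧸ K.comap π)).out⁻¹ * y ∈ K.comap π := by
      rw [← QuotientGroup.eq, QuotientGroup.out_eq']
    rw [Subgroup.mem_comap, map_mul, map_inv] at h1
    exact h1
  have hequiv : ∀ (g : G) x, e (g • x) = π g • e x := by
    intro g x
    induction x using QuotientGroup.induction_on with
    | H y =>
      have h1 : g • (y : G ⧸ K.comap π) = ((g * y : G) : G ⧸ K.comap π) := rfl
      rw [h1, hmk, hmk, map_mul]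
      rfl
  have hinj : Function.Injective e := by
    intro x y hxy
    have h1 : (π x.out)⁻¹ * π y.out ∈ K := QuotientGroup.eq.1 hxy
    have h2 : x.out⁻¹ * y.out ∈ K.comap π := by
      rw [Subgroup.mem_comap, map_mul, map_inv]
      exact h1
    have h3 := QuotientGroup.eq.2 h2
    rwa [QuotientGroup.out_eq', QuotientGroup.out_eq'] at h3
  have hsurj : Function.Surjective e := by
    intro z
    induction z using QuotientGroup.induction_on with
    | H y =>
      obtain ⟨g, rfl⟩ := QuotientGroup.mk'_surjective N y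
      exact ⟨(g : G ⧸ K.comap π), hmk g⟩
  refine Nat.card_congr (Equiv.subtypeEquiv (Equiv.ofBijective e ⟨hinj, hsurj⟩) fun x => ?_)
  show g • x = x ↔ π g • e x = e x
  rw [← hequiv]
  exact hinj.eq_iff.symm

/-- **Real places and Brauer relations.** -/
theorem prof_perm {G : Type} [Group G] [TopologicalSpace G] [IsTopologicalGroup G] [CompactSpace G]
    [TotallyDisconnectedSpace G] [T2Space G] {c : G} (hz : ∀ g, g * c = c * g → g = 1 ∨ g = c)
    (hcc : c * c = 1) (hc : c ≠ 1) {A : Type} [AddCommGroup A]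
    (htf : ∀ (n : ℕ) (a : A), n ≠ 0 → n • a = 0 → a = 0) {B : Subgroup G → A}
    (hB : ∀ l l' : List (Subgroup G), (∀ U ∈ l, IsOpen (U : Set G)) →
      (∀ U ∈ l', IsOpen (U : Set G)) → (l.map fix).sum = (l'.map fix).sum →
      (l.map B).sum = (l'.map B).sum) {p : ℕ} (hp : p.Prime) (h2 : p ≠ 2) {N₀ : Subgroup G}
    [N₀.Normal] (hN₀ : IsOpen (N₀ : Set G))
    (good : ∀ U : Subgroup G, IsOpen (U : Set G) → (∀ g, g * c * g⁻¹ ∉ U) →
      CycHyp p (U.map (QuotientGroup.mk' N₀)) → B U = 0) {U : Subgroup G}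
    (hU : IsOpen (U : Set G)) : B U = (fix U c).toNat • B ⊤ := by
  classical
  -- the normal core of `U`
  obtain ⟨N', hN'⟩ := ProfiniteGrp.exist_openNormalSubgroup_sub_open_nhds_of_one hU U.one_mem
  have hNn' : N'.toSubgroup.Normal := N'.isNormal'
  obtain ⟨N, hNn, hN, hle, hconj, -⟩ := shrink hz hcc hc (N := N'.toSubgroup) N'.isOpen
  have hNU : N ≤ U := fun g hg => hN' (hle hg)
  obtain ⟨N₁, hN₁n, hN₁, hle₁, hconj₁, hsh₁⟩ := shrink hz hcc hc hN
  obtain ⟨N₃, hN₃n, hN₃, hle₃, hconj₃, hsh₃⟩ := shrink hz hcc hc hN₁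
  let N₂ : Subgroup G := N₃ ⊓ N₀
  have hN₂n : N₂.Normal := inferInstance
  have hN₂ : IsOpen (N₂ : Set G) := hN₃.inter hN₀
  have hle₂ : N₂ ≤ N₁ := inf_le_left.trans hle₃
  have hsh₂ : ∀ g, c * (g * c * g⁻¹) ∈ N₂ → g ∈ N₁ ∨ c * g ∈ N₁ := fun g hg => hsh₃ g hg.1
  have hfin : Finite (G ⧸ N₂) := Subgroup.quotient_finite_of_isOpen N₂ hN₂
  set π := QuotientGroup.mk' N₂ with hπ
  have hsurj : Function.Surjective π := QuotientGroup.mk'_surjective N₂
  let M : Subgroup (G ⧸ N₂) := N.map π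
  let M₁ : Subgroup (G ⧸ N₂) := N₁.map π
  have hMn : M.Normal := hNn.map π hsurj
  have hM₁n : M₁.Normal := hN₁n.map π hsurj
  have hker : π.ker = N₂ := QuotientGroup.ker_mk' N₂
  have hmem : ∀ (V : Subgroup G), N₂ ≤ V → ∀ g, π g ∈ V.map π ↔ g ∈ V := by
    intro V hV g
    rw [← Subgroup.mem_comap, Subgroup.comap_map_eq_self (by rw [hker]; exact hV)]
  have hmM : ∀ g, π g ∈ M ↔ g ∈ N := hmem N (hle₂.trans hle₁)
  have hmM₁ : ∀ g, π g ∈ M₁ ↔ g ∈ N₁ := hmem N₁ hle₂
  let S : Set (G ⧸ N₂) := Set.range fun g : G => π (g * c * g⁻¹)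
  have hS : Sig M M₁ S := by
    refine ⟨?_, ?_, ?_, ?_, ?_, Subgroup.map_mono hle₁⟩
    · rintro _ ⟨x, rfl⟩ g
      obtain ⟨y, rfl⟩ := hsurj g
      refine ⟨y * x, ?_⟩
      simp only
      rw [← map_inv, ← map_mul, ← map_mul]
      congr 1
      group
    · rintro _ ⟨x, rfl⟩
      simp only
      rw [← map_mul]
      have h1 : x * c * x⁻¹ * (x * c * x⁻¹) = x * (c * c) * x⁻¹ := by group
      rw [h1, hcc, mul_one, mul_inv_cancel, map_one]
    · rintro _ ⟨x, rfl⟩ h
      exact hconj₁ x ((hmM₁ _).mp h)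
    · rintro _ ⟨x, rfl⟩ g h
      obtain ⟨y, rfl⟩ := hsurj g
      simp only at h ⊢
      rw [← map_mul, ← map_mul] at h
      rw [← map_mul, hmM₁, hmM₁]
      have h1 : (y * (x * c * x⁻¹))⁻¹ * (x * c * x⁻¹ * y) ∈ N₂ := QuotientGroup.eq.1 h
      have h2 : c * ((x⁻¹ * y⁻¹ * x) * c * (x⁻¹ * y⁻¹ * x)⁻¹) ∈ N₂ := by
        have h3 := hN₂n.conj_mem _ h1 x⁻¹
        have h4 : x⁻¹ * ((y * (x * c * x⁻¹))⁻¹ * (x * c * x⁻¹ * y)) * x⁻¹⁻¹ =
            c⁻¹ * ((x⁻¹ * y⁻¹ * x) * c * (x⁻¹ * y⁻¹ * x)⁻¹) := by group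
        rw [h4, inv_eq_of_mul_eq_one_left hcc] at h3
        exact h3
      rcases hsh₂ _ h2 with h5 | h5
      · left
        have h6 := hN₁n.conj_mem _ (N₁.inv_mem h5) x
        have h7 : x * (x⁻¹ * y⁻¹ * x)⁻¹ * x⁻¹ = y := by group
        rwa [h7] at h6
      · right
        have h6 := hN₁n.conj_mem _ (N₁.inv_mem h5) (x * c)
        have h7 : x * c * (c * (x⁻¹ * y⁻¹ * x))⁻¹ * (x * c)⁻¹ = x * c * x⁻¹ * y * (x * (c⁻¹ * c⁻¹) * x⁻¹) := by
          group
        have h8 : c⁻¹ * c⁻¹ = 1 := by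
          rw [← mul_inv_rev, hcc, inv_one]
        rw [h7, h8, mul_one, mul_inv_cancel, mul_one] at h6
        exact h6
    · rintro _ ⟨x, rfl⟩ g h
      obtain ⟨y, rfl⟩ := hsurj g
      simp only at h ⊢
      rw [← map_inv, ← map_mul, ← map_mul, ← map_mul, hmM₁] at h
      rw [← map_mul, hmM, hmM]
      have h2 : c * ((x⁻¹ * y * x) * c * (x⁻¹ * y * x)⁻¹) ∈ N₁ := by
        have h3 := hN₁n.conj_mem _ h x⁻¹
        have h4 : x⁻¹ * (x * c * x⁻¹ * (y * (x * c * x⁻¹) * y⁻¹)) * x⁻¹⁻¹ =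
            c * ((x⁻¹ * y * x) * c * (x⁻¹ * y * x)⁻¹) := by group
        rwa [h4] at h3
      rcases hsh₁ _ h2 with h5 | h5
      · left
        have h6 := hNn.conj_mem _ h5 x
        have h7 : x * (x⁻¹ * y * x) * x⁻¹ = y := by group
        rwa [h7] at h6
      · right
        have h6 := hNn.conj_mem _ h5 x
        have h7 : x * (c * (x⁻¹ * y * x)) * x⁻¹ = x * c * x⁻¹ * y := by group
        rwa [h7] at h6
  have hcomapOpen : ∀ K : Subgroup (G ⧸ N₂), IsOpen ((K.comap π : Subgroup G) : Set G) := by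
    intro K
    refine isOpen_of_le hN₂ fun g hg => ?_
    rw [Subgroup.mem_comap]
    have h3 : π g = 1 := by
      rw [← MonoidHom.mem_ker, hker]
      exact hg
    rw [h3]
    exact K.one_mem
  have hfixlist : ∀ (l : List (Subgroup (G ⧸ N₂))) (g : G),
      (((l.map fun K => K.comap π).map fix).sum : G → ℤ) g = ((l.map fix).sum) (π g) := by
    intro l g
    induction l with
    | nil => rfl
    | cons K l ih =>
      simp only [List.map_cons, List.sum_cons, Pi.add_apply]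
      rw [fix_comap, ih]
  let H : Subgroup (G ⧸ N₂) := U.map π
  have hHU : H.comap π = U := Subgroup.comap_map_eq_self (by
    rw [hker]
    exact (hle₂.trans hle₁).trans hNU)
  have key := fin_perm (B := fun K => B (K.comap π)) (H := H) (s := π c) hS ?_ ?_ htf ?_ hp h2 ?_
    (Subgroup.map_mono hNU)
  · rw [hHU, ← fix_comap, hHU, Subgroup.comap_top] at key
    exact key
  · rintro _ ⟨x, rfl⟩ h
    exact hconj x ((hmM _).mp h)
  · rintro _ ⟨x, rfl⟩
    refine ⟨π x, ?_⟩
    simp only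
    rw [← map_inv, ← map_mul, ← map_mul]
  · intro l l' h
    have h3 := hB (l.map fun K => K.comap π) (l'.map fun K => K.comap π) ?_ ?_ ?_
    · simpa only [List.map_map, Function.comp_def] using h3
    · intro V hV
      obtain ⟨K, _, rfl⟩ := List.mem_map.mp hV
      exact hcomapOpen K
    · intro V hV
      obtain ⟨K, _, rfl⟩ := List.mem_map.mp hV
      exact hcomapOpen K
    · funext g
      rw [hfixlist, hfixlist, h]
  · intro K hK hKS
    refine good _ (hcomapOpen K) (fun g hg => hKS _ ⟨g, rfl⟩ hg) ?_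
    -- the image in `G ⧸ N₀`
    have hN₂₀ : N₂ ≤ N₀ := inf_le_right
    let q : G ⧸ N₂ →* G ⧸ N₀ := QuotientGroup.map N₂ N₀ (MonoidHom.id G) hN₂₀
    have h3 : (K.comap π).map (QuotientGroup.mk' N₀) = K.map q := by
      ext y
      constructor
      · rintro ⟨g, hg, rfl⟩
        exact ⟨π g, hg, rfl⟩
      · rintro ⟨z, hz, rfl⟩
        obtain ⟨g, rfl⟩ := hsurj z
        exact ⟨g, hz, rfl⟩
    rw [h3]
    exact cycHyp_map q hK

end Pool.Agent.Y691.ST
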