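import Pool.Agent.Y691.ST.BsdDefs
import Pool.Agent.Y691.ST.PermThm

/-!
# Invariants of number fields: the theorem
-/

set_option autoImplicit false

namespace Pool.Agent.Y691.ST

/-- An invariant of number fields with values in a torsion-free group which is compatible with Brauer
relations and vanishes on the special totally complex fields is the number of real embeddings times its
value on `ℚ`. -/
theorem brauer_real {A : Type} [AddCommGroup A] (htf : ∀ (n : ℕ) (a : A), n ≠ 0 → n • a = 0 → a = 0)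
    {B : Subgroup GalQ → A} (hB : Brauer B) {p : ℕ} (hp : p.Prime) (h2 : p ≠ 2)
    {N : Subgroup GalQ} [N.Normal] (hN : IsOpen (N : Set GalQ))
    (good : ∀ U, Special p N U → B U = 0) {c : GalQ} (hc : IsConjugation c)
    {U : Subgroup GalQ} (hU : IsOpen (U : Set GalQ)) : B U = realPlaces c U • B ⊤ := by
  obtain ⟨c₀, φ, hφ, hconj⟩ := exists_conjugation
  obtain ⟨φ', hφ'⟩ := hc
  have h1 := prof_perm (c := c) (fun g h => centralizer hφ' h) (conj_sq hφ') (conj_ne_one hφ') htf hB
    hp h2 hN (fun V hV hgood hcyc => good V ⟨hV, ?_, hcyc⟩) hU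
  · rw [h1]
    unfold fix realPlaces
    rw [Int.toNat_natCast]
  · intro c' hc' hmem
    obtain ⟨g, rfl⟩ := hconj c' hc'
    obtain ⟨g', hg'⟩ := hconj c ⟨φ', hφ'⟩
    apply hgood (g * g'⁻¹)
    have h3 : g * g'⁻¹ * c * (g * g'⁻¹)⁻¹ = g * c₀ * g⁻¹ := by
      rw [hg']
      group
    rw [h3]
    exact hmem

lemma int_tf (n : ℕ) (a : ℤ) (hn : n ≠ 0) (h : n • a = 0) : a = 0 := by
  rw [nsmul_eq_mul] at h
  exact (mul_eq_zero.mp h).resolve_left (by exact_mod_cast hn)

lemma real_tf (n : ℕ) (a : ℝ) (hn : n ≠ 0) (h : n • a = 0) : a = 0 := by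
  rw [nsmul_eq_mul] at h
  exact (mul_eq_zero.mp h).resolve_left (by exact_mod_cast hn)

end Pool.Agent.Y691.ST
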