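import Pool.Agent.Y144.DL.Ban

/-!
# Induction from hyperelementary subgroups and quotient groups
-/

set_option autoImplicit false

namespace Pool.Agent.Y691.ST

open Pool.Agent.Y144.DL

variable {Q : Type} [Group Q] [Finite Q] (M : Subgroup Q) [M.Normal]

/-- The functions on `T` (extended by zero) induced from linear characters of subgroups of `T` which
are trivial on `M`. -/
def LinSet (T : Subgroup Q) : Set (Q → ℂ) :=
  {f | ∃ (K : Subgroup Q) (χ : K →* ℂˣ), K ≤ T ∧ (∀ k : K, (k : Q) ∈ M → χ k = 1) ∧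
    f = avg K T (ext K χ)}

lemma sum_comp_hom {A B : Type*} [Group A] [Group B] [Fintype A] [Fintype B] (f : A →* B)
    (hf : Function.Surjective f) (F : B → ℂ) :
    ∑ a, F (f a) = (Nat.card f.ker : ℂ) * ∑ b, F b := by
  classical
  have h1 : ∑ a, F (f a) = ∑ b, ∑ a ∈ Finset.univ.filter (fun a => f a = b), F (f a) :=
    (Finset.sum_fiberwise _ _ _).symm
  rw [h1, Finset.mul_sum]
  refine Finset.sum_congr rfl fun b _ => ?_
  have h2 : ∀ a ∈ Finset.univ.filter (fun a => f a = b), F (f a) = F b := by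
    intro a ha
    rw [(Finset.mem_filter.mp ha).2]
  rw [Finset.sum_congr rfl h2, Finset.sum_const, nsmul_eq_mul]
  congr 2
  have h3 := MonoidHom.card_fiber_eq_of_mem_range f (x := b) (y := 1)
    (MonoidHom.mem_range.mpr (hf b)) (MonoidHom.mem_range.mpr (hf 1))
  rw [h3, Nat.card_eq_fintype_card, Fintype.card_subtype]
  congr 1
  ext x
  simp [MonoidHom.mem_ker]

/-- the restriction of a homomorphism to `T → T.map f` -/
def resMap {A B : Type*} [Group A] [Group B] (f : A →* B) (T : Subgroup A) : T →* T.map f :=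
  (f.comp T.subtype).codRestrict (T.map f) fun x => ⟨x, x.2, rfl⟩

lemma resMap_surjective {A B : Type*} [Group A] [Group B] (f : A →* B) (T : Subgroup A) :
    Function.Surjective (resMap f T) := by
  rintro ⟨_, x, hx, rfl⟩
  exact ⟨⟨x, hx⟩, rfl⟩

lemma resMap_coe {A B : Type*} [Group A] [Group B] (f : A →* B) (T : Subgroup A) (x : T) :
    ((resMap f T x : T.map f) : B) = f x := rfl

/-- The pullback of an induced function. -/
lemma pull_avg (T : Subgroup Q) (K' : Subgroup (Q ⧸ M)) (hK' : K' ≤ T.map (QuotientGroup.mk' M))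
    (χ : K' →* ℂˣ) :
    ext T (1 : T →* ℂˣ) * (avg K' (T.map (QuotientGroup.mk' M)) (ext K' χ) ∘ QuotientGroup.mk' M) ∈
      LinSet M T := by
  classical
  have := Fintype.ofFinite Q
  have := Fintype.ofFinite (Q ⧸ M)
  set π := QuotientGroup.mk' M with hπ
  let K : Subgroup Q := T ⊓ K'.comap π
  let r : K →* K' := (π.comp K.subtype).codRestrict K' fun x => x.2.2
  refine ⟨K, χ.comp r, inf_le_left, ?_, ?_⟩
  · intro k hk
    have h1 : r k = 1 := by
      apply Subtype.ext
      show π k = 1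
      rw [← MonoidHom.mem_ker, QuotientGroup.ker_mk']
      exact hk
    rw [MonoidHom.comp_apply, h1, map_one]
  · have hr : Function.Surjective r := by
      rintro ⟨y, hy⟩
      obtain ⟨x, hx, hxy⟩ := hK' hy
      refine ⟨⟨x, hx, ?_⟩, Subtype.ext hxy⟩
      show π x ∈ K'
      rw [hxy]
      exact hy
    funext g
    rw [Pi.mul_apply]
    by_cases hg : g ∈ T
    · rw [ext_mem T _ hg, MonoidHom.one_apply, Units.val_one, one_mul, Function.comp_apply,
        avg_eq', avg_eq']
      have h1 : ∀ x : T, ext K (χ.comp r) ((x : Q)⁻¹ * g * x) =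
          (fun y : T.map π => ext K' χ ((y : Q ⧸ M)⁻¹ * π g * y)) (resMap π T x) := by
        intro x
        have h2 : (x : Q)⁻¹ * g * x ∈ T := T.mul_mem (T.mul_mem (T.inv_mem x.2) hg) x.2
        have h3 : ((resMap π T x : T.map π) : Q ⧸ M)⁻¹ * π g * (resMap π T x : T.map π) =
            π ((x : Q)⁻¹ * g * x) := by
          rw [resMap_coe, map_mul, map_mul, map_inv]
        show _ = ext K' χ _
        rw [h3]
        by_cases h4 : π ((x : Q)⁻¹ * g * x) ∈ K'
        · rw [ext_mem K' χ h4, ext_mem K (χ.comp r) (show (x : Q)⁻¹ * g * x ∈ K from ⟨h2, h4⟩)]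
          rfl
        · rw [ext_not_mem K' χ h4, ext_not_mem K _ (fun h5 => h4 h5.2)]
      rw [Finset.sum_congr rfl fun x _ => h1 x, sum_comp_hom (resMap π T) (resMap_surjective π T)
        (fun y : T.map π => ext K' χ ((y : Q ⧸ M)⁻¹ * π g * y))]
      have hk1 : Nat.card (resMap π T).ker = Nat.card r.ker := by
        refine Nat.card_congr ?_
        exact
          { toFun := fun x => ⟨⟨x.1.1, x.1.2, by
              have h5 : π x.1.1 = 1 := congrArg Subtype.val (MonoidHom.mem_ker.mp x.2)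
              show π x.1.1 ∈ K'
              rw [h5]
              exact K'.one_mem⟩, by
              have h5 : π x.1.1 = 1 := congrArg Subtype.val (MonoidHom.mem_ker.mp x.2)
              exact MonoidHom.mem_ker.mpr (Subtype.ext h5)⟩
            invFun := fun x => ⟨⟨x.1.1, x.1.2.1⟩, by
              have h5 : π x.1.1 = 1 := congrArg Subtype.val (MonoidHom.mem_ker.mp x.2)
              exact MonoidHom.mem_ker.mpr (Subtype.ext h5)⟩
            left_inv := fun x => rfl
            right_inv := fun x => rfl }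
      have hk2 : Nat.card K = Nat.card r.ker * Nat.card K' := by
        have h6 := Subgroup.card_eq_card_quotient_mul_card_subgroup r.ker
        have h7 : Nat.card (K ⧸ r.ker) = Nat.card K' :=
          Nat.card_congr (QuotientGroup.quotientKerEquivOfSurjective r hr).toEquiv
        rw [h6, h7, mul_comm]
      rw [hk1, hk2]
      have h8 : (Nat.card r.ker : ℂ) ≠ 0 := by
        rw [Nat.cast_ne_zero]
        exact Nat.card_pos.ne'
      push_cast
      rw [mul_inv, mul_comm (Nat.card r.ker : ℂ)⁻¹, mul_assoc, ← mul_assoc (Nat.card r.ker : ℂ)⁻¹,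
        inv_mul_cancel₀ h8, one_mul]
    · rw [ext_not_mem T _ hg, zero_mul, avg_eq']
      have h1 : ∀ x : T, ext K (χ.comp r) ((x : Q)⁻¹ * g * x) = 0 := by
        intro x
        refine ext_not_mem K _ fun h2 => hg ?_
        have h3 := T.mul_mem (T.mul_mem x.2 h2.1) (T.inv_mem x.2)
        have h4 : (x : Q) * ((x : Q)⁻¹ * g * x) * (x : Q)⁻¹ = g := by group
        rwa [h4] at h3
      rw [Finset.sum_congr rfl fun x _ => h1 x, Finset.sum_const_zero, mul_zero]

lemma hyp_map {p : ℕ} {T : Subgroup Q} (hT : Hyp (⊥ : Subgroup Q) p T) :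
    Hyp (⊥ : Subgroup (Q ⧸ M)) p (T.map (QuotientGroup.mk' M)) := by
  obtain ⟨B, _, hB, hab, hn, hpow⟩ := hT
  refine ⟨B.map (QuotientGroup.mk' M), bot_le, Subgroup.map_mono hB, ?_, ?_, ?_⟩
  · rintro _ ⟨x, hx, rfl⟩ _ ⟨y, hy, rfl⟩
    rw [← map_mul, hab x hx y hy, map_mul]
  · rintro _ ⟨t, ht, rfl⟩ _ ⟨b, hb, rfl⟩
    exact ⟨t * b * t⁻¹, hn t ht b hb, by rw [map_mul, map_mul, map_inv]⟩
  · rintro _ ⟨t, ht, rfl⟩
    obtain ⟨j, hj⟩ := hpow t ht
    exact ⟨j, t ^ p ^ j, hj, by rw [map_pow]⟩

/-- The restriction of an inflated character to a hyperelementary subgroup is an integral combination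
of functions induced from inflated linear characters. -/
theorem restrict_mem {p : ℕ} (hp : p.Prime) {T : Subgroup Q} (hT : Hyp (⊥ : Subgroup Q) p T)
    {θ : Q ⧸ M → ℂ} (hθ : IsChar θ) :
    ext T (1 : T →* ℂˣ) * (θ ∘ QuotientGroup.mk' M) ∈ AddSubgroup.closure (LinSet M T) := by
  classical
  have := Fintype.ofFinite Q
  have := Fintype.ofFinite (Q ⧸ M)
  set π := QuotientGroup.mk' M with hπ
  have hE : HasEnoughRootsOfUnity ℂ (Nat.card (Q ⧸ M)) := by
    have : NeZero (Nat.card (Q ⧸ M)) := ⟨Nat.card_pos.ne'⟩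
    infer_instance
  have hI : Isol (∅ : Set (Q ⧸ M)) (1 : Q ⧸ M →* ℂˣ) (T.map π) :=
    ⟨fun s hs => absurd hs (Set.notMem_empty s), fun s hs => absurd hs (Set.notMem_empty s),
      fun s hs => absurd hs (Set.notMem_empty s)⟩
  have h1 := hyp_mem hE hp (hyp_map M hT) hI hθ
  have h2 : ext T (1 : T →* ℂˣ) * (θ ∘ π) =
      ext T (1 : T →* ℂˣ) * ((ext (T.map π) (1 : T.map π →* ℂˣ) * θ) ∘ π) := by
    funext g
    rw [Pi.mul_apply, Pi.mul_apply, Function.comp_apply, Function.comp_apply, Pi.mul_apply]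
    by_cases hg : g ∈ T
    · rw [ext_mem (T.map π) _ (show π g ∈ T.map π from ⟨g, hg, rfl⟩), MonoidHom.one_apply,
        Units.val_one, one_mul]
    · rw [ext_not_mem T _ hg, zero_mul, zero_mul]
  rw [h2]
  clear h2
  have key : ∀ f ∈ GC ℂ (∅ : Set (Q ⧸ M)) ⊥ (1 : Q ⧸ M →* ℂˣ) (T.map π),
      ext T (1 : T →* ℂˣ) * (f ∘ π) ∈ AddSubgroup.closure (LinSet M T) := by
    intro f hf
    obtain ⟨a, ha, b, hb, rfl⟩ := AddSubgroup.mem_sup.1 hf
    have h3 : ext T (1 : T →* ℂˣ) * ((a + b) ∘ π) =
        ext T (1 : T →* ℂˣ) * (a ∘ π) + ext T (1 : T →* ℂˣ) * (b ∘ π) := by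
      funext g
      simp only [Pi.mul_apply, Function.comp_apply, Pi.add_apply]
      ring
    rw [h3]
    clear h3 hf
    refine add_mem ?_ ?_
    · clear hb
      induction ha using AddSubgroup.closure_induction with
      | mem f hf =>
        obtain ⟨K, χ, χ', hK, _, _, rfl⟩ := hf
        have h4 : ext T (1 : T →* ℂˣ) * (avg K (T.map π) (ext K χ - ext K χ') ∘ π) =
            ext T (1 : T →* ℂˣ) * (avg K (T.map π) (ext K χ) ∘ π) -
              ext T (1 : T →* ℂˣ) * (avg K (T.map π) (ext K χ') ∘ π) := by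
          rw [avg_sub]
          funext g
          simp only [Pi.mul_apply, Function.comp_apply, Pi.sub_apply]
          ring
        rw [h4]
        exact sub_mem (AddSubgroup.subset_closure (pull_avg M T K hK χ))
          (AddSubgroup.subset_closure (pull_avg M T K hK χ'))
      | zero =>
        have h4 : ext T (1 : T →* ℂˣ) * ((0 : Q ⧸ M → ℂ) ∘ π) = 0 := by
          funext g
          simp
        rw [h4]
        exact zero_mem _
      | add f f' _ _ hf hf' =>
        have h4 : ext T (1 : T →* ℂˣ) * ((f + f') ∘ π) =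
            ext T (1 : T →* ℂˣ) * (f ∘ π) + ext T (1 : T →* ℂˣ) * (f' ∘ π) := by
          funext g
          simp only [Pi.mul_apply, Function.comp_apply, Pi.add_apply]
          ring
        rw [h4]
        exact add_mem hf hf'
      | neg f _ hf =>
        have h4 : ext T (1 : T →* ℂˣ) * ((-f) ∘ π) = -(ext T (1 : T →* ℂˣ) * (f ∘ π)) := by
          funext g
          simp only [Pi.mul_apply, Function.comp_apply, Pi.neg_apply]
          ring
        rw [h4]
        exact neg_mem hf
    · have hone : ext T (1 : T →* ℂˣ) * (ext (T.map π) (1 : T.map π →* ℂˣ) ∘ π) ∈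
          AddSubgroup.closure (LinSet M T) := by
        have h5 := pull_avg M T (T.map π) le_rfl 1
        rw [avg_self_ext] at h5
        exact AddSubgroup.subset_closure h5
      obtain ⟨m, n, rfl⟩ := AddSubgroup.mem_closure_pair.1 hb
      have h6 : ((1 : Q ⧸ M →* ℂˣ).comp (T.map π).subtype) = 1 := by
        ext
        rfl
      rw [h6]
      rw [← add_smul]
      have h7 : ext T (1 : T →* ℂˣ) * (((m + n) • ext (T.map π) (1 : T.map π →* ℂˣ)) ∘ π) =
          (m + n) • (ext T (1 : T →* ℂˣ) * (ext (T.map π) (1 : T.map π →* ℂˣ) ∘ π)) := by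
        funext g
        show ext T (1 : T →* ℂˣ) g * ((m + n) • ext (T.map π) (1 : T.map π →* ℂˣ) (π g)) =
          (m + n) • (ext T (1 : T →* ℂˣ) g * ext (T.map π) (1 : T.map π →* ℂˣ) (π g))
        rw [mul_smul_comm]
      rw [h7]
      exact zsmul_mem hone _
  exact key _ h1

end Pool.Agent.Y691.ST
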