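import Pool.Agent.Y691.ST.IndDefs
import Pool.Agent.Y691.ST.PermDefs

/-!
# Places and decomposition groups: definitions
-/

set_option autoImplicit false

namespace Pool.Agent.Y691.ST

/-- The decomposition group of the absolute value `v` of the algebraic closure of `ℚ`: the
automorphisms which preserve `v`. -/
def Dec (v : AbsoluteValue Qbar ℝ) : Subgroup GalQ where
  carrier := {σ | ∀ x, v (σ x) = v x}
  one_mem' := fun _ => rfl
  mul_mem' := by
    intro a b ha hb x
    show v (a (b x)) = v x
    rw [ha, hb]
  inv_mem' := by
    intro a ha x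
    have h := ha (a⁻¹ x)
    have h2 : a (a⁻¹ x) = x := AlgEquiv.apply_symm_apply a x
    rw [h2] at h
    exact h.symm

/-- All places above the place `v` of `ℚ` are completely split in the extension `K M / K`, where `K` and
`M` are the fixed fields of `U` and `N`. -/
def SplitAt (v : AbsoluteValue Qbar ℝ) (N U : Subgroup GalQ) : Prop :=
  ∀ g : GalQ, ∀ σ ∈ Dec v, g * σ * g⁻¹ ∈ U → g * σ * g⁻¹ ∈ N

/-- The Galois group of `K M / K` is contained in the decomposition group of a place of `M` above `v`,
where `K` and `M` are the fixed fields of `U` and `N`. -/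
def LocalAt (v : AbsoluteValue Qbar ℝ) (N U : Subgroup GalQ) : Prop :=
  ∃ g : GalQ, ∀ u ∈ U, g⁻¹ * u * g ∈ Dec v ⊔ N

/-- The extension `K M / K` is cyclic, where `K` and `M` are the fixed fields of `U` and `N`. -/
def CyclicMod (N U : Subgroup GalQ) : Prop := ∃ x ∈ U, ∀ u ∈ U, ∃ k : ℤ, u * x ^ k ∈ N

/-- `K` is a number field (the fixed field of the open subgroup `U`), `χ` is a linear character of order
at least `3` of `K` which is trivial on `K M`, `K M / K` is cyclic, and either all places of `K` above the
places in `V` are completely split in `K M`, or the Galois group of `K M / K` is contained in the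
decomposition group of a place of `M` above a place in `V`. -/
structure Admissible (V : Finset (AbsoluteValue Qbar ℝ)) (N U : Subgroup GalQ) (χ : U →* ℂˣ) :
    Prop where
  isOpen : IsOpen (U : Set GalQ)
  trivial : ∀ u : U, (u : GalQ) ∈ N → χ u = 1
  order : χ ^ 2 ≠ 1
  cyclic : CyclicMod N U
  places : (∀ v ∈ V, SplitAt v N U) ∨ ∃ v ∈ V, LocalAt v N U

/-- The decomposition groups of `K M / K` at all places above the place `v` of `ℚ` are `p`-groups, where
`K` and `M` are the fixed fields of `U` and `N`. -/
def PSplitAt (p : ℕ) (v : AbsoluteValue Qbar ℝ) (N U : Subgroup GalQ) : Prop :=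
  ∀ g : GalQ, ∀ σ ∈ Dec v, g * σ * g⁻¹ ∈ U → ∃ j : ℕ, (g * σ * g⁻¹) ^ p ^ j ∈ N

/-- the linear characters of `U` -/
abbrev LinChar (U : Subgroup GalQ) : Type := U →* ℂˣ

/-- The linear character `χ` of `K` is trivial on `K M`, where `K` and `M` are the fixed fields of `U` and
`N`. -/
def TrivialOn (N U : Subgroup GalQ) (χ : LinChar U) : Prop := ∀ u : U, (u : GalQ) ∈ N → χ u = 1

/-- The order of the linear character `χ` is at least `3`. -/
def LargeOrder (U : Subgroup GalQ) (χ : LinChar U) : Prop := ∃ u : U, χ u * χ u ≠ 1

/-- The Galois group of `K M / K` is an extension of a `p`-group by a cyclic group (generated by the image of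
`x`), where `K` and `M` are the fixed fields of `U` and `N`. -/
def HyperMod (p : ℕ) (N U : Subgroup GalQ) : Prop :=
  ∃ x ∈ U, ∀ t ∈ U, (∃ k : ℤ, t * x * t⁻¹ * x ^ k ∈ N) ∧ ∃ (j : ℕ) (k : ℤ), t ^ p ^ j * x ^ k ∈ N

/-- Either all decomposition groups of `K M / K` at the places above the places in `V` are `p`-groups, or
the Galois group of `K M / K` is contained in the decomposition group of a place of `M` above a place in
`V`, where `K` and `M` are the fixed fields of `U` and `N`. -/
def SmallOrLocal (p : ℕ) (V : Finset (AbsoluteValue Qbar ℝ)) (N U : Subgroup GalQ) : Prop :=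
  (∀ v ∈ V, PSplitAt p v N U) ∨ ∃ v ∈ V, LocalAt v N U

/-- `K` is a number field (the fixed field of the open subgroup `U`), `χ` is a linear character of order
at least `3` of `K` which is trivial on `K M`, the Galois group of `K M / K` is an extension of a `p`-group
by a cyclic group, and either all its decomposition groups at the places above the places in `V` are
`p`-groups, or it is contained in the decomposition group of a place of `M` above a place in `V`. -/
structure PAdmissible (p : ℕ) (V : Finset (AbsoluteValue Qbar ℝ)) (N U : Subgroup GalQ)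
    (χ : LinChar U) : Prop where
  isOpen : IsOpen (U : Set GalQ)
  trivial : TrivialOn N U χ
  order : LargeOrder U χ
  hyper : HyperMod p N U
  places : SmallOrLocal p V N U

/-- The absolute values in `V` are nontrivial on `ℚ`: they are places of the algebraic closure. -/
def ArePlaces (V : Finset (AbsoluteValue Qbar ℝ)) : Prop := ∀ v ∈ V, ∃ a : ℚ, 1 < v (a : Qbar)

/-- `D` is trivial on the admissible pairs. -/
def HoldsAdmissible (V : Finset (AbsoluteValue Qbar ℝ)) (N : Subgroup GalQ)
    (D : (U : Subgroup GalQ) → (U → ℂ) → ℂˣ) : Prop :=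
  ∀ (p : ℕ) (U : Subgroup GalQ) (χ : LinChar U), p.Prime → PAdmissible p V N U χ → D U (lin χ) = 1

/-- the complex representations of `U` in matrix form -/
abbrev Rep (U : Subgroup GalQ) (n : ℕ) : Type := U →* Matrix (Fin n) (Fin n) ℂ

/-- `N` is contained in `U` and in the kernel of the representation `ρ` of `U`. -/
def RepTrivialOn (N U : Subgroup GalQ) (n : ℕ) (ρ : Rep U n) : Prop :=
  ∀ g ∈ N, ∃ h : g ∈ U, ρ ⟨g, h⟩ = 1

/-- the character of the representation `ρ` -/
noncomputable def trc (U : Subgroup GalQ) (n : ℕ) (ρ : Rep U n) : U → ℂ := fun u => (ρ u).trace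

/-- `θ` is the character of a complex representation of the Galois group of `M / K`, where `K` and `M` are
the fixed fields of `U` and `N`. -/
def IsCharOf (N U : Subgroup GalQ) (θ : U → ℂ) : Prop :=
  ∃ (n : ℕ) (ρ : Rep U n), RepTrivialOn N U n ρ ∧ θ = trc U n ρ

/-- `D` is trivial on all characters of the Galois groups of `M / K`, for all subfields `K` of `M`, where
`M` is the fixed field of `N`. -/
def HoldsFor (N : Subgroup GalQ) (D : (U : Subgroup GalQ) → (U → ℂ) → ℂˣ) : Prop :=
  ∀ (U : Subgroup GalQ) (θ : U → ℂ), IsCharOf N U θ → D U θ = 1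

end Pool.Agent.Y691.ST
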