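import Pool.Agent.Y691.ST.SplitThm
import Pool.Agent.Y691.ST.Bei

/-!
# Invariants which are trivial on permutation characters: reduction to small decomposition groups
-/

set_option autoImplicit false

namespace Pool.Agent.Y691.ST

open Pool.Agent.Y144.DL

/-- the main theorem for one prime, for invariants which are trivial on permutation characters -/
theorem psplit_main' {d : (GalQ → ℂ) → ℂˣ}
    (hadd : ∀ θ θ', IsArtin θ → IsArtin θ' → d (θ + θ') = d θ * d θ')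
    {V : Finset (AbsoluteValue Qbar ℝ)} (hV : ∀ v ∈ V, ∃ a : ℚ, 1 < v (a : Qbar))
    {N : Subgroup GalQ} [N.Normal] (hN : IsOpen (N : Set GalQ))
    (one : ∀ U : Subgroup GalQ, IsOpen (U : Set GalQ) → d (indF U 1) = 1) {p : ℕ} (hp : p.Prime)
    (good : ∀ (U : Subgroup GalQ) (χ : U →* ℂˣ), PAdmissible p V N U χ → d (indF U χ) = 1)
    {n : ℕ} {ρ : GalQ →* Matrix (Fin n) (Fin n) ℂ} (hρ : N ≤ ρ.ker) :
    ∃ l : ℕ, ¬ p ∣ l ∧ d (fun g => (ρ g).trace) ^ l = 1 := by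
  classical
  obtain ⟨N₂, hN₂n, hN₂, hle₂, hlev⟩ := level_finset V Dec (fun v _ => isClosed_dec v)
    (fun v hv y σ h1 h2 h3 => by
      obtain ⟨a, ha⟩ := hV v hv
      exact dec_malnormal ha h1 h2 h3) hN
  have hfin : Finite (GalQ ⧸ N₂) := Subgroup.quotient_finite_of_isOpen N₂ hN₂
  set π := QuotientGroup.mk' N₂ with hπ
  have hsurj : Function.Surjective π := QuotientGroup.mk'_surjective N₂
  have hker : π.ker = N₂ := QuotientGroup.ker_mk' N₂
  let M : Subgroup (GalQ ⧸ N₂) := N.map π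
  have hMn : M.Normal := ‹N.Normal›.map π hsurj
  have hmM : ∀ g, π g ∈ M ↔ g ∈ N := by
    intro g
    rw [← Subgroup.mem_comap, Subgroup.comap_map_eq_self (by rw [hker]; exact hle₂)]
  -- the character on the double quotient
  have hρ1 : N₂ ≤ ρ.ker := hle₂.trans hρ
  let ρ₁ : GalQ ⧸ N₂ →* Matrix (Fin n) (Fin n) ℂ := QuotientGroup.lift N₂ ρ hρ1
  have hρ2 : M ≤ ρ₁.ker := by
    rintro _ ⟨g, hg, rfl⟩
    exact hρ hg
  let ρ₂ : (GalQ ⧸ N₂) ⧸ M →* Matrix (Fin n) (Fin n) ℂ := QuotientGroup.lift M ρ₁ hρ2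
  let θ₂ : (GalQ ⧸ N₂) ⧸ M → ℂ := fun g => (ρ₂ g).trace
  have hθ₂ : IsChar θ₂ := ⟨n, ρ₂, rfl⟩
  let Y : (GalQ ⧸ N₂ → ℂ) → ℂˣ := fun f => d (f ∘ π)
  have hY : ∀ θ θ', IsChar θ → IsChar θ' → Y (θ + θ') = Y θ * Y θ' := by
    intro θ θ' h h'
    exact hadd _ _ (isArtin_comp hN₂ h) (isArtin_comp hN₂ h')
  have hQ : ∀ (K : Subgroup (GalQ ⧸ N₂)) (χ : K →* ℂˣ), χ ^ 2 = 1 → Y (ind K χ) = 1 := by
    refine quad_of_one Y hY fun K => ?_
    show d (ind K 1 ∘ π) = 1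
    rw [hπ, ind_infl]
    have h1 : infl N₂ K 1 = 1 := rfl
    rw [h1]
    exact one _ (isOpenLinear_infl hN₂ K 1).1
  refine fin_hyp Y (M := M) hY hp ?_ hθ₂
  intro K χ hK hχ
  by_cases hsq0 : χ ^ 2 = 1
  · exact hQ K χ hsq0
  show d (ind K χ ∘ π) = 1
  rw [hπ, ind_infl]
  have hop := isOpenLinear_infl hN₂ K χ
  have hsq : (infl N₂ K χ) ^ 2 ≠ 1 := by
    intro h1
    apply hsq0
    ext ⟨y, hy⟩
    obtain ⟨g, rfl⟩ := hsurj y
    have h2 := congrArg (fun f : K.comap (QuotientGroup.mk' N₂) →* ℂˣ =>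
      ((f ⟨g, hy⟩ : ℂˣ) : ℂ)) h1
    exact h2
  have hsq' : LargeOrder (K.comap (QuotientGroup.mk' N₂)) (infl N₂ K χ) := by
    by_contra hcon
    apply hsq
    unfold LargeOrder at hcon
    push Not at hcon
    ext u
    rw [pow_two]
    exact congrArg Units.val (hcon u)
  refine good _ _ ⟨hop.1, ?_, hsq', ?_, dichotomy_p hlev hK⟩
  · intro u hu
    exact hχ _ ((hmM _).mpr hu)
  · exact hyperMod_of hle₂ hK

/-- the main theorem -/
theorem psplit_one' {d : (GalQ → ℂ) → ℂˣ}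
    (hadd : ∀ θ θ', IsArtin θ → IsArtin θ' → d (θ + θ') = d θ * d θ')
    {V : Finset (AbsoluteValue Qbar ℝ)} (hV : ∀ v ∈ V, ∃ a : ℚ, 1 < v (a : Qbar))
    {N : Subgroup GalQ} [N.Normal] (hN : IsOpen (N : Set GalQ))
    (one : ∀ U : Subgroup GalQ, IsOpen (U : Set GalQ) → d (indF U 1) = 1)
    (good : ∀ (p : ℕ) (U : Subgroup GalQ) (χ : U →* ℂˣ), p.Prime → PAdmissible p V N U χ →
      d (indF U χ) = 1)
    {n : ℕ} {ρ : GalQ →* Matrix (Fin n) (Fin n) ℂ} (hρ : N ≤ ρ.ker) :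
    d (fun g => (ρ g).trace) = 1 := by
  have h1 := fun (p : ℕ) (hp : p.Prime) =>
    psplit_main' hadd hV hN one hp (fun U χ h => good p U χ hp h) hρ
  rw [← orderOf_eq_one_iff]
  by_contra h4
  obtain ⟨p, hp, hpd⟩ := Nat.exists_prime_and_dvd h4
  obtain ⟨m, hm, hm1⟩ := h1 p hp
  exact hm (hpd.trans (orderOf_dvd_of_pow_eq_one hm1))

/-- the theorem for the data of the conjecture of Beilinson -/
theorem borel_split {d : (GalQ → ℂ) → ℂˣ} {D : (U : Subgroup GalQ) → (U → ℂ) → ℂˣ}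
    (hD : IsBorelDefect d D) {V : Finset (AbsoluteValue Qbar ℝ)} (hV : ArePlaces V)
    {N : Subgroup GalQ} (hNn : N.Normal) (hN : IsOpen (N : Set GalQ))
    (good : HoldsAdmissible V N D) : HoldsFor N D := by
  intro U θ hθ
  have hsub : ∀ (W : Subgroup GalQ), IsOpen ((N.subgroupOf W : Subgroup W) : Set W) :=
    fun W => hN.preimage continuous_subtype_val
  have hlin : ∀ (W : Subgroup GalQ) (χ : W →* ℂˣ), IsOpenLinear W χ →
      D W (lin χ) = d (indF W χ) := by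
    intro W χ h
    obtain ⟨h1, h2⟩ := isOpenLinear_iff.mp h
    rw [hD.ind W _ h1 (isArtin_lin h2), indC_lin]
  obtain ⟨n, ρ, hNU, rfl⟩ := hθ
  have hU : IsOpen (U : Set GalQ) := isOpen_of_le hN fun g hg => (hNU g hg).1
  have hker : IsOpen {u : U | ρ u = 1} := by
    have h1 : IsOpen ((ρ.ker : Subgroup U) : Set U) := by
      refine Subgroup.isOpen_mono (H₁ := N.subgroupOf U) ?_ (hsub U)
      intro u hu
      obtain ⟨_, h2⟩ := hNU u hu
      exact h2
    exact h1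
  have htr : trc U n ρ = fun u => (ρ u).trace := rfl
  rw [htr, hD.ind U _ hU ⟨n, ρ, hker, rfl⟩]
  obtain ⟨k, R, hR, hR2⟩ := exists_ind hN hNU
  rw [hR2]
  refine psplit_one' hD.add hV hN ?_ ?_ hR
  · intro W hW
    have h1 : IsOpen {u : W | (1 : W →* ℂˣ) u = 1} := by
      have h2 : {u : W | (1 : W →* ℂˣ) u = 1} = Set.univ := by
        ext u
        simp
      rw [h2]
      exact isOpen_univ
    have h3 : (lin (1 : W →* ℂˣ)) = 1 := by
      funext u
      simp [lin]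
    rw [← hlin W 1 (isOpenLinear_iff.mpr ⟨hW, h1⟩), h3]
    exact hD.one W hW
  · intro p W χ hp h
    have h1 : IsOpen {u : W | χ u = 1} := by
      have h2 : IsOpen ((χ.ker : Subgroup W) : Set W) := by
        refine Subgroup.isOpen_mono (H₁ := N.subgroupOf W) ?_ (hsub W)
        intro u hu
        exact h.trivial u hu
      exact h2
    rw [← hlin W χ (isOpenLinear_iff.mpr ⟨h.isOpen, h1⟩)]
    exact good p W χ hp h

end Pool.Agent.Y691.ST
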