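import Pool.Agent.Y691.ST.SplitDefs

/-!
# Beilinson's conjecture for `K_2` of curves and the parity conjecture over number fields: definitions
-/

set_option autoImplicit false

namespace Pool.Agent.Y691.ST

/-- The equality of two sums of permutation characters of the absolute Galois group of `ℚ`: a Brauer
relation between number fields. -/
def BrauerRelation (l l' : List (Subgroup GalQ)) : Prop :=
  (∀ U ∈ l, IsOpen (U : Set GalQ)) ∧ (∀ U ∈ l', IsOpen (U : Set GalQ)) ∧
    (l.map fix).sum = (l'.map fix).sum

/-- The data of Beilinson's conjecture for `K_2` of a curve `C` over `ℚ` of genus `g` over all number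
fields `K` (the fixed fields of the open subgroups `U` of the absolute Galois group of `ℚ`), the rank part
being true: the determinant `reg` of the regulator pairing in rational bases, and the value `lead` at `0`
of the derivative of order `g [K : ℚ]` of `L(C / K, s)`. -/
structure KTwo where
  reg : Subgroup GalQ → ℝ
  lead : Subgroup GalQ → ℝ

/-- Known properties: the numbers are not zero, and their quotients are, up to rational factors,
compatible with Brauer relations (Artin formalism, Galois descent). -/
structure IsKTwo (E : KTwo) : Prop where
  reg_ne : ∀ U, E.reg U ≠ 0
  lead_ne : ∀ U, E.lead U ≠ 0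
  brauer : ∀ l l', BrauerRelation l l' → ∃ q : ℚ, q ≠ 0 ∧
    (l.map fun U => E.reg U / E.lead U).prod = q * (l'.map fun U => E.reg U / E.lead U).prod

/-- **Beilinson's conjecture** on the regulator of `C` over the fixed field of `U`. -/
def KTwo.Holds (E : KTwo) (U : Subgroup GalQ) : Prop := ∃ q : ℚ, q ≠ 0 ∧ E.reg U = q * E.lead U

/-- The data of the parity conjecture for an abelian variety over `ℚ` over all number fields: the product
`root` of the local root numbers and the rank. -/
structure ParityData where
  root : Subgroup GalQ → ℤˣ
  rank : Subgroup GalQ → ℕ

/-- Known properties: both are compatible with Brauer relations. -/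
structure IsParityData (E : ParityData) : Prop where
  root : ∀ l l', BrauerRelation l l' → (l.map E.root).prod = (l'.map E.root).prod
  rank : ∀ l l', BrauerRelation l l' → (l.map E.rank).sum = (l'.map E.rank).sum

/-- **The parity conjecture** for the abelian variety over the fixed field of `U`. -/
def ParityData.Holds (E : ParityData) (U : Subgroup GalQ) : Prop := (-1) ^ E.rank U = E.root U

end Pool.Agent.Y691.ST
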